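import Pool.Agent.K9h52.DX.Main3
import Pool.Agent.Y24.GL.H5

/-!
Entire functions without zeros in `Re s > 1` and bounded above and below in `Re s ≥ 3 / 2`: uniform version.
-/

open Complex Metric Set Filter Topology

namespace Pool.Agent.K9h52.HY

open H370 H370.Loc DH31 DX

/-- the analytic properties -/
structure EZ (A : ℝ) (F : ℂ → ℂ) : Prop where
  diff : Differentiable ℂ F
  ne : ∀ z : ℂ, 1 < z.re → F z ≠ 0
  bds : ∀ s : ℂ, 3 / 2 ≤ s.re → ‖F s‖ ≤ A ∧ 1 / A ≤ ‖F s‖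

/-- growth up to height `Y` in terms of `T` -/
def Gr (F : ℂ → ℂ) (T Y : ℝ) : Prop :=
  ∀ w : ℂ, 1 / 4 ≤ w.re → w.re ≤ 4 → |w.im| ≤ Y → ‖F w‖ ≤ T ^ 2

/-- the zeros of `F` in the set `A`, counted with multiplicity -/
noncomputable def cntF (F : ℂ → ℂ) (A : Set ℂ) : ℕ := ∑ᶠ s ∈ A, analyticOrderNatAt F s

variable {F : ℂ → ℂ} {A₀ : ℝ}

lemma EZ.re_le (hF : EZ A₀ F) {ρ : ℂ} (h : F ρ = 0) : ρ.re ≤ 1 := by
  by_contra hcon
  push Not at hcon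
  exact hF.ne ρ hcon h

lemma EZ.an (hF : EZ A₀ F) (z : ℂ) : AnalyticAt ℂ F z := hF.diff.analyticAt z

lemma EZ.ne2 (hF : EZ A₀ F) (y : ℝ) : F ⟨2, y⟩ ≠ 0 := hF.ne _ (by simp)

lemma EZ.fin_compact (hF : EZ A₀ F) {K : Set ℂ} (hK : IsCompact K) :
    {s : ℂ | s ∈ K ∧ F s = 0}.Finite := by
  by_contra hinf
  have hinf : {s : ℂ | s ∈ K ∧ F s = 0}.Infinite := hinf
  obtain ⟨x, hx, hacc⟩ := hinf.exists_accPt_of_subset_isCompact hK (fun s hs => hs.1)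
  have hfreq : ∃ᶠ z in 𝓝[≠] x, F z = 0 := by
    rw [accPt_iff_frequently_nhdsNE] at hacc
    exact hacc.mono fun z hz => hz.2
  have hz := AnalyticOnNhd.eqOn_zero_of_preconnected_of_frequently_eq_zero
      (f := F) (U := Set.univ) (fun s _ => hF.an s) isPreconnected_univ
      (Set.mem_univ x) hfreq
  exact hF.ne2 0 (hz (Set.mem_univ _))

lemma EZ.fin_region (hF : EZ A₀ F) (a b c : ℝ) :
    {s : ℂ | F s = 0 ∧ a ≤ s.re ∧ b ≤ s.im ∧ s.im ≤ c}.Finite := by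
  have hcomp : IsCompact (Icc a 1 ×ℂ Icc b c) := isCompact_Icc.reProdIm isCompact_Icc
  refine (hF.fin_compact hcomp).subset ?_
  rintro s ⟨h1, h2, h3, h4⟩
  exact ⟨⟨⟨h2, hF.re_le h1⟩, ⟨h3, h4⟩⟩, h1⟩

lemma cntF_eq {A : Set ℂ} (hA : A.Finite) :
    cntF F A = ∑ s ∈ hA.toFinset, analyticOrderNatAt F s :=
  finsum_mem_eq_finite_toFinset_sum _ hA

lemma cntF_mono {A B : Set ℂ} (hB : B.Finite) (h : A ⊆ B) : cntF F A ≤ cntF F B := by
  rw [cntF_eq (hB.subset h), cntF_eq hB]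
  exact Finset.sum_le_sum_of_subset (by
    intro x hx
    rw [Set.Finite.mem_toFinset] at hx ⊢
    exact h hx)

lemma sum_le_cntF {A : Set ℂ} (hA : A.Finite) (S : Finset ℂ) (h : ∀ z ∈ S, z ∈ A) :
    ∑ s ∈ S, analyticOrderNatAt F s ≤ cntF F A := by
  rw [cntF_eq hA]
  exact Finset.sum_le_sum_of_subset (by
    intro x hx
    rw [Set.Finite.mem_toFinset]
    exact h x hx)

/-- zeros in a closed disc -/
def ZdF (F : ℂ → ℂ) (c : ℂ) (R : ℝ) : Set ℂ := {s : ℂ | F s = 0 ∧ ‖s - c‖ ≤ R}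

lemma EZ.Zd_finite (hF : EZ A₀ F) (c : ℂ) (R : ℝ) : (ZdF F c R).Finite := by
  refine (hF.fin_compact (isCompact_closedBall c R)).subset ?_
  rintro s ⟨h1, h2⟩
  refine ⟨?_, h1⟩
  rw [mem_closedBall, dist_eq_norm]
  exact h2

lemma EZ.Zd_sum_le (hF : EZ A₀ F) {c : ℂ} {R : ℝ} {S : Finset ℂ}
    (hS : ∀ z ∈ S, z ∈ closedBall c R ∧ F z = 0) :
    ∑ z ∈ S, (mult F z : ℝ) ≤ cntF F (ZdF F c R) := by
  have h5 : ∑ s ∈ S, analyticOrderNatAt F s ≤ cntF F (ZdF F c R) := by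
    refine sum_le_cntF (hF.Zd_finite c R) S fun z hz => ?_
    obtain ⟨h6, h7⟩ := hS z hz
    rw [mem_closedBall, dist_eq_norm] at h6
    exact ⟨h7, h6⟩
  unfold mult
  exact_mod_cast h5

lemma cntF_pos {A : Set ℂ} (h : 0 < cntF F A) : A.Nonempty := by
  by_contra hcon
  rw [Set.not_nonempty_iff_eq_empty] at hcon
  rw [hcon] at h
  unfold cntF at h
  simp at h

lemma cntF_le_sum {ι : Type*} [DecidableEq ι] {A : Set ℂ} (hA : A.Finite) (U : Finset ι)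
    (t : ι → Set ℂ) (ht : ∀ i, (t i).Finite) (h : ∀ s ∈ A, ∃ i ∈ U, s ∈ t i) :
    cntF F A ≤ ∑ i ∈ U, cntF F (t i) := by
  classical
  rw [cntF_eq hA]
  have h1 : hA.toFinset ⊆ U.biUnion (fun i => (ht i).toFinset) := by
    intro s hs
    rw [Set.Finite.mem_toFinset] at hs
    obtain ⟨i, hi, hsi⟩ := h s hs
    rw [Finset.mem_biUnion]
    exact ⟨i, hi, by rw [Set.Finite.mem_toFinset]; exact hsi⟩
  refine (Finset.sum_le_sum_of_subset h1).trans ((sum_biUnion_le _ _ _).trans (le_of_eq ?_))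
  refine Finset.sum_congr rfl fun i _ => ?_
  rw [cntF_eq (ht i)]

lemma EZ.region_finite (hF : EZ A₀ F) (a b B : ℝ) :
    {s : ℂ | F s = 0 ∧ a ≤ s.re ∧ |s.im - b| ≤ B}.Finite := by
  refine (hF.fin_region a (b - B) (b + B)).subset ?_
  rintro s ⟨h1, h2, h3⟩
  rw [abs_le] at h3
  exact ⟨h1, h2, by linarith [h3.1], by linarith [h3.2]⟩

end Pool.Agent.K9h52.HY
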