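import Pool.Agent.K9h52.HY.Tw

/-!
Detection of a zero from a centre with real part `2`: uniform version.
-/

open Complex Metric Set Filter Topology

namespace Pool.Agent.K9h52.HY

open DH31 DX GX

variable {Φ : ℝ → ℝ}

set_option maxHeartbeats 1000000 in
theorem detect (hΦ : ∀ κ, 0 < Φ κ) {δ η : ℝ} (hδ : 0 < δ) (hδ1 : δ ≤ 1 / 4) (hη : 0 < η) :
    ∃ T0 : ℝ, 1 ≤ T0 ∧ ∀ (F : ℂ → ℂ) (a b : ArithmeticFunction ℂ), LU Φ F a b →
      ∀ T : ℝ, T0 ≤ T → ∀ y : ℝ, ∀ ρ : ℂ, F ρ = 0 →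
      ∀ r r0 : ℝ, 0 < r → r ≤ r0 → r0 ≤ 3 / 2 → ‖ρ - ⟨2, y⟩‖ ≤ r →
      (∀ z ∈ closedBall (⟨2, y⟩ : ℂ) (r + δ), ‖F z‖ ≤ T ^ η) →
      ∃ k < KK δ η T, 1 / (2 * (KK δ η T : ℝ)) ≤
        ‖∑ n ∈ Finset.Ioc ⌊T ^ η⌋₊ (2 ^ (16 * KK δ η T)),
          bdF a b r0 k ⌊T ^ η⌋₊ n * (n : ℂ) ^ (-(y : ℂ) * I)‖ := by
  obtain ⟨q, hq⟩ : ∃ q : ℕ, q = 16 := ⟨16, rfl⟩
  have hq2 : (2 : ℝ) ^ q = 65536 := by rw [hq]; norm_num
  have hqr : (q : ℝ) = 16 := by rw [hq]; norm_num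
  rw [← hq]
  clear hq
  obtain ⟨C, hC1, hCu⟩ := cX_boundU (κ := 1 / 4) (by positivity) hΦ
  obtain ⟨Cb, hCbe⟩ : ∃ Cb : ℝ, Cb = Φ (1 / 4) := ⟨_, rfl⟩
  have hCb : 0 < Cb := by rw [hCbe]; exact hΦ _
  have hWs : Summable (fun m : ℕ => 1 / (m : ℝ) ^ (5 / 4 : ℝ)) :=
    Real.summable_one_div_nat_rpow.mpr (by norm_num)
  set W := ∑' m : ℕ, 1 / (m : ℝ) ^ (5 / 4 : ℝ) with hWdef
  have hW : HasSum (fun m : ℕ => 1 / (m : ℝ) ^ (5 / 4 : ℝ)) W := hWs.hasSum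
  have hW0 : 0 ≤ W := tsum_nonneg fun m => by positivity
  -- tail constant
  have hlim : Filter.Tendsto (fun n : ℕ => (n : ℝ) * (1 / 2 : ℝ) ^ n) Filter.atTop (𝓝 0) :=
    tendsto_self_mul_const_pow_of_lt_one (by norm_num) (by norm_num)
  have hlim2 : ∀ᶠ n : ℕ in Filter.atTop, (n : ℝ) * (1 / 2 : ℝ) ^ n * (C * W) ≤ 1 / 4 := by
    have h1 := hlim.mul_const (C * W)
    rw [zero_mul] at h1
    filter_upwards [h1.eventually_lt_const (show (0 : ℝ) < 1 / 4 by norm_num)] with n hn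
    exact hn.le
  obtain ⟨K0, hK0⟩ := Filter.eventually_atTop.1 hlim2
  refine ⟨max (max 1 (Real.exp ((K0 : ℝ) * δ / (6 * η)))) ((8 * Cb / δ) ^ (1 / η)),
    (le_max_left _ _).trans (le_max_left _ _), ?_⟩
  intro F a b hU T hT y ρ hρ r r0 hr hrr0 hr0 hρr hb
  have h := hU.lx
  have hC := hCu a b hU.sa hU.sb
  have hCb' : ∀ (X : ℕ) (s : ℂ), 1 / 4 ≤ s.re → ‖BX b X s‖ ≤ Cb * X := by
    rw [hCbe]; exact hU.sb.BX_le
  have hT1 : 1 ≤ T := (le_max_left _ _).trans ((le_max_left _ _).trans hT)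
  have hTK : Real.exp ((K0 : ℝ) * δ / (6 * η)) ≤ T :=
    (le_max_right _ _).trans ((le_max_left _ _).trans hT)
  have hT8 : 8 * Cb / δ ≤ T ^ η := by
    have h1 : (8 * Cb / δ) ^ (1 / η) ≤ T := (le_max_right _ _).trans hT
    have h2 : ((8 * Cb / δ) ^ (1 / η)) ^ η ≤ T ^ η := by gcongr
    rwa [← Real.rpow_mul (by positivity), one_div, inv_mul_cancel₀ hη.ne', Real.rpow_one] at h2
  have hlogT : 0 ≤ Real.log T := Real.log_nonneg hT1
  have hsmall := h.taylor_small hCb hCb' hδ hδ1 hη hT1 hT8 hρ hr (hrr0.trans hr0) hρr hb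
  set c : ℂ := ⟨2, y⟩ with hc
  set X := ⌊T ^ η⌋₊ with hX
  set K := KK δ η T with hK
  set Z := 2 ^ (q * K) with hZ
  have hTη : 1 ≤ T ^ η := Real.one_le_rpow hT1 hη.le
  have hX1 : 1 ≤ X := by
    rw [hX]; exact Nat.one_le_floor_iff _ |>.2 hTη
  have hK1 : 1 ≤ K := by rw [hK]; unfold KK; omega
  have hKlog : 6 * η / δ * Real.log T ≤ K := by
    have := Nat.le_ceil (6 * η / δ * Real.log T)
    rw [hK]; unfold KK; push_cast; linarith
  have hKK0 : K0 ≤ K := by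
    have h1 : (K0 : ℝ) * δ / (6 * η) ≤ Real.log T := by
      rw [Real.le_log_iff_exp_le (by linarith)]; exact hTK
    have h2 : (K0 : ℝ) ≤ 6 * η / δ * Real.log T := by
      rw [div_le_iff₀ (by positivity)] at h1
      rw [div_mul_eq_mul_div, le_div_iff₀ hδ]
      linarith
    exact_mod_cast h2.trans hKlog
  have hZr : (Z : ℝ) = (65536 : ℝ) ^ K := by rw [hZ]; push_cast; rw [pow_mul, hq2]
  have hXZ : X ≤ Z := by
    have h1 : (X : ℝ) ≤ T ^ η := Nat.floor_le (by positivity)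
    have h2 : T ^ η ≤ Real.exp K := by
      rw [Real.rpow_def_of_pos (by linarith)]
      apply Real.exp_le_exp.2
      refine le_trans ?_ hKlog
      have : η ≤ 6 * η / δ := by
        rw [le_div_iff₀ hδ]; nlinarith
      rw [mul_comm]
      gcongr
    have h3 : Real.exp (K : ℝ) ≤ (65536 : ℝ) ^ K := by
      rw [← Real.exp_one_pow]
      have : Real.exp 1 ≤ (65536 : ℝ) := by
        have := Real.exp_one_lt_d9; linarith
      exact pow_le_pow_left₀ (Real.exp_pos _).le this K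
    have h4 : (X : ℝ) ≤ (Z : ℝ) := by
      rw [hZr]; exact h1.trans (h2.trans h3)
    exact_mod_cast h4
  -- the polynomials
  set u : ℂ := -(ρ - c) with hu
  have hur : ‖u‖ ≤ r := by rw [hu, norm_neg]; exact hρr
  have hu2 : ‖u‖ ≤ 2 := by linarith
  set P : ℕ → ℂ := fun k => (u ^ k / (k.factorial : ℂ)) * ∑ n ∈ Finset.Ioc X Z,
    cX a b X n * (Real.log n : ℂ) ^ k * (n : ℂ) ^ (-c) with hP
  set t : ℕ → ℂ := fun k => tc (fun s => F s * BX b X s) c k * (ρ - c) ^ k with ht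
  have hterm : ∀ k, ‖t k - (if k = 0 then 1 else 0) - P k‖ ≤
      C * 8 ^ k * W * (Z : ℝ) ^ (-(1 / 4) : ℝ) := by
    intro k
    have h1 := h.split hC1 hC hW (X := X) (Z := Z) (k := k) hX1 hXZ (u := u) (γ := y) hu2
    have h2 : (u ^ k / (k.factorial : ℂ)) * ((-1) ^ k * (k.factorial : ℂ) *
        tc (fun s => F s * BX b X s) ⟨2, y⟩ k) = t k := by
      simp only [ht, hu]
      have e0 : (-(ρ - c)) ^ k = (-1) ^ k * (ρ - c) ^ k := neg_pow _ _
      rw [e0]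
      have h5 : (k.factorial : ℂ) ≠ 0 := by exact_mod_cast Nat.factorial_ne_zero k
      have h4 : ((-1 : ℂ) ^ k) * (-1) ^ k = 1 := by rw [← mul_pow]; norm_num
      calc (-1) ^ k * (ρ - c) ^ k / (k.factorial : ℂ) * ((-1) ^ k * (k.factorial : ℂ) *
            tc (fun s => F s * BX b X s) ⟨2, y⟩ k)
          = (((-1 : ℂ) ^ k) * (-1) ^ k) * ((k.factorial : ℂ) / (k.factorial : ℂ)) *
            (tc (fun s => F s * BX b X s) ⟨2, y⟩ k * (ρ - c) ^ k) := by ring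
        _ = _ := by rw [h4, div_self h5, one_mul, one_mul]
    rw [h2] at h1
    exact h1
  have hZpow : (Z : ℝ) ^ (-(1 / 4) : ℝ) = (1 / 16) ^ K := by
    have e0 : (65536 : ℝ) = (16 : ℝ) ^ (4 : ℝ) := by
      rw [show (4 : ℝ) = ((4 : ℕ) : ℝ) by norm_num, Real.rpow_natCast]; norm_num
    rw [hZr, e0, ← Real.rpow_natCast, ← Real.rpow_mul (by norm_num), ← Real.rpow_mul (by norm_num)]
    have e2 : (4 : ℝ) * ((K : ℝ) * (-(1 / 4))) = -(K : ℝ) := by ring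
    rw [e2, Real.rpow_neg (by norm_num), Real.rpow_natCast, one_div, inv_pow]
  have hsum1 : ‖∑ k ∈ Finset.range K, (t k - (if k = 0 then 1 else 0) - P k)‖ ≤ 1 / 4 := by
    have h1 : ∀ k ∈ Finset.range K, ‖t k - (if k = 0 then 1 else 0) - P k‖ ≤
        C * 8 ^ K * W * (1 / 16) ^ K := by
      intro k hk
      rw [Finset.mem_range] at hk
      refine (hterm k).trans ?_
      rw [hZpow]
      have : (8 : ℝ) ^ k ≤ 8 ^ K :=
        pow_le_pow_right₀ (by norm_num) hk.le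
      gcongr
    refine (norm_sum_le_of_le _ h1).trans ?_
    rw [Finset.sum_const, Finset.card_range, nsmul_eq_mul]
    have h2 := hK0 K hKK0
    have e0 : (1 / 16 : ℝ) ^ K * 8 ^ K = (1 / 2) ^ K := by
      rw [← mul_pow]; congr 1; norm_num
    calc (K : ℝ) * (C * 8 ^ K * W * (1 / 16) ^ K) =
          (K : ℝ) * ((1 / 16) ^ K * 8 ^ K) * (C * W) := by
          ring
      _ = (K : ℝ) * (1 / 2 : ℝ) ^ K * (C * W) := by rw [e0]
      _ ≤ 1 / 4 := h2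
  have hsum2 : ∑ k ∈ Finset.range K, (if k = 0 then (1 : ℂ) else 0) = 1 := by
    rw [Finset.sum_ite_eq' (Finset.range K) 0 (fun _ => (1 : ℂ))]
    simp only [Finset.mem_range]
    rw [if_pos (by omega)]
  have hPsum : 1 / 2 ≤ ‖∑ k ∈ Finset.range K, P k‖ := by
    rw [Finset.sum_sub_distrib, Finset.sum_sub_distrib, hsum2] at hsum1
    have h1 : (1 : ℂ) = (∑ k ∈ Finset.range K, t k) - ((∑ k ∈ Finset.range K, t k) - 1 -
        ∑ k ∈ Finset.range K, P k) - ∑ k ∈ Finset.range K, P k := by ring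
    have h2 : (1 : ℝ) ≤ 1 / 4 + 1 / 4 + ‖∑ k ∈ Finset.range K, P k‖ := by
      calc (1 : ℝ) = ‖(1 : ℂ)‖ := by simp
        _ = ‖(∑ k ∈ Finset.range K, t k) - ((∑ k ∈ Finset.range K, t k) - 1 -
        ∑ k ∈ Finset.range K, P k) - ∑ k ∈ Finset.range K, P k‖ := by rw [← h1]
        _ ≤ ‖∑ k ∈ Finset.range K, t k‖ + ‖(∑ k ∈ Finset.range K, t k) - 1 -
        ∑ k ∈ Finset.range K, P k‖ + ‖∑ k ∈ Finset.range K, P k‖ := by
          refine (norm_sub_le _ _).trans ?_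
          gcongr
          exact norm_sub_le _ _
        _ ≤ _ := by gcongr
    linarith
  -- pigeonhole
  have hex : ∃ k < K, 1 / (2 * (K : ℝ)) ≤ ‖P k‖ := by
    by_contra hcon
    push Not at hcon
    have h1 : ‖∑ k ∈ Finset.range K, P k‖ < 1 / 2 := by
      calc ‖∑ k ∈ Finset.range K, P k‖ ≤ ∑ k ∈ Finset.range K, ‖P k‖ := norm_sum_le _ _
        _ < ∑ k ∈ Finset.range K, 1 / (2 * (K : ℝ)) := by
          refine Finset.sum_lt_sum_of_nonempty ⟨0, Finset.mem_range.2 (by omega)⟩ fun k hk => ?_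
          exact hcon k (Finset.mem_range.1 hk)
        _ = 1 / 2 := by
          rw [Finset.sum_const, Finset.card_range, nsmul_eq_mul]
          have : (K : ℝ) ≠ 0 := by positivity
          field_simp
    linarith
  obtain ⟨k, hk, hPk⟩ := hex
  refine ⟨k, hk, hPk.trans ?_⟩
  -- replace the exponent
  have hPn : ‖P k‖ = ‖u‖ ^ k / k.factorial * ‖∑ n ∈ Finset.Ioc X Z,
    cX a b X n * (Real.log n : ℂ) ^ k * (n : ℂ) ^ (-c)‖ := by
    simp only [hP]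
    rw [norm_mul, norm_div, norm_pow, Complex.norm_natCast]
  have hQ : ∑ n ∈ Finset.Ioc X Z, bdF a b r0 k X n * (n : ℂ) ^ (-(y : ℂ) * I) =
      ((r0 ^ k / k.factorial : ℝ) : ℂ) * ∑ n ∈ Finset.Ioc X Z,
        cX a b X n * (Real.log n : ℂ) ^ k * (n : ℂ) ^ (-c) := by
    rw [Finset.mul_sum]
    refine Finset.sum_congr rfl fun n hn => ?_
    rw [Finset.mem_Ioc] at hn
    have hn0 : (n : ℂ) ≠ 0 := by
      have : n ≠ 0 := by omega
      exact_mod_cast this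
    have hcc : -c = (-(2 : ℝ) : ℂ) + (-(y : ℂ) * I) := by
      apply Complex.ext <;> simp [hc]
    rw [hcc, Complex.cpow_add _ _ hn0]
    unfold bdF
    push_cast
    rw [mul_pow]
    ring
  rw [hPn, hQ, norm_mul, Complex.norm_real, Real.norm_of_nonneg (by
    have : 0 ≤ r0 := by linarith
    positivity)]
  have : ‖u‖ ≤ r0 := hur.trans hrr0
  gcongr

end Pool.Agent.K9h52.HY
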