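import Pool.Agent.H31R2.DH.MVd
import Pool.Agent.W169.HF.DefsNF

/-!
Statements of the leaves (project HY of helper52, MP_fb225e_nt: density hypothesis for the L-functions of
an elliptic curve over all cyclotomic fields, away from extremal clusters).
-/

open Complex MeasureTheory Set
open UpperHalfPlane MatrixGroups CongruenceSubgroup

namespace Pool.Agent.K9h52.HY

/-- Leaf HMV: mean value over all characters modulo `q` (evaluated as primitive characters) and at one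
point of each unit interval `[n, n+1]`, `M0 ≤ n < M0 + N0`. -/
def S_HMV : Prop := ∀ (q : ℕ) [NeZero q] (c : ℕ → ℂ) (X : ℕ) (M0 : ℤ) (N0 : ℕ)
  (S : DirichletCharacter ℂ q → Finset ℤ), (∀ χ, S χ ⊆ Finset.Ico M0 (M0 + N0)) →
  ∀ t : DirichletCharacter ℂ q → ℤ → ℝ, (∀ χ, ∀ n ∈ S χ, t χ n ∈ Icc (n : ℝ) (n + 1)) →
  ∑ χ : DirichletCharacter ℂ q, ∑ n ∈ S χ,
      ‖DH31.dp (fun m => c m * χ.primitiveCharacter (m : ZMod χ.conductor)) X (t χ n)‖ ^ 2 ≤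
    q.divisors.card * (2 + Real.log X ^ 2) * (q * N0 + 8 * X * (1 + Real.log X)) *
      ∑ m ∈ Finset.Icc 1 X, ‖c m‖ ^ 2

/-- Leaf EC: the twisted L-functions of the newform of an elliptic curve (analytic normalisation), with
bounds uniform in the twist. -/
def S_EC : Prop := ∀ (N : ℕ) [NeZero N] (f : CuspForm (Gamma0 N : Subgroup (GL (Fin 2) ℝ)) 2) (w : ℝ),
  Pool.Agent.W169.HF.IsForm N f w →
  ∃ (a b : ArithmeticFunction ℂ) (A : ℝ), 1 ≤ A ∧ a * b = 1 ∧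
    (∀ n : ℕ, 1 ≤ n → a n = Pool.Agent.W169.HF.coef f n * ((((n : ℝ) ^ (-(1 / 2 : ℝ)) : ℝ)) : ℂ)) ∧
    (∀ n : ℕ, 1 ≤ n → ‖a n‖ ≤ n.divisors.card) ∧ (∀ n : ℕ, 1 ≤ n → ‖b n‖ ≤ n.divisors.card) ∧
    ∀ (q : ℕ) [NeZero q] (χ : DirichletCharacter ℂ q), χ.IsPrimitive → Nat.Coprime q N →
      ∃ F : ℂ → ℂ, Differentiable ℂ F ∧
        (∀ s : ℂ, 1 < s.re → F s = LSeries (fun n => χ (n : ZMod q) * a n) s) ∧
        ∀ s : ℂ, 1 / 4 ≤ s.re → ‖F s‖ ≤ A * (q * (1 + |s.im|)) ^ 2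

end Pool.Agent.K9h52.HY
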