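import Pool.Agent.K9h52.HY.Tw
import Pool.Agent.K9h52.HY.Stm

/-!
Large values of twisted short Dirichlet polynomials.
-/

open Complex MeasureTheory Set Filter Topology

namespace Pool.Agent.K9h52.HY

open DH31 DX GX

theorem large_fam (hmv : S_HMV) {q : ℕ} [NeZero q] {b : ArithmeticFunction ℂ} {N Y m : ℕ} {M0 : ℤ}
    {N0 : ℕ} {σ V B : ℝ} (hN : 1 ≤ N)
    (hσ : 0 ≤ σ) (hV : 0 ≤ V) (hs : ∀ n, b n ≠ 0 → N ≤ n ∧ n ≤ Y)
    (hb : ∀ n : ℕ, 1 ≤ n → ‖b n‖ ≤ (n.divisors.card : ℝ) * (n : ℝ) ^ (-σ))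
    (hB : ∀ n ∈ Finset.Icc 1 (Y ^ m), (n.divisors.card : ℝ) ^ (4 * m) ≤ B)
    (hB0 : 0 ≤ B)
    (S : DirichletCharacter ℂ q → Finset ℤ) (hS : ∀ χ, S χ ⊆ Finset.Ico M0 (M0 + N0))
    (t : DirichletCharacter ℂ q → ℤ → ℝ) (ht : ∀ χ, ∀ n ∈ S χ, t χ n ∈ Icc (n : ℝ) (n + 1))
    (hlarge : ∀ χ, ∀ n ∈ S χ, V ≤ ‖dp (fun n => tw (pc χ) b n) Y (t χ n)‖) :
    (∑ χ, ((S χ).card : ℝ)) * V ^ (2 * m) ≤
      q.divisors.card * (2 + Real.log ((Y ^ m : ℕ) : ℝ) ^ 2) * (q * N0 + 8 * ((Y ^ m : ℕ) : ℝ) *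
        (1 + Real.log ((Y ^ m : ℕ) : ℝ))) *
        (((Y ^ m : ℕ) : ℝ) * ((((N ^ m : ℕ) : ℝ)) ^ (-(2 * σ)) * B)) := by
  have h1 := hmv q (fun n => (b ^ m) n) (Y ^ m) M0 N0 S hS t ht
  have h2 : (∑ χ, ((S χ).card : ℝ)) * V ^ (2 * m) ≤ ∑ χ : DirichletCharacter ℂ q, ∑ n ∈ S χ,
      ‖dp (fun k => (b ^ m) k * χ.primitiveCharacter (k : ZMod χ.conductor)) (Y ^ m) (t χ n)‖ ^ 2 := by
    rw [Finset.sum_mul]
    refine Finset.sum_le_sum fun χ _ => ?_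
    rw [← nsmul_eq_mul]
    refine Finset.card_nsmul_le_sum _ _ _ fun n hn => ?_
    have hs' : ∀ n, tw (pc χ) b n ≠ 0 → N ≤ n ∧ n ≤ Y := by
      intro n hn
      refine hs n fun h0 => hn ?_
      rw [tw_apply, h0, zero_mul]
    have e1 : (fun k => (b ^ m) k * χ.primitiveCharacter (k : ZMod χ.conductor)) =
        fun k => ((tw (pc χ) b) ^ m) k := by
      funext k
      rw [← tw_pow (pc_one χ) (pc_mul χ), tw_apply]
      rfl
    rw [e1, dp_pow hs', norm_pow, ← pow_mul, mul_comm m 2]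
    gcongr
    exact hlarge χ n hn
  refine h2.trans (h1.trans ?_)
  have hlogY : 0 ≤ Real.log ((Y ^ m : ℕ) : ℝ) := Real.log_natCast_nonneg _
  gcongr
  -- sum of the squares of the coefficients
  have h3 : ∀ n ∈ Finset.Icc 1 (Y ^ m), ‖(b ^ m) n‖ ^ 2 ≤
      (((N ^ m : ℕ) : ℝ)) ^ (-(2 * σ)) * B := by
    intro n hn
    have hn' := hn
    rw [Finset.mem_Icc] at hn
    by_cases h0 : (b ^ m) n = 0
    · rw [h0, norm_zero]
      simp only [ne_eq, OfNat.ofNat_ne_zero, not_false_eq_true, zero_pow]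
      positivity
    · have h4 := pow_bound hb m n hn.1
      have h5 := (pow_support hs m n h0).1
      have hnr : (1 : ℝ) ≤ n := by exact_mod_cast hn.1
      have hNm : (0 : ℝ) < ((N ^ m : ℕ) : ℝ) := by positivity
      have h6 : ‖(b ^ m) n‖ ^ 2 ≤ ((n.divisors.card : ℝ) ^ (2 * m) * (n : ℝ) ^ (-σ)) ^ 2 := by
        gcongr
      refine h6.trans ?_
      have h9 : ((n : ℝ) ^ (-σ)) ^ 2 = (n : ℝ) ^ (-(2 * σ)) := by
        rw [← Real.rpow_natCast, ← Real.rpow_mul (by positivity)]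
        congr 1
        push_cast; ring
      rw [mul_pow, ← pow_mul, mul_comm (2 * m) 2, ← mul_assoc, show 2 * 2 = 4 by norm_num,
        h9, mul_comm]
      have h7 : (n : ℝ) ^ (-(2 * σ)) ≤ (((N ^ m : ℕ) : ℝ)) ^ (-(2 * σ)) :=
        Real.rpow_le_rpow_of_nonpos hNm (by exact_mod_cast h5) (by linarith)
      have h8 := hB n hn'
      gcongr
  refine (Finset.sum_le_sum h3).trans ?_
  rw [Finset.sum_const, Nat.card_Icc, nsmul_eq_mul]
  simp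

/-- the number of pairs of a character and a unit interval in a window of length `H` for which a short
twisted Dirichlet polynomial is large -/
theorem block_fam (hmv : S_HMV) {κ η C0 : ℝ} (hκ : 0 < κ) (hκ1 : κ ≤ 1) (hη : 0 < η) (hC0 : 0 < C0) :
    ∃ m0 : ℕ, ∃ C : ℝ, 0 < C ∧ ∃ T0 : ℝ, 1 ≤ T0 ∧ ∀ T : ℝ, T0 ≤ T → ∀ (q : ℕ) [NeZero q] (H0 : ℝ),
      1 ≤ H0 → q * H0 ≤ T →
      ∀ σ : ℝ, 1 / 2 ≤ σ → σ ≤ 1 → ∀ (b : ArithmeticFunction ℂ) (N : ℕ), T ^ η ≤ N → (N : ℝ) ≤ T ^ κ →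
      (∀ n, b n ≠ 0 → N ≤ n ∧ n ≤ 2 * N) →
      (∀ n : ℕ, 1 ≤ n → ‖b n‖ ≤ (n.divisors.card : ℝ) * (n : ℝ) ^ (-σ)) →
      ∀ V : ℝ, 0 < V → V ≤ 1 → 1 ≤ T ^ κ * V ^ (2 * m0) →
      ∀ (M0 : ℤ) (N0 : ℕ), (N0 : ℝ) ≤ C0 * H0 →
      ∀ S : DirichletCharacter ℂ q → Finset ℤ, (∀ χ, S χ ⊆ Finset.Ico M0 (M0 + N0)) →
      ∀ t : DirichletCharacter ℂ q → ℤ → ℝ,
      (∀ χ, ∀ n ∈ S χ, t χ n ∈ Icc (n : ℝ) (n + 1)) →
      (∀ χ, ∀ n ∈ S χ, V ≤ ‖dp (fun n => tw (pc χ) b n) (2 * N) (t χ n)‖) →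
      (∑ χ, ((S χ).card : ℝ)) ≤ C * (T ^ (7 * κ) * (q * H0) ^ (2 * (1 - σ))) := by
  set m0 : ℕ := ⌈1 / η⌉₊ + 2 with hm0
  have hm01 : 1 ≤ m0 := by omega
  obtain ⟨Cd, hCd1, hCd⟩ := div_bound (ε := κ / (4 * m0)) (by positivity)
  obtain ⟨Cq, hCq1, hCq⟩ := div_bound (ε := κ) hκ
  have ev2 := ev_log (2 + (m0 + 2 : ℝ) ^ 2) κ 2 hκ
  have ev3 := ev_log (1 + (m0 + 2 : ℝ)) κ 1 hκ
  have ev4 : ∀ᶠ T : ℝ in atTop, 2 ≤ T ^ η :=
    (tendsto_rpow_atTop hη).eventually_ge_atTop _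
  have ev6 : ∀ᶠ T : ℝ in atTop, 1 ≤ Real.log T := Real.tendsto_log_atTop.eventually_ge_atTop _
  obtain ⟨T0, hT0⟩ := Filter.eventually_atTop.1 (((ev2.and ev3).and ev4).and
    (ev6.and (eventually_ge_atTop (1 : ℝ))))
  refine ⟨m0, Cq * ((C0 + 8 * 2 ^ m0) * 2 ^ m0 * (Cd ^ (4 * m0) * 2 ^ m0)), by positivity, max T0 1,
    le_max_right _ _, ?_⟩
  intro T hT q _ H0 hH01 hqHT σ hσ1 hσ2 b N hNlarge hNZ hbs hbn V hV0 hV1 hVm0 M0 N0 hN0 S hS t ht hlarge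
  obtain ⟨⟨⟨e2, e3⟩, e4⟩, ⟨e6, e7⟩⟩ := hT0 T ((le_max_left _ _).trans hT)
  have hTpos : 0 < T := by linarith
  have hq1 : 1 ≤ q := Nat.one_le_iff_ne_zero.2 (NeZero.ne q)
  have hqr : (1 : ℝ) ≤ q := by exact_mod_cast hq1
  obtain ⟨H, hHdef⟩ : ∃ H : ℝ, H = q * H0 := ⟨_, rfl⟩
  rw [← hHdef] at hqHT ⊢
  have hHT : H ≤ T := hqHT
  have hH1 : 1 ≤ H := by rw [hHdef]; nlinarith
  have hHpos : 0 < H := by linarith
  have hqT : (q : ℝ) ≤ T := by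
    have : (q : ℝ) ≤ H := by rw [hHdef]; nlinarith
    linarith
  have hNr2 : (2 : ℝ) ≤ N := e4.trans hNlarge
  have hNr : (1 : ℝ) ≤ N := by linarith
  have hN1 : 1 ≤ N := by exact_mod_cast hNr
  have hlogN : η * Real.log T ≤ Real.log N := by
    rw [← Real.log_rpow hTpos]
    exact Real.log_le_log (by positivity) hNlarge
  have hlogNpos : 0 < Real.log N := lt_of_lt_of_le (by positivity) hlogN
  have hlogH0 : 0 ≤ Real.log H := Real.log_nonneg hH1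
  have hlogHT : Real.log H ≤ Real.log T := Real.log_le_log hHpos hHT
  -- the power
  set m : ℕ := ⌈Real.log H / Real.log N⌉₊ with hm
  have hm1 : Real.log H / Real.log N ≤ m := Nat.le_ceil _
  have hm2 : (m : ℝ) ≤ Real.log H / Real.log N + 1 :=
    (Nat.ceil_lt_add_one (by positivity)).le
  have hmm0 : m ≤ m0 := by
    have h1 : Real.log H / Real.log N ≤ 1 / η := by
      rw [div_le_div_iff₀ hlogNpos hη]
      nlinarith
    rw [hm, hm0]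
    exact (Nat.ceil_le_ceil h1).trans (by omega)
  have hNm1 : H ≤ (N : ℝ) ^ m := by
    rw [div_le_iff₀ hlogNpos] at hm1
    calc H = Real.exp (Real.log H) := (Real.exp_log hHpos).symm
      _ ≤ Real.exp (m * Real.log N) := Real.exp_le_exp.2 hm1
      _ = (N : ℝ) ^ m := by rw [Real.exp_nat_mul, Real.exp_log (by linarith)]
  have hNm2 : (N : ℝ) ^ m ≤ H * N := by
    calc (N : ℝ) ^ m = Real.exp (m * Real.log N) := by
          rw [Real.exp_nat_mul, Real.exp_log (by linarith)]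
      _ ≤ Real.exp ((Real.log H / Real.log N + 1) * Real.log N) := by
          apply Real.exp_le_exp.2; gcongr
      _ = H * N := by
          rw [add_mul, one_mul, div_mul_cancel₀ _ hlogNpos.ne', Real.exp_add, Real.exp_log hHpos,
            Real.exp_log (by linarith)]
  -- size of Y^m
  set Ym : ℝ := (((2 * N) ^ m : ℕ) : ℝ) with hYm
  have hYm_eq : Ym = 2 ^ m * (N : ℝ) ^ m := by rw [hYm]; push_cast; rw [mul_pow]
  have hYm1 : 1 ≤ Ym := by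
    rw [hYm_eq]
    have h1 : (1 : ℝ) ≤ 2 ^ m := one_le_pow₀ (by norm_num)
    have h2 : (1 : ℝ) ≤ (N : ℝ) ^ m := one_le_pow₀ hNr
    nlinarith
  have h2m : (2 : ℝ) ^ m ≤ 2 ^ m0 := pow_le_pow_right₀ (by norm_num) hmm0
  have hYmH : Ym ≤ 2 ^ m0 * (H * T ^ κ) := by
    rw [hYm_eq]
    calc (2 : ℝ) ^ m * (N : ℝ) ^ m ≤ 2 ^ m0 * (H * N) := by gcongr
      _ ≤ 2 ^ m0 * (H * T ^ κ) := by gcongr
  have hYm2 : Ym ≤ 2 ^ m0 * T ^ (1 + κ) := by
    rw [Real.rpow_add hTpos, Real.rpow_one]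
    refine hYmH.trans ?_
    gcongr
  have hlogYm : Real.log Ym ≤ (m0 + 2) * Real.log T := by
    calc Real.log Ym ≤ Real.log (2 ^ m0 * T ^ (1 + κ)) := Real.log_le_log (by linarith) hYm2
      _ = m0 * Real.log 2 + (1 + κ) * Real.log T := by
          rw [Real.log_mul (by positivity) (by positivity), Real.log_pow, Real.log_rpow hTpos]
      _ ≤ (m0 + 2) * Real.log T := by
          have h1 : Real.log 2 ≤ 1 := by have := Real.log_two_lt_d9; linarith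
          have h2 : (m0 : ℝ) * Real.log 2 ≤ m0 * Real.log T :=
            mul_le_mul_of_nonneg_left (h1.trans e6) (by positivity)
          nlinarith
  have hlogYm0 : 0 ≤ Real.log Ym := Real.log_nonneg hYm1
  have hP2 : 2 + Real.log Ym ^ 2 ≤ T ^ κ := by
    refine le_trans ?_ e2
    have h1 : Real.log Ym ^ 2 ≤ ((m0 + 2) * Real.log T) ^ 2 := by gcongr
    have h2 : (1 : ℝ) ≤ Real.log T ^ 2 := one_le_pow₀ e6
    rw [mul_pow] at h1
    nlinarith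
  have hP3 : 1 + Real.log Ym ≤ T ^ κ := by
    refine le_trans ?_ e3
    rw [pow_one]
    nlinarith
  -- the divisor bound
  set B : ℝ := Cd ^ (4 * m0) * Ym ^ κ with hB
  have hB0 : 0 ≤ B := by positivity
  have hBn : ∀ n ∈ Finset.Icc 1 ((2 * N) ^ m), (n.divisors.card : ℝ) ^ (4 * m) ≤ B := by
    intro n hn
    rw [Finset.mem_Icc] at hn
    have hnr : (1 : ℝ) ≤ n := by exact_mod_cast hn.1
    have h1 := hCd n hn.1
    have hx1 : 1 ≤ Cd * (n : ℝ) ^ (κ / (4 * m0)) := by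
      have : 1 ≤ (n : ℝ) ^ (κ / (4 * m0)) := Real.one_le_rpow hnr (by positivity)
      nlinarith
    calc (n.divisors.card : ℝ) ^ (4 * m) ≤ (Cd * (n : ℝ) ^ (κ / (4 * m0))) ^ (4 * m) := by gcongr
      _ ≤ (Cd * (n : ℝ) ^ (κ / (4 * m0))) ^ (4 * m0) := pow_le_pow_right₀ hx1 (by omega)
      _ = Cd ^ (4 * m0) * (n : ℝ) ^ κ := by
          rw [mul_pow, ← Real.rpow_natCast ((n : ℝ) ^ (κ / (4 * m0))), ← Real.rpow_mul (by positivity)]
          congr 2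
          push_cast
          field_simp
      _ ≤ B := by
          rw [hB]
          have : (n : ℝ) ≤ Ym := by rw [hYm]; exact_mod_cast hn.2
          gcongr
  -- apply the large values estimate
  have hlv := large_fam hmv (b := b) (N := N) (Y := 2 * N) (m := m) (M0 := M0) (N0 := N0) (σ := σ)
    (V := V) (B := B) hN1 (by linarith) hV0.le hbs hbn hBn hB0 S hS t ht hlarge
  rw [← hYm] at hlv
  -- V
  have hVm : 1 ≤ T ^ κ * V ^ (2 * m) := by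
    refine hVm0.trans ?_
    have : V ^ (2 * m0) ≤ V ^ (2 * m) := pow_le_pow_of_le_one hV0.le hV1 (by omega)
    gcongr
  -- first factor
  have hYB : Ym * ((((N ^ m : ℕ) : ℝ)) ^ (-(2 * σ)) * B) ≤
      2 ^ m0 * H ^ (1 - 2 * σ) * (Cd ^ (4 * m0) * (2 ^ m0 * T ^ (2 * κ))) := by
    have h1 : Ym * (((N ^ m : ℕ) : ℝ)) ^ (-(2 * σ)) ≤ 2 ^ m0 * H ^ (1 - 2 * σ) := by
      rw [hYm_eq]
      push_cast
      have hNm0 : 0 < (N : ℝ) ^ m := by positivity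
      have h2 : (N : ℝ) ^ m * ((N : ℝ) ^ m) ^ (-(2 * σ)) = ((N : ℝ) ^ m) ^ (1 - 2 * σ) := by
        rw [sub_eq_add_neg, Real.rpow_add hNm0, Real.rpow_one]
      calc 2 ^ m * (N : ℝ) ^ m * ((N : ℝ) ^ m) ^ (-(2 * σ))
          = 2 ^ m * ((N : ℝ) ^ m) ^ (1 - 2 * σ) := by rw [mul_assoc, h2]
        _ ≤ 2 ^ m0 * H ^ (1 - 2 * σ) := by
            have h3 := Real.rpow_le_rpow_of_nonpos hHpos hNm1 (show 1 - 2 * σ ≤ 0 by linarith)
            gcongr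
    have h4 : B ≤ Cd ^ (4 * m0) * (2 ^ m0 * T ^ (2 * κ)) := by
      rw [hB]
      have h5 : Ym ^ κ ≤ 2 ^ m0 * T ^ (2 * κ) := by
        calc Ym ^ κ ≤ (2 ^ m0 * T ^ (1 + κ)) ^ κ := by gcongr
          _ = (2 ^ m0) ^ κ * T ^ ((1 + κ) * κ) := by
              rw [Real.mul_rpow (by positivity) (by positivity), ← Real.rpow_mul hTpos.le]
          _ ≤ 2 ^ m0 * T ^ (2 * κ) := by
              have h6 : ((2 : ℝ) ^ m0) ^ κ ≤ 2 ^ m0 := by
                have : (1 : ℝ) ≤ 2 ^ m0 := one_le_pow₀ (by norm_num)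
                calc ((2 : ℝ) ^ m0) ^ κ ≤ ((2 : ℝ) ^ m0) ^ (1 : ℝ) :=
                      Real.rpow_le_rpow_of_exponent_le this hκ1
                  _ = _ := Real.rpow_one _
              have h7 : T ^ ((1 + κ) * κ) ≤ T ^ (2 * κ) :=
                Real.rpow_le_rpow_of_exponent_le e7 (by nlinarith)
              gcongr
      gcongr
    calc Ym * ((((N ^ m : ℕ) : ℝ)) ^ (-(2 * σ)) * B) =
          (Ym * (((N ^ m : ℕ) : ℝ)) ^ (-(2 * σ))) * B := by ring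
      _ ≤ _ := by gcongr
  -- second factor
  have hTκ1 : 1 ≤ T ^ (2 * κ) := Real.one_le_rpow e7 (by positivity)
  have hN0Y : (q : ℝ) * N0 + 8 * Ym * (1 + Real.log Ym) ≤ (C0 + 8 * 2 ^ m0) * (H * T ^ (2 * κ)) := by
    have h1 : 8 * Ym * (1 + Real.log Ym) ≤ 8 * (2 ^ m0 * (H * T ^ κ)) * T ^ κ := by gcongr
    have h2 : 8 * (2 ^ m0 * (H * T ^ κ)) * T ^ κ = 8 * 2 ^ m0 * (H * (T ^ κ * T ^ κ)) := by ring
    have h3 : T ^ κ * T ^ κ = T ^ (2 * κ) := by rw [← Real.rpow_add hTpos]; congr 1; ring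
    rw [h2, h3] at h1
    have h4 : C0 * H ≤ C0 * (H * T ^ (2 * κ)) := by
      have : H ≤ H * T ^ (2 * κ) := le_mul_of_one_le_right hHpos.le hTκ1
      gcongr
    have h5 : (q : ℝ) * N0 ≤ C0 * H := by
      rw [hHdef]
      calc (q : ℝ) * N0 ≤ q * (C0 * H0) := by gcongr
        _ = _ := by ring
    linarith
  have hqd : (q.divisors.card : ℝ) ≤ Cq * T ^ κ := by
    refine (hCq q hq1).trans ?_
    gcongr
  -- conclusion
  obtain ⟨X, hX⟩ : ∃ X : ℝ, X = ∑ χ, ((S χ).card : ℝ) := ⟨_, rfl⟩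
  rw [← hX] at hlv ⊢
  have hX0 : 0 ≤ X := by rw [hX]; exact Finset.sum_nonneg fun χ _ => Nat.cast_nonneg _
  have hcard : X ≤ T ^ κ * (X * V ^ (2 * m)) := by
    calc X = X * 1 := (mul_one _).symm
      _ ≤ X * (T ^ κ * V ^ (2 * m)) := by gcongr
      _ = _ := by ring
  have hfin : q.divisors.card * (2 + Real.log Ym ^ 2) * (q * N0 + 8 * Ym * (1 + Real.log Ym)) *
        (Ym * ((((N ^ m : ℕ) : ℝ)) ^ (-(2 * σ)) * B)) ≤
      (Cq * T ^ κ) * T ^ κ * ((C0 + 8 * 2 ^ m0) * (H * T ^ (2 * κ))) *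
        (2 ^ m0 * H ^ (1 - 2 * σ) * (Cd ^ (4 * m0) * (2 ^ m0 * T ^ (2 * κ)))) := by
    have h0 : 0 ≤ (q : ℝ) * N0 + 8 * Ym * (1 + Real.log Ym) := by positivity
    have h00 : 0 ≤ Ym * ((((N ^ m : ℕ) : ℝ)) ^ (-(2 * σ)) * B) := by positivity
    gcongr
  calc X ≤ T ^ κ * (X * V ^ (2 * m)) := hcard
    _ ≤ T ^ κ * ((Cq * T ^ κ) * T ^ κ * ((C0 + 8 * 2 ^ m0) * (H * T ^ (2 * κ))) *
        (2 ^ m0 * H ^ (1 - 2 * σ) * (Cd ^ (4 * m0) * (2 ^ m0 * T ^ (2 * κ))))) := by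
        exact mul_le_mul_of_nonneg_left (hlv.trans hfin) (by positivity)
    _ = Cq * ((C0 + 8 * 2 ^ m0) * 2 ^ m0 * (Cd ^ (4 * m0) * 2 ^ m0)) *
        ((T ^ κ * T ^ κ * T ^ κ * T ^ (2 * κ) * T ^ (2 * κ)) * (H * H ^ (1 - 2 * σ))) := by ring
    _ = _ := by
        rw [← Real.rpow_add hTpos, ← Real.rpow_add hTpos, ← Real.rpow_add hTpos,
          ← Real.rpow_add hTpos]
        have h8 : H * H ^ (1 - 2 * σ) = H ^ (2 * (1 - σ)) := by
          nth_rewrite 1 [← Real.rpow_one H]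
          rw [← Real.rpow_add hHpos]
          congr 1
          ring
        rw [h8]
        congr 3
        ring

end Pool.Agent.K9h52.HY
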