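import Pool.Agent.K9h52.HY.Det
import Pool.Agent.K9h52.HY.LVF

/-!
The number of pairs of a character and a unit interval that contains the height of a good centre.
-/

open Complex Metric MeasureTheory Set Filter Topology

namespace Pool.Agent.K9h52.HY

open DH31 DX GX

variable {Φ : ℝ → ℝ}

lemma bg_tw (u : ℕ → ℂ) (β : ℕ → ℂ) (X Z j : ℕ) :
    bg (fun n => β n * u n) X Z j = tw u (bg β X Z j) := by
  ext n
  rw [tw_apply, bg_apply, bg_apply]
  split_ifs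
  · rfl
  · rw [zero_mul]

set_option maxHeartbeats 1000000 in
theorem det_fam (hmv : S_HMV) (hΦ : ∀ κ, 0 < Φ κ) {a b : ArithmeticFunction ℂ} (ha : SU Φ a)
    (hb : SU Φ b) {κ δ C0 ς : ℝ} (hκ : 0 < κ) (hκ1 : κ ≤ 1)
    (hδ : 0 < δ) (hδ1 : δ ≤ 1 / 4) (hς : 0 < ς) (hς1 : ς ≤ 1) (hC0 : 0 < C0) :
    ∃ C : ℝ, 0 < C ∧ ∃ T0 : ℝ, 1 ≤ T0 ∧ ∀ T : ℝ, T0 ≤ T → ∀ (q : ℕ) [NeZero q] (H : ℝ), 1 ≤ H →
      q * H ≤ T → ∀ σ : ℝ, 1 / 2 ≤ σ - ς → σ - ς ≤ 1 → ∀ F : DirichletCharacter ℂ q → ℂ → ℂ,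
      (∀ χ, LU Φ (F χ) (tw (pc χ) a) (tw (pc χ) b)) → ∀ (M0 : ℤ) (N0 : ℕ), (N0 : ℝ) ≤ C0 * H →
      ∀ S : DirichletCharacter ℂ q → Finset ℤ, (∀ χ, S χ ⊆ Finset.Ico M0 (M0 + N0)) →
      (∀ χ, ∀ n ∈ S χ, ∃ y : ℝ, (n : ℝ) ≤ y ∧ y ≤ n + 1 ∧ ∃ r : ℝ, 0 < r ∧ r ≤ 2 - σ ∧ ∃ ρ : ℂ,
        F χ ρ = 0 ∧ ‖ρ - ⟨2, y⟩‖ ≤ r ∧
        ∀ z ∈ closedBall (⟨2, y⟩ : ℂ) (r + δ), ‖F χ z‖ ≤ T ^ (κ / 200 * δ)) →
      (∑ χ, ((S χ).card : ℝ)) ≤ C * (T ^ (8 * κ) * (q * H) ^ (2 * (1 - (σ - ς)))) := by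
  set η : ℝ := κ / 200 * δ with hη'
  have hη : 0 < η := by positivity
  obtain ⟨T1, hT1, hdet⟩ := detect hΦ hδ hδ1 hη
  obtain ⟨D, hD1, hD⟩ := cX_boundU hς hΦ
  have hD0 : 0 < D := by linarith
  obtain ⟨m0, C, hC, T2, hT2, hblock⟩ := block_fam hmv hκ hκ1 (η := κ / 200 * δ / 2) (by positivity) hC0
  obtain ⟨p, hp⟩ : ∃ p : ℕ, p = 16 := ⟨16, rfl⟩
  have hpr : (p : ℝ) = 16 := by rw [hp]; norm_num
  have ev1 := ev_log ((p + 1) * (6 * η / δ + 2) ^ 2) κ 2 hκ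
  have ev2 : ∀ᶠ T : ℝ in atTop, 1 ≤ Real.log T := Real.tendsto_log_atTop.eventually_ge_atTop _
  have ev3 := ev_log ((2 * D * (p + 1) * (6 * η / δ + 2) ^ 2) ^ (2 * m0)) κ (4 * m0) hκ
  have ev4 : ∀ᶠ T : ℝ in atTop, Real.exp (2 * p) ≤ T ^ (κ / 2) :=
    (tendsto_rpow_atTop (show 0 < κ / 2 by positivity)).eventually_ge_atTop _
  have ev5 : ∀ᶠ T : ℝ in atTop, 2 ≤ T ^ (η / 2) :=
    (tendsto_rpow_atTop (show 0 < η / 2 by positivity)).eventually_ge_atTop _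
  obtain ⟨T3, hT3⟩ := Filter.eventually_atTop.1 ((ev1.and ev2).and ((ev3.and ev4).and ev5))
  refine ⟨C, hC, max (max T1 T2) T3, (hT1.trans (le_max_left _ _)).trans (le_max_left _ _), ?_⟩
  intro T hT q _ H hH1 hqHT σ hσ1 hσ2 F hF M0 N0 hN0 S hSM hS
  have hσ22 : σ ≤ 2 := by linarith
  have hTT1 : T1 ≤ T := (le_max_left _ _).trans ((le_max_left _ _).trans hT)
  have hTT2 : T2 ≤ T := (le_max_right _ _).trans ((le_max_left _ _).trans hT)
  obtain ⟨⟨e1, e2⟩, ⟨⟨e3, e4⟩, e5⟩⟩ := hT3 T ((le_max_right _ _).trans hT)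
  have hT1' : 1 ≤ T := hT1.trans hTT1
  have hTpos : 0 < T := by linarith
  have hq1 : 1 ≤ q := Nat.one_le_iff_ne_zero.2 (NeZero.ne q)
  have hqr : (1 : ℝ) ≤ q := by exact_mod_cast hq1
  choose! y hy1 hy2 r hr0 hr ρ hρ hρr hbd0 using hS
  set K := KK δ η T with hK
  have hK1 : 1 ≤ K := by rw [hK]; unfold KK; omega
  have hK1r : (1 : ℝ) ≤ K := by exact_mod_cast hK1
  have hKle : (K : ℝ) ≤ (6 * η / δ + 2) * Real.log T := KK_le hδ hη e2
  set X := ⌊T ^ η⌋₊ with hX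
  set Z := 2 ^ (p * K) with hZ
  have hZJ : Z < 2 ^ ((p + 1) * K) := by
    rw [hZ]
    exact Nat.pow_lt_pow_right (by norm_num) (by nlinarith)
  -- Z is small
  have hZsmall : (Z : ℝ) ≤ T ^ κ := by
    have h1 : (Z : ℝ) ≤ Real.exp (p * K) := by
      rw [hZ]
      push_cast
      have h2 : (2 : ℝ) ≤ Real.exp 1 := by
        have h3 : (2.7182818283 : ℝ) ≤ Real.exp 1 := Real.exp_one_gt_d9.le
        linarith
      calc (2 : ℝ) ^ (p * K) ≤ (Real.exp 1) ^ (p * K) := by gcongr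
        _ = Real.exp (p * K) := by rw [← Real.exp_nat_mul]; push_cast; ring_nf
    have h5 : (K : ℝ) ≤ 6 * η / δ * Real.log T + 2 := by
      have h1 := (Nat.ceil_lt_add_one (show 0 ≤ 6 * η / δ * Real.log T by positivity)).le
      rw [hK]; unfold KK; push_cast; linarith
    have h60 : 6 * η / δ = 3 * κ / 100 := by rw [hη']; field_simp; ring
    have h6 : p * (K : ℝ) ≤ κ / 2 * Real.log T + 2 * p := by
      rw [h60] at h5
      rw [hpr]
      nlinarith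
    calc (Z : ℝ) ≤ Real.exp (p * K) := h1
      _ ≤ Real.exp (κ / 2 * Real.log T + 2 * p) := Real.exp_le_exp.2 h6
      _ = T ^ (κ / 2) * Real.exp (2 * p) := by
        rw [Real.exp_add, Real.rpow_def_of_pos hTpos, mul_comm (κ / 2)]
      _ ≤ T ^ (κ / 2) * T ^ (κ / 2) := by gcongr
      _ = T ^ κ := by rw [← Real.rpow_add hTpos]; congr 1; ring
  classical
  set V : ℝ := 1 / (2 * D * (p + 1) * (K : ℝ) ^ 2) with hV
  have hVpos : 0 < V := by positivity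
  have hVle : V ≤ 1 := by
    rw [hV, div_le_one (by positivity)]
    have a1 : (0 : ℝ) ≤ p := by positivity
    have a2 : (1 : ℝ) ≤ (K : ℝ) ^ 2 := one_le_pow₀ hK1r
    have a3 : (1 : ℝ) ≤ D * (p + 1) := by nlinarith
    have a4 : (1 : ℝ) ≤ D * (p + 1) * (K : ℝ) ^ 2 := one_le_mul_of_one_le_of_one_le a3 a2
    linarith
  have hVm : 1 ≤ T ^ κ * V ^ (2 * m0) := by
    have h1 : 1 / V = 2 * D * (p + 1) * (K : ℝ) ^ 2 := by rw [hV]; field_simp
    have h2 : (1 / V) ^ (2 * m0) ≤ T ^ κ := by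
      rw [h1]
      refine le_trans ?_ e3
      calc (2 * D * ((p : ℝ) + 1) * (K : ℝ) ^ 2) ^ (2 * m0) ≤
            (2 * D * ((p : ℝ) + 1) * ((6 * η / δ + 2) * Real.log T) ^ 2) ^ (2 * m0) := by gcongr
        _ = (2 * D * (p + 1) * (6 * η / δ + 2) ^ 2) ^ (2 * m0) * Real.log T ^ (4 * m0) := by
            rw [mul_pow (6 * η / δ + 2), ← mul_assoc, mul_pow, ← pow_mul]
            congr 2
            ring
    rw [one_div, inv_pow] at h2
    have h3 : 0 < V ^ (2 * m0) := by positivity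
    rwa [inv_le_iff_one_le_mul₀ h3] at h2
  -- the pieces
  obtain ⟨β, hβ⟩ : ∃ β : ℕ → ℕ → ℂ, β = fun k n => ((1 / D : ℝ) : ℂ) * bdF a b (2 - σ) k X n :=
    ⟨_, rfl⟩
  have hβn : ∀ k n : ℕ, 1 ≤ n → ‖β k n‖ ≤ (n.divisors.card : ℝ) * (n : ℝ) ^ (-(σ - ς)) := by
    intro k n hn
    rw [hβ]
    exact bdF_norm_le hD0 (hD a b ha hb X) hσ22 hn
  let Skj : ℕ → ℕ → DirichletCharacter ℂ q → Finset ℤ := fun k j χ => (S χ).filter fun n =>
    V ≤ ‖dp (fun n => tw (pc χ) (bg (β k) X Z j) n) (2 * 2 ^ j) (y χ n)‖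
  have hcover : ∀ χ, S χ ⊆ (Finset.range K).biUnion fun k => (Finset.range ((p + 1) * K)).biUnion
      fun j => Skj k j χ := by
    intro χ n hn
    obtain ⟨k, hk, hdk⟩ := hdet (F χ) (tw (pc χ) a) (tw (pc χ) b) (hF χ) T hTT1 (y χ n) (ρ χ n)
      (hρ χ n hn) (r χ n) (2 - σ) (hr0 χ n hn)
      (hr χ n hn) (by linarith) (hρr χ n hn) (hbd0 χ n hn)
    rw [← hp] at hdk
    have hdk' : 1 / (2 * D * (K : ℝ)) ≤ ‖∑ j ∈ Finset.range ((p + 1) * K),
        dp (fun n => tw (pc χ) (bg (β k) X Z j) n) (2 * 2 ^ j) (y χ n)‖ := by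
      have e6 : ∀ j ∈ Finset.range ((p + 1) * K),
          dp (fun n => tw (pc χ) (bg (β k) X Z j) n) (2 * 2 ^ j) (y χ n) =
          dp (fun n => bg (fun n => β k n * pc χ n) X Z j n) (2 * 2 ^ j) (y χ n) := by
        intro j _
        rw [bg_tw]
      rw [Finset.sum_congr rfl e6, ← bg_dyadic hZJ, hβ]
      have hsum : ∑ m ∈ Finset.Ioc X Z, ((1 / D : ℝ) : ℂ) * bdF a b (2 - σ) k X m * pc χ m *
          (m : ℂ) ^ (-(y χ n : ℂ) * I) = ((1 / D : ℝ) : ℂ) * ∑ m ∈ Finset.Ioc X Z,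
          bdF (tw (pc χ) a) (tw (pc χ) b) (2 - σ) k X m * (m : ℂ) ^ (-(y χ n : ℂ) * I) := by
        rw [Finset.mul_sum]
        refine Finset.sum_congr rfl fun m _ => ?_
        rw [bdF_tw (pc_mul χ)]
        ring
      rw [hsum, norm_mul, Complex.norm_real, Real.norm_of_nonneg (by positivity)]
      calc 1 / (2 * D * (K : ℝ)) = 1 / D * (1 / (2 * (K : ℝ))) := by field_simp
        _ ≤ _ := mul_le_mul_of_nonneg_left hdk (by positivity)
    have hex : ∃ j < (p + 1) * K, V ≤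
        ‖dp (fun n => tw (pc χ) (bg (β k) X Z j) n) (2 * 2 ^ j) (y χ n)‖ := by
      by_contra hcon
      push Not at hcon
      have h8 : ‖∑ j ∈ Finset.range ((p + 1) * K),
        dp (fun n => tw (pc χ) (bg (β k) X Z j) n) (2 * 2 ^ j) (y χ n)‖ < 1 / (2 * D * (K : ℝ)) := by
        calc _ ≤ ∑ j ∈ Finset.range ((p + 1) * K),
              ‖dp (fun n => tw (pc χ) (bg (β k) X Z j) n) (2 * 2 ^ j) (y χ n)‖ := norm_sum_le _ _
          _ < ∑ j ∈ Finset.range ((p + 1) * K), V := by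
            refine Finset.sum_lt_sum_of_nonempty
              ⟨0, Finset.mem_range.2 (Nat.mul_pos (by omega) (by omega))⟩ fun j hj => ?_
            exact hcon j (Finset.mem_range.1 hj)
          _ = 1 / (2 * D * (K : ℝ)) := by
            rw [Finset.sum_const, Finset.card_range, nsmul_eq_mul, hV]
            push_cast
            have : (K : ℝ) ≠ 0 := by positivity
            field_simp
      linarith
    obtain ⟨j, hj, hdj⟩ := hex
    simp only [Finset.mem_biUnion, Finset.mem_range]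
    exact ⟨k, hk, j, hj, Finset.mem_filter.2 ⟨hn, hdj⟩⟩
  obtain ⟨E, hE⟩ : ∃ E : ℝ, E = T ^ (7 * κ) * (q * H) ^ (2 * (1 - (σ - ς))) := ⟨_, rfl⟩
  have hqH0 : 0 < (q : ℝ) * H := by positivity
  have hE0 : 0 ≤ E := by rw [hE]; positivity
  have hbd : ∀ k j, (∑ χ, ((Skj k j χ).card : ℝ)) ≤ C * E := by
    intro k j
    by_cases hemp : ∀ χ, Skj k j χ = ∅
    · have : (∑ χ, ((Skj k j χ).card : ℝ)) = 0 :=
        Finset.sum_eq_zero fun χ _ => by rw [hemp χ, Finset.card_empty, Nat.cast_zero]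
      rw [this]
      positivity
    push Not at hemp
    obtain ⟨χ0, hχ0⟩ := hemp
    obtain ⟨n0, hn0⟩ := hχ0
    -- there is a nonzero coefficient
    have hne : ∃ n, bg (β k) X Z j n ≠ 0 := by
      by_contra hcon
      push Not at hcon
      have h1 := (Finset.mem_filter.1 hn0).2
      unfold dp at h1
      simp only [tw_apply, hcon, zero_mul, Finset.sum_const_zero, norm_zero] at h1
      linarith
    obtain ⟨n1, hn1⟩ := hne
    have hn1s := bg_support n1 hn1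
    have hn1i : X < n1 ∧ n1 ≤ Z := by
      rw [bg_apply] at hn1
      by_contra hcon
      apply hn1
      rw [if_neg]
      rw [Finset.mem_Ioc]
      tauto
    rw [hE]
    refine hblock T hTT2 q H hH1 hqHT (σ - ς) hσ1 hσ2 (bg (β k) X Z j) (2 ^ j) ?_ ?_
      bg_support (bg_norm_le (hβn k)) V hVpos hVle hVm M0 N0 hN0 (Skj k j)
      (fun χ => (Finset.filter_subset _ _).trans (hSM χ)) y ?_ ?_
    · have h1 : T ^ η < X + 1 := Nat.lt_floor_add_one _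
      have h2 : (X : ℝ) + 1 ≤ 2 * ((2 ^ j : ℕ) : ℝ) := by
        have : X + 1 ≤ 2 * 2 ^ j := by omega
        exact_mod_cast this
      have h3 : T ^ η = T ^ (η / 2) * T ^ (η / 2) := by
        rw [← Real.rpow_add hTpos]; congr 1; ring
      have h4 : 2 * T ^ (η / 2) ≤ T ^ (η / 2) * T ^ (η / 2) := by gcongr
      linarith
    · refine le_trans ?_ hZsmall
      have : 2 ^ j ≤ Z := hn1s.1.trans hn1i.2
      exact_mod_cast this
    · intro χ n hn
      have := (Finset.mem_filter.1 hn).1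
      exact ⟨hy1 χ n this, hy2 χ n this⟩
    · intro χ n hn
      exact (Finset.mem_filter.1 hn).2
  have hcard : (∑ χ, ((S χ).card : ℝ)) ≤ (K : ℝ) * (((p + 1) * K : ℕ) * (C * E)) := by
    calc (∑ χ, ((S χ).card : ℝ)) ≤ ∑ χ, ∑ k ∈ Finset.range K, ∑ j ∈ Finset.range ((p + 1) * K),
          ((Skj k j χ).card : ℝ) := by
          refine Finset.sum_le_sum fun χ _ => ?_
          have h1 : (S χ).card ≤ ∑ k ∈ Finset.range K, ∑ j ∈ Finset.range ((p + 1) * K),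
              (Skj k j χ).card :=
            (Finset.card_le_card (hcover χ)).trans ((Finset.card_biUnion_le).trans
              (Finset.sum_le_sum fun k _ => Finset.card_biUnion_le))
          exact_mod_cast h1
      _ = ∑ k ∈ Finset.range K, ∑ j ∈ Finset.range ((p + 1) * K), ∑ χ, ((Skj k j χ).card : ℝ) := by
          rw [Finset.sum_comm]
          refine Finset.sum_congr rfl fun k _ => ?_
          rw [Finset.sum_comm]
      _ ≤ ∑ k ∈ Finset.range K, ∑ j ∈ Finset.range ((p + 1) * K), C * E :=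
          Finset.sum_le_sum fun k _ => Finset.sum_le_sum fun j _ => hbd k j
      _ = _ := by
          rw [Finset.sum_const, Finset.sum_const, Finset.card_range, Finset.card_range,
            nsmul_eq_mul, nsmul_eq_mul]
  have hK2 : (p + 1) * (K : ℝ) ^ 2 ≤ T ^ κ := by
    refine le_trans ?_ e1
    calc (p + 1) * (K : ℝ) ^ 2 ≤ (p + 1) * ((6 * η / δ + 2) * Real.log T) ^ 2 := by gcongr
      _ = _ := by ring
  calc (∑ χ, ((S χ).card : ℝ)) ≤ (K : ℝ) * (((p + 1) * K : ℕ) * (C * E)) := hcard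
    _ = ((p + 1) * (K : ℝ) ^ 2) * (C * E) := by push_cast; ring
    _ ≤ T ^ κ * (C * E) := by gcongr
    _ = C * ((T ^ κ * T ^ (7 * κ)) * (q * H) ^ (2 * (1 - (σ - ς)))) := by rw [hE]; ring
    _ = _ := by
        rw [← Real.rpow_add hTpos]
        congr 3
        ring

end Pool.Agent.K9h52.HY
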