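import Pool.Agent.K9h52.HY.Scale

/-!
Near every zero there is a centre at which `F` is small in the disc, or an extremal cluster.
-/

open Complex Metric Set Filter Topology

namespace Pool.Agent.K9h52.HY

open H370 H370.Loc DH31 DX

variable {F : ℂ → ℂ} {A₀ : ℝ}

/-- the zeros to the right of the edge -/
lemma EZ.region_count (hF : EZ A₀ F) {y R τ τ' B x : ℝ} (hR : R ≤ 8 / 5) (hτ : 0 < τ) (hτ' : 0 ≤ τ')
    (hττ : τ' ≤ τ / 2) (hB : 0 < B)
    (hx : ∀ y' : ℝ, |y' - y| ≤ B + 1 → (cntF F (ZdF F ⟨2, y'⟩ (R - τ')) : ℝ) ≤ x) :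
    (cntF F {s : ℂ | F s = 0 ∧ 2 - R + τ ≤ s.re ∧ |s.im - y| ≤ B} : ℝ) ≤
      (2 * (⌈B / τ⌉₊ + 1) + 1) * x := by
  classical
  set J : ℕ := ⌈B / τ⌉₊ with hJ
  have hx0 : 0 ≤ x := le_trans (by positivity) (hx y (by rw [sub_self, abs_zero]; positivity))
  have key : cntF F {s : ℂ | F s = 0 ∧ 2 - R + τ ≤ s.re ∧ |s.im - y| ≤ B} ≤
      ∑ j ∈ (Finset.Icc (-((J : ℤ) + 1)) ((J : ℤ) + 1)).filter (fun j : ℤ => |(j : ℝ) * τ| ≤ B + 1),
        cntF F (ZdF F ⟨2, y + j * τ⟩ (R - τ')) := by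
    refine cntF_le_sum (hF.region_finite _ _ _) _ (fun j : ℤ => ZdF F ⟨2, y + j * τ⟩ (R - τ'))
      (fun j => hF.Zd_finite _ _) ?_
    rintro s ⟨h1, h2, h3⟩
    have hre : s.re ≤ 1 := hF.re_le h1
    have hτ1 : τ ≤ 1 := by linarith
    set t : ℝ := s.im - y with ht
    have hfl1 : (⌊t / τ⌋ : ℝ) * τ ≤ t := by
      have := Int.floor_le (t / τ)
      calc (⌊t / τ⌋ : ℝ) * τ ≤ t / τ * τ := by gcongr
        _ = t := by field_simp
    have hfl2 : t < (⌊t / τ⌋ : ℝ) * τ + τ := by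
      have := Int.lt_floor_add_one (t / τ)
      calc t = t / τ * τ := by field_simp
        _ < (⌊t / τ⌋ + 1) * τ := by gcongr
        _ = _ := by ring
    have habs := abs_le.1 h3
    refine ⟨⌊t / τ⌋, ?_, h1, ?_⟩
    · rw [Finset.mem_filter, Finset.mem_Icc]
      have hBτ : B / τ ≤ J := Nat.le_ceil _
      have ht1 : t / τ ≤ B / τ := by gcongr; exact habs.2
      have ht2 : -(B / τ) ≤ t / τ := by
        rw [← neg_div]; gcongr; exact habs.1
      refine ⟨⟨?_, ?_⟩, ?_⟩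
      · have h5 : (-((J : ℝ) + 1)) < (⌊t / τ⌋ : ℝ) + 0 := by
          have := Int.lt_floor_add_one (t / τ)
          linarith
        have h6 : ((-((J : ℤ) + 1) : ℤ) : ℝ) < ((⌊t / τ⌋ : ℤ) : ℝ) := by push_cast; linarith
        exact (Int.cast_lt.1 h6).le
      · have h5 : (⌊t / τ⌋ : ℝ) ≤ J := (Int.floor_le (t / τ)).trans (ht1.trans hBτ)
        have h6 : ((⌊t / τ⌋ : ℤ) : ℝ) ≤ (((J : ℤ)) : ℝ) := by push_cast; exact h5
        have := Int.cast_le.1 h6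
        omega
      · rw [abs_le]
        constructor
        · linarith [habs.1]
        · linarith [habs.2]
    · have h4 : ‖s - ⟨2, y + ⌊t / τ⌋ * τ⟩‖ ^ 2 ≤ (R - τ') ^ 2 := by
        rw [← Complex.normSq_eq_norm_sq, Complex.normSq_apply]
        simp only [Complex.sub_re, Complex.sub_im]
        set e : ℝ := t - ⌊t / τ⌋ * τ with he
        have he0 : 0 ≤ e := by rw [he]; linarith
        have heτ : e ≤ τ := by rw [he]; linarith
        have h5 : s.im - (y + ⌊t / τ⌋ * τ) = e := by rw [he, ht]; ring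
        rw [h5]
        have h6 : 0 ≤ 2 - s.re := by linarith
        have h7 : 2 - s.re ≤ R - τ := by linarith
        have h8 : (2 - s.re) ^ 2 ≤ (R - τ) ^ 2 := by gcongr
        have h9 : e ^ 2 ≤ τ * τ := by nlinarith
        have h10 : τ * τ ≤ τ * 1 := by gcongr
        have h11 : (R - τ) ^ 2 + τ ≤ (R - τ') ^ 2 := by
          have h12 : (R - τ') ^ 2 - (R - τ) ^ 2 = (τ - τ') * (2 * (R - τ) + (τ - τ')) := by ring
          have h13 : τ / 2 * 2 ≤ (τ - τ') * (2 * (R - τ) + (τ - τ')) := by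
            apply mul_le_mul <;> linarith
          linarith
        nlinarith
      have h5 : 0 ≤ R - τ' := by linarith
      exact le_of_sq_le_sq h4 h5
  have h1 : ((∑ j ∈ (Finset.Icc (-((J : ℤ) + 1)) ((J : ℤ) + 1)).filter (fun j : ℤ => |(j : ℝ) * τ| ≤ B + 1),
        cntF F (ZdF F ⟨2, y + j * τ⟩ (R - τ')) : ℕ) : ℝ) ≤ (2 * (J + 1) + 1) * x := by
    rw [Nat.cast_sum]
    calc ∑ j ∈ (Finset.Icc (-((J : ℤ) + 1)) ((J : ℤ) + 1)).filter (fun j : ℤ => |(j : ℝ) * τ| ≤ B + 1),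
          ((cntF F (ZdF F ⟨2, y + j * τ⟩ (R - τ')) : ℕ) : ℝ)
        ≤ ∑ j ∈ (Finset.Icc (-((J : ℤ) + 1)) ((J : ℤ) + 1)).filter (fun j : ℤ => |(j : ℝ) * τ| ≤ B + 1), x := by
          refine Finset.sum_le_sum fun j hj => ?_
          have := (Finset.mem_filter.1 hj).2
          exact hx _ (by rwa [add_sub_cancel_left])
      _ = ((Finset.Icc (-((J : ℤ) + 1)) ((J : ℤ) + 1)).filter
            (fun j : ℤ => |(j : ℝ) * τ| ≤ B + 1)).card * x := by
          rw [Finset.sum_const, nsmul_eq_mul]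
      _ ≤ (2 * (J + 1) + 1) * x := by
          have h2 : ((Finset.Icc (-((J : ℤ) + 1)) ((J : ℤ) + 1)).filter
            (fun j : ℤ => |(j : ℝ) * τ| ≤ B + 1)).card ≤ 2 * (J + 1) + 1 := by
            refine (Finset.card_filter_le _ _).trans ?_
            rw [Int.card_Icc]
            omega
          have h3 : (((Finset.Icc (-((J : ℤ) + 1)) ((J : ℤ) + 1)).filter
            (fun j : ℤ => |(j : ℝ) * τ| ≤ B + 1)).card : ℝ) ≤ 2 * (J + 1) + 1 := by
            exact_mod_cast h2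
          gcongr
  refine le_trans ?_ h1
  exact_mod_cast key


/-- few zeros imply small values -/
theorem EZ.light_small (hA1 : 1 ≤ A₀) {δ ν : ℝ} (hδ : 0 < δ) (hδ1 : δ ≤ 1 / 8) (hν : 0 < ν) :
    ∃ η : ℝ, 0 < η ∧ ∃ T0 : ℝ, 1 ≤ T0 ∧ ∀ F : ℂ → ℂ, EZ A₀ F →
      ∀ T : ℝ, T0 ≤ T → ∀ Y : ℝ, Gr F T Y → ∀ y : ℝ, |y| + 2 ≤ Y → ∀ R : ℝ,
      3 / 4 ≤ R → R ≤ 13 / 8 → (cntF F (ZdF F ⟨2, y⟩ R) : ℝ) ≤ η * Real.log T →
      ∀ z ∈ closedBall (⟨2, y⟩ : ℂ) (R - δ), ‖F z‖ ≤ T ^ ν := by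
  obtain ⟨η, hη, T0, hT0, h⟩ := EZ.light hA1 (δ := δ) (ν := ν / 3) hδ hδ1 (by positivity)
  refine ⟨η, hη, T0, hT0, ?_⟩
  intro F hF T hT Y hGr y hy2 R hR1 hR2 hcnt z hz
  have hTpos : 0 < T := by linarith
  obtain ⟨s, g, g1, g2, g3, g4, g5, g6, g7⟩ := h F hF T hT Y hGr y hy2
    R (R + δ) hR1 le_rfl (by linarith) (fun S hS => (hF.Zd_sum_le hS).trans hcnt)
  have hPf : ‖Pf s z‖ ≤ Real.exp (2 * (ν / 3 * Real.log T)) := by
    have h1 : ‖Pf s z‖ ≤ 4 ^ (Multiset.card s) := by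
      refine Pf_norm_le fun ρ' hρ' => ?_
      have h2 := g1 ρ' hρ'
      rw [mem_closedBall, dist_eq_norm] at h2 hz
      calc ‖z - ρ'‖ = ‖(z - ⟨2, y⟩) - (ρ' - ⟨2, y⟩)‖ := by congr 1; ring
        _ ≤ ‖z - ⟨2, y⟩‖ + ‖ρ' - ⟨2, y⟩‖ := norm_sub_le _ _
        _ ≤ 4 := by linarith
    have h4 : Real.log 4 ≤ 2 := by
      have h : Real.log 4 = 2 * Real.log 2 := by
        rw [show (4 : ℝ) = 2 ^ 2 by norm_num, Real.log_pow]; norm_num
      rw [h]
      have := Real.log_two_lt_d9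
      linarith
    refine h1.trans ((pow_le_exp_mul (by norm_num) h4 g2).trans (le_of_eq ?_))
    congr 1
    ring
  rw [g4 z, norm_mul]
  calc ‖Pf s z‖ * ‖g z‖ ≤ Real.exp (2 * (ν / 3 * Real.log T)) * Real.exp (ν / 3 * Real.log T) := by
        gcongr
        exact (g7 z hz).2
    _ = T ^ ν := by
        rw [← Real.exp_add, Real.rpow_def_of_pos hTpos]
        congr 1
        ring

/-- an extremal cluster with edge at `w`, long window and large values -/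
def ExtF (F : ℂ → ℂ) (ε h₀ τ η B T : ℝ) (w : ℂ) : Prop :=
  (∀ b : ℝ, |b - w.im| ≤ B →
    (cntF F {s : ℂ | F s = 0 ∧ w.re + τ ≤ s.re ∧ |s.im - b| ≤ 1} : ℝ) ≤ η * Real.log T) ∧
  (∀ h : ℝ, h₀ ≤ h → h ≤ 1 / 10 → ∃ b : ℝ, |b - w.im| ≤ Real.sqrt h ∧
    c0 / 64 * (ε * h) / (Real.log (1 / (ε * h))) ^ 4 * Real.log T ≤ cntF F (ZdF F ⟨w.re, b⟩ h)) ∧
  (∀ δ : ℝ, h₀ ≤ δ → δ ≤ 1 / 10 → ∃ z : ℂ, |z.re - w.re| ≤ δ ∧ |z.im - w.im| ≤ 2 * Real.sqrt δ ∧
    T ^ (ε / 8000 * δ) ≤ ‖F z‖)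

/-- a point with a large value of zeta beyond the edge is near the edge -/
lemma large_near {F : ℂ → ℂ} {y R τ' δl h T x ν : ℝ} (hR1 : 1 ≤ R) (hR2 : R ≤ 8 / 5) (hτ' : 0 ≤ τ')
    (hδl : 0 ≤ δl) (hh : 0 < h) (hh1 : h ≤ 1 / 20) (hsum : τ' + δl ≤ h)
    (hsmall : ∀ y' : ℝ, |y' - y| ≤ 2 → ∀ z ∈ closedBall (⟨2, y'⟩ : ℂ) (R - τ' - δl),
      ‖F z‖ ≤ T ^ ν)
    (hfar : ∀ z : ℂ, 2 ≤ z.re → ‖F z‖ ≤ T ^ ν) (hx : T ^ ν < x)
    {z : ℂ} (hz : z ∈ closedBall (⟨2, y⟩ : ℂ) (R + h)) (hzx : x < ‖F z‖) :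
    2 - R - h ≤ z.re ∧ z.re ≤ 2 - R + h ∧ |z.im - y| ≤ 2 * Real.sqrt (2 * h) := by
  have hreim := ball_re_im hz
  have hyy := abs_le.1 hreim.2
  have hz' : ‖z - ⟨2, y⟩‖ ≤ R + h := by
    rwa [mem_closedBall, dist_eq_norm] at hz
  have hre2 : z.re < 2 := by
    by_contra hcon
    push Not at hcon
    have := hfar z hcon
    linarith
  have hre : z.re < 2 - R + τ' + δl := by
    by_contra hcon
    push Not at hcon
    have h1 : z ∈ closedBall (⟨2, z.im⟩ : ℂ) (R - τ' - δl) := by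
      rw [mem_closedBall, dist_eq_norm]
      have h2 : z - ⟨2, z.im⟩ = ((-(2 - z.re) : ℝ) : ℂ) := by
        apply Complex.ext <;> simp
      rw [h2, Complex.norm_real, Real.norm_eq_abs, abs_neg, abs_of_nonneg (by linarith)]
      linarith
    have h3 := hsmall z.im (by rw [abs_le]; constructor <;> linarith) z h1
    linarith
  refine ⟨by linarith [hreim.1], by linarith, ?_⟩
  have h1 : (2 - z.re) ^ 2 + (z.im - y) ^ 2 ≤ (R + h) ^ 2 := by
    have h2 : ‖z - ⟨2, y⟩‖ ^ 2 = (z.re - 2) ^ 2 + (z.im - y) ^ 2 := by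
      rw [← Complex.normSq_eq_norm_sq, Complex.normSq_apply]
      simp only [Complex.sub_re, Complex.sub_im]
      ring
    have h3 : ‖z - ⟨2, y⟩‖ ^ 2 ≤ (R + h) ^ 2 := by gcongr
    rw [h2] at h3
    nlinarith
  have h4 : (R - h) ^ 2 ≤ (2 - z.re) ^ 2 := by
    have : R - h ≤ 2 - z.re := by linarith
    have h5 : 0 ≤ R - h := by linarith
    gcongr
  have h6 : (z.im - y) ^ 2 ≤ 4 * (2 * h) := by
    have h7 : (R + h) ^ 2 - (R - h) ^ 2 = 4 * R * h := by ring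
    nlinarith
  have h9 : (2 * Real.sqrt (2 * h)) ^ 2 = 4 * (2 * h) := by
    rw [mul_pow, Real.sq_sqrt (by positivity)]; norm_num
  rw [← h9] at h6
  exact abs_le_of_sq_le_sq h6 (by positivity)

set_option maxHeartbeats 1000000 in
theorem EZ.dichotomy (hA1 : 1 ≤ A₀) {ε h₀ τ η δs : ℝ} (hε : 0 < ε) (hε1 : ε ≤ 1) (hh₀ : 0 < h₀) (hτ : 0 < τ)
    (hη : 0 < η) (hδs : 0 < δs) (hδs1 : δs ≤ 1 / 20) :
    ∃ Δ : Finset ℝ, (∀ δ ∈ Δ, 0 < δ ∧ δ ≤ 1 / 4) ∧ ∃ N : ℕ, ∃ T0 : ℝ, 1 ≤ T0 ∧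
      ∀ F : ℂ → ℂ, EZ A₀ F → ∀ T : ℝ, T0 ≤ T → ∀ Y : ℝ, Gr F T Y → ∀ B : ℝ, 1 ≤ B →
      ∀ ρ : ℂ, F ρ = 0 → 1 / 2 ≤ ρ.re → |ρ.im| + N * (B + 3) + 10 ≤ Y →
      ∃ y : ℝ, |y - ρ.im| ≤ N * (B + 3) ∧
        ((∃ δ ∈ Δ, ∃ r : ℝ, 0 < r ∧ r ≤ 2 - ρ.re + 2 * δs ∧ ∃ ρ' : ℂ, F ρ' = 0 ∧
            ‖ρ' - ⟨2, y⟩‖ ≤ r ∧
            ∀ z ∈ closedBall (⟨2, y⟩ : ℂ) (r + δ), ‖F z‖ ≤ T ^ (ε / 2000 * δ)) ∨
         (∃ w : ℂ, w.im = y ∧ ρ.re - 2 * δs ≤ w.re ∧ ExtF F ε h₀ τ η B T w)) := by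
  classical
  -- scales
  set hj : ℕ → ℝ := fun j => 1 / 20 * (1 / 2) ^ j with hhj
  have hj0 : ∀ j, 0 < hj j := fun j => by simp only [hhj]; positivity
  have hj1 : ∀ j, hj j ≤ 1 / 20 := fun j => by
    simp only [hhj]
    have : (1 / 2 : ℝ) ^ j ≤ 1 := pow_le_one₀ (by norm_num) (by norm_num)
    linarith
  have hjmono : ∀ i j, i ≤ j → hj j ≤ hj i := fun i j hij => by
    simp only [hhj]
    have : (1 / 2 : ℝ) ^ j ≤ (1 / 2) ^ i := pow_le_pow_of_le_one (by norm_num) (by norm_num) hij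
    linarith
  have hsc : ∀ j : ℕ, ∃ θ : ℝ, 0 < θ ∧ θ ≤ 1 / 16 ∧ ∃ ηj : ℝ, 0 < ηj ∧ ∃ Tj : ℝ, 1 ≤ Tj ∧
      ∀ F : ℂ → ℂ, EZ A₀ F → ∀ T : ℝ, Tj ≤ T → ∀ Y : ℝ, Gr F T Y → ∀ y : ℝ, |y| + 4 ≤ Y → ∀ R : ℝ, 1 ≤ R → R ≤ 8 / 5 → ∀ τ : ℝ, 0 ≤ τ →
      τ ≤ θ * hj j / 4 →
      (∀ y' : ℝ, |y' - y| ≤ 2 → (cntF F (ZdF F ⟨2, y'⟩ (R - τ)) : ℝ) ≤ ηj * Real.log T) →
      (∀ b' : ℝ, |b' - y| ≤ Real.sqrt (hj j) / 2 →
        (cntF F (ZdF F ⟨2 - R, b'⟩ (2 * hj j)) : ℝ) ≤ dens ε (hj j) * Real.log T) →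
      ∀ z ∈ closedBall (⟨2, y⟩ : ℂ) (R + θ * hj j / 2),
        ‖F z‖ ≤ T ^ (ε / 2000 * (θ * hj j / 2)) := by
    intro j
    obtain ⟨θ, h1, h2, K, h3⟩ := par hε hε1 (hj0 j) (hj1 j)
    obtain ⟨ηj, h4, Tj, h5, h6⟩ := EZ.scale_step hA1 (hj0 j) (hj1 j) h1 h2 (m := dens ε (hj j))
      (dens_nonneg hε (hj0 j)) (κ₁ := ε / 2000) (by positivity) h3
    exact ⟨θ, h1, h2, ηj, h4, Tj, h5, h6⟩
  choose θ hθ0 hθ1 ηj hηj Tj hTj hstep using hsc
  obtain ⟨J, hJ⟩ : ∃ J : ℕ, (1 / 2 : ℝ) ^ J < h₀ * 10 :=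
    exists_pow_lt_of_lt_one (by positivity) (by norm_num)
  obtain ⟨τa, hτa, hτa'⟩ := pos_min (fun j => θ j * hj j / 4)
    (fun j => by have := hθ0 j; have := hj0 j; positivity) J
  obtain ⟨ηa, hηa, hηa'⟩ := pos_min ηj hηj J
  obtain ⟨Ta, hTa⟩ := fin_max Tj J
  -- light
  obtain ⟨ηl, hηl, Tl, hTl, hlight⟩ := EZ.light_small hA1 (δ := δs) (ν := ε / 2000 * δs) hδs
    (by linarith) (by positivity)
  set hJ' : ℝ := hj J with hhJ'
  have hhJ0 : 0 < hJ' := hj0 J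
  have hhJ1 : hJ' ≤ 1 / 20 := hj1 J
  set ν : ℝ := ε / 4000 * hJ' with hν'
  have hν : 0 < ν := by positivity
  obtain ⟨ηs, hηs, Ts, hTs, hsm⟩ := EZ.light_small hA1 (δ := hJ' / 2) (ν := ν) (by positivity)
    (by linarith) hν
  obtain ⟨Az, hAzeq⟩ : ∃ A : ℝ, A = A₀ := ⟨_, rfl⟩
  rw [← hAzeq] at hA1 hstep hlight hsm ⊢
  have evz : ∀ᶠ T : ℝ in atTop, Az ≤ T ^ ν := (tendsto_rpow_atTop hν).eventually_ge_atTop _
  obtain ⟨Tz, hTz⟩ := Filter.eventually_atTop.1 evz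
  set τ' : ℝ := min (min (τ / 2) τa) (hJ' / 2) with hτ'
  have hτ'0 : 0 < τ' := lt_min (lt_min (by positivity) hτa) (by positivity)
  have hτ'1 : τ' ≤ τ / 2 := (min_le_left _ _).trans (min_le_left _ _)
  have hτ'2 : τ' ≤ τa := (min_le_left _ _).trans (min_le_right _ _)
  have hτ'3 : τ' ≤ hJ' / 2 := min_le_right _ _
  set JB : ℝ := 2 * (⌈1 / τ⌉₊ + 1) + 1 with hJB
  have hJB0 : 0 < JB := by positivity
  set η' : ℝ := min (min ηa ηl) (min ηs (η / JB)) with hη'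
  have hη'0 : 0 < η' := lt_min (lt_min hηa hηl) (lt_min hηs (by positivity))
  set N : ℕ := ⌈1 / τ'⌉₊ with hN
  have hNτ : 1 ≤ N * τ' := by
    have h1 : 1 / τ' ≤ N := Nat.le_ceil _
    rwa [div_le_iff₀ hτ'0] at h1
  refine ⟨insert δs ((Finset.range (J + 1)).image (fun j => θ j * hj j / 2) ∪
    (Finset.range (J + 1)).image hj), ?_, N,
    max (max Ta Tl) (max (max Ts Tz) 2), hTl.trans ((le_max_right _ _).trans (le_max_left _ _)), ?_⟩
  · intro δ hδ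
    rw [Finset.mem_insert, Finset.mem_union, Finset.mem_image, Finset.mem_image] at hδ
    rcases hδ with rfl | ⟨j, -, rfl⟩ | ⟨j, -, rfl⟩
    · exact ⟨hδs, by linarith⟩
    · have h1 := hθ0 j
      have h2 := hj0 j
      have h3 := hθ1 j
      have h4 := hj1 j
      refine ⟨by positivity, ?_⟩
      have : θ j * hj j ≤ 1 / 16 * (1 / 20) := by gcongr
      linarith
    · have h4 := hj1 j
      exact ⟨hj0 j, by linarith⟩
  intro F hF T hT Y hGr B hB ρ hρ hre hρT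
  have hAz := hF.bds
  have hTTa : Ta ≤ T := (le_max_left _ _).trans ((le_max_left _ _).trans hT)
  have hTTl : Tl ≤ T := (le_max_right _ _).trans ((le_max_left _ _).trans hT)
  have hTTs : Ts ≤ T := (le_max_left _ _).trans ((le_max_left _ _).trans ((le_max_right _ _).trans hT))
  have hTTz : Tz ≤ T := (le_max_right _ _).trans ((le_max_left _ _).trans ((le_max_right _ _).trans hT))
  have hT2 : 2 ≤ T := (le_max_right _ _).trans ((le_max_right _ _).trans hT)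
  have hTpos : 0 < T := by linarith
  set L : ℝ := Real.log T with hL
  have hL0 : 0 ≤ L := Real.log_nonneg (by linarith)
  have hNB : 0 ≤ (N : ℝ) * (B + 3) := by positivity
  have hre1 : ρ.re ≤ 1 := hF.re_le hρ
  set R0 : ℝ := 2 - ρ.re + 2 * δs with hR0
  have hR0' : R0 ≤ 8 / 5 := by linarith
  set Hv : ℝ → ℝ → Prop := fun y R => η' * L < (cntF F (ZdF F ⟨2, y⟩ R) : ℝ) with hHv
  have hzero : ∀ y R, Hv y R → ∃ ρ' : ℂ, F ρ' = 0 ∧ ‖ρ' - ⟨2, y⟩‖ ≤ R := by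
    intro y R h
    have h1 : 0 < cntF F (ZdF F ⟨2, y⟩ R) := by
      have h2 : (0 : ℝ) < (cntF F (ZdF F ⟨2, y⟩ R) : ℝ) := lt_of_le_of_lt (by positivity) h
      exact_mod_cast h2
    obtain ⟨ρ', h3, h4⟩ := cntF_pos h1
    exact ⟨ρ', h3, h4⟩
  have hlow : ∀ y R, Hv y R → 1 ≤ R := by
    intro y R h
    obtain ⟨ρ', h3, h4⟩ := hzero y R h
    have h5 : ρ'.re ≤ 1 := hF.re_le h3
    have h6 := abs_le.1 ((Complex.abs_re_le_norm (ρ' - ⟨2, y⟩)).trans h4)
    simp only [Complex.sub_re] at h6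
    linarith [h6.1]
  have hη'a : η' ≤ ηa := (min_le_left _ _).trans (min_le_left _ _)
  have hη'l : η' ≤ ηl := (min_le_left _ _).trans (min_le_right _ _)
  have hη's : η' ≤ ηs := (min_le_right _ _).trans (min_le_left _ _)
  have hη'JB : JB * η' ≤ η := by
    have : η' ≤ η / JB := (min_le_right _ _).trans (min_le_right _ _)
    rw [le_div_iff₀ hJB0] at this
    linarith
  by_cases hH : Hv ρ.im R0
  · obtain ⟨y, R, e1, e2, e3, e4⟩ := chain (B := B + 3) (τ := τ') (by positivity) hτ'0.le hlow N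
      ρ.im R0 hH (by linarith)
    have hy := abs_le.1 e3
    have hyY : |y| + 4 ≤ Y := by
      have h1 : |y| ≤ |y - ρ.im| + |ρ.im| := by
        calc |y| = |(y - ρ.im) + ρ.im| := by congr 1; ring
          _ ≤ _ := abs_add_le _ _
      linarith
    have hR1 : 1 ≤ R := hlow y R e1
    have hR2 : R ≤ 8 / 5 := by linarith
    have e4' : ∀ y' : ℝ, |y' - y| ≤ B + 3 → (cntF F (ZdF F ⟨2, y'⟩ (R - τ')) : ℝ) ≤ η' * L := by
      intro y' hy'
      have := e4 y' hy'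
      simp only [hHv] at this
      push Not at this
      exact this
    refine ⟨y, e3, ?_⟩
    by_cases hall : ∀ j ≤ J, ¬ (∀ b' : ℝ, |b' - y| ≤ Real.sqrt (hj j) / 2 →
        (cntF F (ZdF F ⟨2 - R, b'⟩ (2 * hj j)) : ℝ) ≤ dens ε (hj j) * L)
    · by_cases hall2 : ∀ j ≤ J, ¬ (∀ z ∈ closedBall (⟨2, y⟩ : ℂ) (R + hj j),
          ‖F z‖ ≤ T ^ (ε / 2000 * hj j))
      · right
        refine ⟨⟨2 - R, y⟩, rfl, by simp only; linarith, ?_, ?_, ?_⟩
        · intro b hb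
          simp only at hb ⊢
          have h1 := hF.region_count (y := b) (R := R) (τ := τ) (τ' := τ') (B := 1) (x := η' * L)
            (by linarith) hτ hτ'0.le hτ'1 one_pos
            (fun y' hy' => e4' y' (by
              calc |y' - y| = |(y' - b) + (b - y)| := by congr 1; ring
                _ ≤ |y' - b| + |b - y| := abs_add_le _ _
                _ ≤ B + 3 := by linarith))
          refine h1.trans ?_
          calc (2 * ((⌈1 / τ⌉₊ : ℝ) + 1) + 1) * (η' * L) = (JB * η') * L := by rw [hJB]; ring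
            _ ≤ η * L := by gcongr
        · intro h hh1 hh2
          simp only
          obtain ⟨j, hjJ, h2j, h4j⟩ := scale_pick hJ hh1 hh2
          have h2j' : 2 * hj j ≤ h := h2j
          have h4j' : h ≤ 4 * hj j := h4j
          have := hall j hjJ
          push Not at this
          obtain ⟨b', hb1, hb2⟩ := this
          have hh0 : 0 < h := lt_of_lt_of_le hh₀ hh1
          refine ⟨b', hb1.trans ?_, ?_⟩
          · have h5 : Real.sqrt (hj j) ≤ Real.sqrt h := Real.sqrt_le_sqrt (by linarith [hj0 j])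
            have h6 : 0 ≤ Real.sqrt (hj j) := Real.sqrt_nonneg _
            linarith
          · have h5 : cntF F (ZdF F ⟨2 - R, b'⟩ (2 * hj j)) ≤ cntF F (ZdF F ⟨2 - R, b'⟩ h) :=
              cntF_mono (hF.Zd_finite _ _) (fun s hs => ⟨hs.1, hs.2.trans h2j'⟩)
            have h6 : ((cntF F (ZdF F ⟨2 - R, b'⟩ (2 * hj j)) : ℕ) : ℝ) ≤
                (cntF F (ZdF F ⟨2 - R, b'⟩ h) : ℕ) := by exact_mod_cast h5
            refine le_trans ?_ (hb2.le.trans h6)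
            have := dens_ge hε hε1 hh2 (hj0 j) (by linarith) h4j'
            gcongr
        · intro δ hδ1 hδ2
          simp only
          obtain ⟨j, hjJ, h2j, h4j⟩ := scale_pick hJ hδ1 hδ2
          have h2j' : 2 * hj j ≤ δ := h2j
          have h4j' : δ ≤ 4 * hj j := h4j
          have := hall2 j hjJ
          push Not at this
          obtain ⟨z, hz1, hz2⟩ := this
          have hjJ' : hJ' ≤ hj j := hjmono j J hjJ
          have hTν : T ^ ν < T ^ (ε / 2000 * hj j) := by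
            apply Real.rpow_lt_rpow_of_exponent_lt (by linarith)
            have h5 : ε / 4000 * hJ' ≤ ε / 4000 * hj j := by gcongr
            have h6 : 0 < ε / 4000 * hj j := by have := hj0 j; positivity
            have h7 : ε / 2000 * hj j = 2 * (ε / 4000 * hj j) := by ring
            rw [hν', h7]
            linarith
          obtain ⟨g1, g2, g3⟩ := large_near (y := y) (R := R) (τ' := τ') (δl := hJ' / 2) (h := hj j)
            (T := T) (x := T ^ (ε / 2000 * hj j)) (ν := ν) hR1 hR2 hτ'0.le (by positivity) (hj0 j)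
            (hj1 j) (by linarith)
            (by
              intro y' hy' z' hz'
              have hy'' : |y'| + 2 ≤ Y := by
                have h1 : |y'| ≤ |y' - y| + |y| := by
                  calc |y'| = |(y' - y) + y| := by congr 1; ring
                    _ ≤ _ := abs_add_le _ _
                linarith
              refine hsm F hF T hTTs Y hGr y' hy'' (R - τ') (by linarith) (by linarith)
                ((e4' y' (by linarith)).trans (by gcongr)) z' hz')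
            (by
              intro z' hz'
              exact ((hAz z' (by linarith)).1).trans (hTz T hTTz))
            hTν hz1 hz2
          have hδ0 : 0 < δ := lt_of_lt_of_le hh₀ hδ1
          refine ⟨z, ?_, ?_, ?_⟩
          · have := hj0 j
            rw [abs_le]
            constructor <;> linarith
          · refine g3.trans ?_
            have : Real.sqrt (2 * hj j) ≤ Real.sqrt δ := Real.sqrt_le_sqrt h2j'
            linarith
          · refine le_trans ?_ hz2.le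
            apply Real.rpow_le_rpow_of_exponent_le (by linarith)
            have : ε / 8000 * δ ≤ ε / 8000 * (4 * hj j) := by gcongr
            linarith
      · left
        push Not at hall2
        obtain ⟨j, hjJ, hsmall⟩ := hall2
        obtain ⟨ρ', h3, h4⟩ := hzero y R e1
        refine ⟨hj j, ?_, R, by linarith, e2, ρ', h3, h4, hsmall⟩
        rw [Finset.mem_insert, Finset.mem_union, Finset.mem_image, Finset.mem_image]
        exact Or.inr (Or.inr ⟨j, Finset.mem_range.2 (by omega), rfl⟩)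
    · left
      push Not at hall
      obtain ⟨j, hjJ, hfew⟩ := hall
      obtain ⟨ρ', h3, h4⟩ := hzero y R e1
      refine ⟨θ j * hj j / 2, ?_, R, by linarith, e2, ρ', h3, h4, ?_⟩
      · rw [Finset.mem_insert, Finset.mem_union, Finset.mem_image, Finset.mem_image]
        exact Or.inr (Or.inl ⟨j, Finset.mem_range.2 (by omega), rfl⟩)
      · refine hstep j F hF T ((hTa j hjJ).trans hTTa) Y hGr y hyY R hR1 hR2 τ'
          hτ'0.le (hτ'2.trans (hτa' j hjJ)) ?_ hfew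
        intro y' hy'
        refine (e4' y' (by linarith)).trans ?_
        have := hηa' j hjJ
        gcongr
        exact hη'a.trans this
  · refine ⟨ρ.im, by rw [sub_self, abs_zero]; exact hNB, Or.inl ⟨δs, Finset.mem_insert_self _ _,
      2 - ρ.re, by linarith, by linarith, ρ, hρ, ?_, ?_⟩⟩
    · have h1 : ρ - ⟨2, ρ.im⟩ = ((-(2 - ρ.re) : ℝ) : ℂ) := by
        apply Complex.ext <;> simp
      rw [h1, Complex.norm_real, Real.norm_eq_abs, abs_neg, abs_of_nonneg (by linarith)]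
    · simp only [hHv] at hH
      push Not at hH
      intro z hz
      refine hlight F hF T hTTl Y hGr ρ.im (by linarith) R0 (by linarith) (by linarith)
        (hH.trans (by gcongr)) z (closedBall_subset_closedBall ?_ hz)
      rw [hR0]; linarith

end Pool.Agent.K9h52.HY
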