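import Pool.Agent.K9h52.HY.Fin
import Pool.Agent.K9h99.HMV
import Pool.Agent.K9h63.EC

/-!
The twists of the L-function of an elliptic curve.
-/

open Complex Metric Set Filter Topology
open UpperHalfPlane MatrixGroups CongruenceSubgroup

namespace Pool.Agent.K9h52.HY

open H370 H370.Loc DH31 DX
open Pool.Agent.W169.HF (IsForm coef)

/-- the constants of the divisor bound -/
lemma exists_Phi : ∃ Φ : ℝ → ℝ, (∀ κ, 0 < Φ κ) ∧ ∀ κ : ℝ, 0 < κ → ∀ n : ℕ, 1 ≤ n →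
    (n.divisors.card : ℝ) ≤ Φ κ * (n : ℝ) ^ κ := by
  have h : ∀ κ : ℝ, ∃ C : ℝ, 0 < C ∧ (0 < κ → ∀ n : ℕ, 1 ≤ n → (n.divisors.card : ℝ) ≤ C * (n : ℝ) ^ κ) := by
    intro κ
    by_cases hκ : 0 < κ
    · obtain ⟨C, hC, h1⟩ := div_bound (ε := κ) hκ
      exact ⟨C, by linarith, fun _ => h1⟩
    · exact ⟨1, one_pos, fun h => absurd h hκ⟩
  choose Φ h1 h2 using h
  exact ⟨Φ, h1, h2⟩

/-- a linear recursion -/
lemma tsum_rec {x : ℕ → ℂ} {t u : ℂ} (hs : Summable x) (h0 : x 0 = 1) (h1 : x 1 = t)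
    (h2 : ∀ k, x (k + 2) = t * x (k + 1) - u * x k) : ∑' k, x k = (1 - t + u)⁻¹ := by
  have s1 : Summable (fun k => x (k + 1)) := (summable_nat_add_iff 1).2 hs
  have s2 : Summable (fun k => x (k + 2)) := (summable_nat_add_iff 2).2 hs
  have e1 : ∑' k, x k = x 0 + ∑' k, x (k + 1) := hs.tsum_eq_zero_add
  have e2 : ∑' k, x (k + 1) = x 1 + ∑' k, x (k + 2) := s1.tsum_eq_zero_add
  have e3 : ∑' k, x (k + 2) = t * ∑' k, x (k + 1) - u * ∑' k, x k := by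
    simp_rw [h2]
    rw [(s1.mul_left t).tsum_sub (hs.mul_left u), tsum_mul_left, tsum_mul_left]
  rw [h0] at e1
  rw [h1, e3] at e2
  obtain ⟨S, hS⟩ : ∃ S : ℂ, S = ∑' k, x k := ⟨_, rfl⟩
  obtain ⟨S1, hS1⟩ : ∃ S : ℂ, S = ∑' k, x (k + 1) := ⟨_, rfl⟩
  rw [← hS, ← hS1] at e1 e2
  rw [← hS]
  have e4 : S * (1 - t + u) = 1 := by linear_combination (1 - t) * e1 + e2
  exact eq_inv_of_mul_eq_one_left e4

section
variable {N : ℕ} [NeZero N] {f : CuspForm (Gamma0 N : Subgroup (GL (Fin 2) ℝ)) 2} {w : ℝ}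
  {a b : ArithmeticFunction ℂ}

omit [NeZero N] in
lemma term_coef (ha : ∀ n : ℕ, 1 ≤ n → a n = coef f n * ((((n : ℝ) ^ (-(1 / 2 : ℝ)) : ℝ)) : ℂ))
    {q : ℕ} (χ : DirichletCharacter ℂ q) (z : ℂ) {n : ℕ} (hn : n ≠ 0) :
    LSeries.term (fun n => χ (n : ZMod q) * a n) (z - 1 / 2) n =
      χ (n : ZMod q) * coef f n * (n : ℂ) ^ (-z) := by
  have hnc : (n : ℂ) ≠ 0 := by exact_mod_cast hn
  rw [LSeries.term_of_ne_zero hn, ha n (Nat.one_le_iff_ne_zero.2 hn), div_eq_mul_inv,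
    ← Complex.cpow_neg, Complex.ofReal_cpow (Nat.cast_nonneg _)]
  have e1 : -z = ((-(1 / 2 : ℝ) : ℝ) : ℂ) + -(z - 1 / 2) := by push_cast; ring
  rw [e1, Complex.cpow_add _ _ hnc, Complex.ofReal_natCast]
  push_cast
  ring

theorem euler_twist (hf : IsForm N f w)
    (ha : ∀ n : ℕ, 1 ≤ n → a n = coef f n * ((((n : ℝ) ^ (-(1 / 2 : ℝ)) : ℝ)) : ℂ))
    (had : GX.Sm a) {q : ℕ} (χ : DirichletCharacter ℂ q) {z : ℂ} (hz : 3 / 2 < z.re) :
    HasProd (fun p : Nat.Primes => (1 - χ ((p : ℕ) : ZMod q) * coef f p * ((p : ℕ) : ℂ) ^ (-z) +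
      χ ((p : ℕ) : ZMod q) ^ 2 * ((if (p : ℕ) ∣ N then 0 else ((p : ℕ) : ℂ)) *
        (((p : ℕ) : ℂ) ^ (-z)) ^ 2))⁻¹)
      (LSeries (fun n => χ (n : ZMod q) * a n) (z - 1 / 2)) := by
  obtain ⟨g, hg⟩ : ∃ g : ℕ → ℂ, g = LSeries.term (fun n => χ (n : ZMod q) * a n) (z - 1 / 2) :=
    ⟨_, rfl⟩
  have hg0 : g 0 = 0 := by rw [hg, LSeries.term_zero]
  have hgn : ∀ n : ℕ, n ≠ 0 → g n = χ (n : ZMod q) * coef f n * (n : ℂ) ^ (-z) := by
    intro n hn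
    rw [hg]
    exact term_coef ha χ z hn
  have hre : 1 < (z - 1 / 2).re := by
    have : (z - 1 / 2 : ℂ).re = z.re - 1 / 2 := by simp
    rw [this]; linarith
  have hsum : Summable (fun n => ‖g n‖) := by
    have h1 := (had.summ hre).norm
    refine Summable.of_nonneg_of_le (fun n => norm_nonneg _) (fun n => ?_) h1
    rw [hg]
    rcases Nat.eq_zero_or_pos n with rfl | hn
    · rw [LSeries.term_zero, LSeries.term_zero]
    · rw [LSeries.term_of_ne_zero hn.ne', LSeries.term_of_ne_zero hn.ne', norm_div, norm_div,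
        norm_mul]
      have h2 := DirichletCharacter.norm_le_one χ (n : ZMod q)
      gcongr
      calc ‖χ (n : ZMod q)‖ * ‖a n‖ ≤ 1 * ‖a n‖ := by gcongr
        _ = _ := one_mul _
  have hg1 : g 1 = 1 := by
    rw [hgn 1 one_ne_zero, hf.one]
    simp
  have hmul : ∀ {m n : ℕ}, Nat.Coprime m n → g (m * n) = g m * g n := by
    intro m n hmn
    rcases Nat.eq_zero_or_pos m with rfl | hm
    · rw [Nat.coprime_zero_left] at hmn
      rw [hmn, mul_one, hg0, zero_mul]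
    rcases Nat.eq_zero_or_pos n with rfl | hn
    · rw [Nat.coprime_zero_right] at hmn
      rw [hmn, one_mul, hg0, mul_zero]
    rw [hgn _ (by positivity), hgn m hm.ne', hgn n hn.ne', hf.mul m n hmn, Nat.cast_mul, map_mul,
      Nat.cast_mul, Complex.natCast_mul_natCast_cpow]
    ring
  have key := EulerProduct.eulerProduct_hasProd hg1 hmul hsum hg0
  have e1 : (fun p : Nat.Primes => ∑' e, g ((p : ℕ) ^ e)) = fun p : Nat.Primes =>
      (1 - χ ((p : ℕ) : ZMod q) * coef f p * ((p : ℕ) : ℂ) ^ (-z) +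
      χ ((p : ℕ) : ZMod q) ^ 2 * ((if (p : ℕ) ∣ N then 0 else ((p : ℕ) : ℂ)) *
        (((p : ℕ) : ℂ) ^ (-z)) ^ 2))⁻¹ := by
    funext p
    have hp := p.2
    have hpow : ∀ k : ℕ, (((p : ℕ) ^ k : ℕ) : ℂ) ^ (-z) = (((p : ℕ) : ℂ) ^ (-z)) ^ k := by
      intro k
      induction k with
      | zero => simp
      | succ k ih => rw [pow_succ, pow_succ, Nat.cast_mul, Complex.natCast_mul_natCast_cpow, ih]
    refine tsum_rec ?_ ?_ ?_ ?_
    · have h1 : Function.Injective (fun k : ℕ => (p : ℕ) ^ k) := Nat.pow_right_injective hp.two_le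
      exact hsum.of_norm.comp_injective h1
    · rw [pow_zero, hg1]
    · rw [pow_one, hgn _ hp.ne_zero]
    · intro k
      have hk : ∀ j : ℕ, (p : ℕ) ^ j ≠ 0 := fun j => pow_ne_zero _ hp.ne_zero
      rw [hgn _ (hk _), hgn _ (hk _), hgn _ (hk _), hf.pow p k hp, hpow, hpow, hpow]
      push_cast
      rw [map_pow, map_pow, map_pow]
      split_ifs
      · ring
      · ring
  rw [e1] at key
  unfold LSeries
  rw [← hg]
  exact key

end

/-- all the L-functions of the twists of `f` -/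
theorem ec_family (hec : S_EC) {N : ℕ} [NeZero N] {f : CuspForm (Gamma0 N : Subgroup (GL (Fin 2) ℝ)) 2}
    {w : ℝ} (hf : IsForm N f w) : ∃ (Φ : ℝ → ℝ) (a b : ArithmeticFunction ℂ) (A : ℝ)
      (L : (q : ℕ) → DirichletCharacter ℂ q → ℂ → ℂ), (∀ κ, 0 < Φ κ) ∧ 1 ≤ A ∧ SU Φ a ∧ SU Φ b ∧
      (∀ (q : ℕ) (χ : DirichletCharacter ℂ q), 1 ≤ q → Nat.Coprime q N → χ.IsPrimitive →
        Differentiable ℂ (L q χ) ∧ ∀ z : ℂ, 3 / 2 < z.re →
          HasProd (fun p : Nat.Primes => (1 - χ ((p : ℕ) : ZMod q) * coef f p * ((p : ℕ) : ℂ) ^ (-z) +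
            χ ((p : ℕ) : ZMod q) ^ 2 * ((if (p : ℕ) ∣ N then 0 else ((p : ℕ) : ℂ)) *
            (((p : ℕ) : ℂ) ^ (-z)) ^ 2))⁻¹) (L q χ (z - 1 / 2)) ∧
          L q χ (z - 1 / 2) = ∑' n : ℕ, χ (n : ZMod q) * coef f n * (n : ℂ) ^ (-z)) ∧
      ∀ (q : ℕ) [NeZero q], Nat.Coprime q N → ∀ χ : DirichletCharacter ℂ q,
        LU Φ (L χ.conductor χ.primitiveCharacter) (tw (pc χ) a) (tw (pc χ) b) ∧
        ∀ s : ℂ, 1 / 4 ≤ s.re →
          ‖L χ.conductor χ.primitiveCharacter s‖ ≤ A * (q * (1 + |s.im|)) ^ 2 := by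
  classical
  obtain ⟨a, b, A, hA1, hab, ha, had, hbd, hex⟩ := hec N f w hf
  obtain ⟨Φ, hΦ, hΦd⟩ := exists_Phi
  have hsa : SU Φ a := fun κ hκ n hn => (had n hn).trans (hΦd κ hκ n hn)
  have hsb : SU Φ b := fun κ hκ n hn => (hbd n hn).trans (hΦd κ hκ n hn)
  have hex' : ∀ (q : ℕ) (χ : DirichletCharacter ℂ q), ∃ F : ℂ → ℂ, 1 ≤ q → Nat.Coprime q N →
      χ.IsPrimitive → Differentiable ℂ F ∧
        (∀ s : ℂ, 1 < s.re → F s = LSeries (fun n => χ (n : ZMod q) * a n) s) ∧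
        ∀ s : ℂ, 1 / 4 ≤ s.re → ‖F s‖ ≤ A * (q * (1 + |s.im|)) ^ 2 := by
    intro q χ
    by_cases h : 1 ≤ q ∧ Nat.Coprime q N ∧ χ.IsPrimitive
    · obtain ⟨h1, h2, h3⟩ := h
      haveI : NeZero q := ⟨by omega⟩
      obtain ⟨F, hF⟩ := hex q χ h3 h2
      exact ⟨F, fun _ _ _ => hF⟩
    · exact ⟨fun _ => 0, fun h1 h2 h3 => absurd ⟨h1, h2, h3⟩ h⟩
  choose L hL using hex'
  refine ⟨Φ, a, b, A, L, hΦ, hA1, hsa, hsb, ?_, ?_⟩
  · intro q χ h1 h2 h3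
    obtain ⟨g1, g2, g3⟩ := hL q χ h1 h2 h3
    refine ⟨g1, fun z hz => ?_⟩
    rw [g2 (z - 1 / 2) (by
      have : (z - 1 / 2 : ℂ).re = z.re - 1 / 2 := by simp
      rw [this]; linarith)]
    refine ⟨euler_twist hf ha (hsa.sm hΦ) χ hz, ?_⟩
    unfold LSeries
    refine tsum_congr fun n => ?_
    rcases Nat.eq_zero_or_pos n with rfl | hn
    · have hz0 : -z ≠ 0 := by
        intro h
        rw [neg_eq_zero] at h
        rw [h] at hz
        norm_num at hz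
      rw [LSeries.term_zero, Nat.cast_zero, Nat.cast_zero, Complex.zero_cpow hz0, mul_zero]
    · exact term_coef ha χ z hn.ne'
  · intro q _ hq χ
    obtain ⟨g1, g2, g3⟩ := hL χ.conductor χ.primitiveCharacter
      (Nat.one_le_iff_ne_zero.2 χ.conductor_ne_zero)
      (Nat.Coprime.coprime_dvd_left χ.conductor_dvd_level hq) χ.primitiveCharacter_isPrimitive
    have hq1 : 1 ≤ q := Nat.one_le_iff_ne_zero.2 (NeZero.ne q)
    have hcq : (χ.conductor : ℝ) ≤ q := by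
      exact_mod_cast Nat.le_of_dvd hq1 χ.conductor_dvd_level
    have hc0 : (0 : ℝ) < χ.conductor := by
      exact_mod_cast Nat.pos_of_ne_zero χ.conductor_ne_zero
    refine ⟨⟨⟨g1, ⟨A * (χ.conductor : ℝ) ^ 2, 2, by positivity, fun z hz _ => ?_⟩, ?_, ?_, ?_, ?_⟩,
      hsa.tw (pc_le χ), hsb.tw (pc_le χ)⟩, fun s hs => ?_⟩
    · refine (g3 z hz).trans (le_of_eq ?_)
      ring
    · rw [← tw_mul (pc_mul χ), hab, tw_one (pc_one χ)]
    · exact (hsa.tw (pc_le χ)).sm hΦ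
    · exact (hsb.tw (pc_le χ)).sm hΦ
    · intro s hs
      rw [g2 s hs]
      congr 1
      funext n
      rw [tw_apply, mul_comm]
      rfl
    · refine (g3 s hs).trans ?_
      have : 0 ≤ |s.im| := abs_nonneg _
      gcongr

end Pool.Agent.K9h52.HY
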