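import Pool.Agent.K9h52.HY.Main

/-!
The final estimate for a family of twists.
-/

open Complex Metric Set Filter Topology

namespace Pool.Agent.K9h52.HY

open H370 H370.Loc DH31 DX

variable {Φ : ℝ → ℝ}

/-- extremal clusters, final normalisation -/
def ExtX (c ε h₀ τ η B X : ℝ) (F : ℂ → ℂ) (w : ℂ) : Prop :=
  (∀ b : ℝ, |b - w.im| ≤ B →
    (cntF F {s : ℂ | F s = 0 ∧ w.re + τ ≤ s.re ∧ |s.im - b| ≤ 1} : ℝ) ≤ η * Real.log X) ∧
  (∀ h : ℝ, h₀ ≤ h → h ≤ 1 / 10 → ∃ b : ℝ, |b - w.im| ≤ Real.sqrt h ∧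
    c * (ε * h) / (Real.log (1 / (ε * h))) ^ 4 * Real.log X ≤ cntF F (ZdF F ⟨w.re, b⟩ h)) ∧
  (∀ δ : ℝ, h₀ ≤ δ → δ ≤ 1 / 10 → ∃ z : ℂ, |z.re - w.re| ≤ δ ∧ |z.im - w.im| ≤ 2 * Real.sqrt δ ∧
    X ^ (ε / 8000 * δ) ≤ ‖F z‖)

lemma ExtF.toX {F : ℂ → ℂ} {ε h₀ τ η B X : ℝ} {w : ℂ} (hε : 0 < ε) (hε1 : ε ≤ 1) (hh₀ : 0 < h₀)
    (hX : 1 ≤ X) (h : ExtF F (ε / 2) h₀ τ (η / 2) B (X ^ 2) w) :
    ExtX (c0 / 1024) ε h₀ τ η B X F w := by
  obtain ⟨h1, h2, h3⟩ := h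
  have hlog : Real.log (X ^ 2) = 2 * Real.log X := by rw [Real.log_pow]; norm_num
  have hL : 0 ≤ Real.log X := Real.log_nonneg hX
  have hc0 := c0_pos
  refine ⟨?_, ?_, ?_⟩
  · intro b hb
    refine (h1 b hb).trans (le_of_eq ?_)
    rw [hlog]; ring
  · intro h hh hh1
    obtain ⟨b, hb1, hb2⟩ := h2 h hh hh1
    refine ⟨b, hb1, le_trans ?_ hb2⟩
    have hh0 : 0 < h := lt_of_lt_of_le hh₀ hh
    have hεh : 0 < ε * h := by positivity
    have hεh1 : ε * h ≤ 1 / 10 := by nlinarith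
    have e1 : (10 : ℝ) ≤ 1 / (ε * h) := by rw [le_div_iff₀ hεh]; linarith
    have e2 : 0 < Real.log (1 / (ε * h)) := Real.log_pos (by linarith)
    have e3 : Real.log (1 / (ε / 2 * h)) ≤ 2 * Real.log (1 / (ε * h)) := by
      have e4 : 1 / (ε / 2 * h) = 2 * (1 / (ε * h)) := by field_simp
      rw [e4, Real.log_mul (by norm_num) (by positivity)]
      have e5 : Real.log 2 ≤ Real.log (1 / (ε * h)) := Real.log_le_log (by norm_num) (by linarith)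
      linarith
    have e6 : 0 < Real.log (1 / (ε / 2 * h)) := by
      apply Real.log_pos
      have e4 : 1 / (ε / 2 * h) = 2 * (1 / (ε * h)) := by field_simp
      rw [e4]; linarith
    have e7 : (Real.log (1 / (ε / 2 * h))) ^ 4 ≤ 16 * (Real.log (1 / (ε * h))) ^ 4 := by
      calc (Real.log (1 / (ε / 2 * h))) ^ 4 ≤ (2 * Real.log (1 / (ε * h))) ^ 4 := by gcongr
        _ = _ := by ring
    rw [hlog]
    calc c0 / 1024 * (ε * h) / (Real.log (1 / (ε * h))) ^ 4 * Real.log X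
        = c0 / 64 * (ε * h) / (16 * (Real.log (1 / (ε * h))) ^ 4) * Real.log X := by
          field_simp; ring
      _ ≤ c0 / 64 * (ε * h) / (Real.log (1 / (ε / 2 * h))) ^ 4 * Real.log X := by gcongr
      _ = _ := by ring
  · intro δ hδ hδ1
    obtain ⟨z, hz1, hz2, hz3⟩ := h3 δ hδ hδ1
    refine ⟨z, hz1, hz2, le_trans (le_of_eq ?_) hz3⟩
    rw [← Real.rpow_natCast X 2, ← Real.rpow_mul (by linarith)]
    congr 1
    push_cast
    ring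

/-- the pairs of a character and a unit interval with an extremal cluster -/
def cluX {q : ℕ} (F : DirichletCharacter ℂ q → ℂ → ℂ) (c ε h₀ τ η B X σ V₁ V₂ : ℝ) :
    Set (DirichletCharacter ℂ q × ℤ) :=
  {p | V₁ ≤ p.2 ∧ (p.2 : ℝ) ≤ V₂ ∧ ∃ w : ℂ, σ ≤ w.re ∧ (p.2 : ℝ) ≤ w.im ∧ w.im ≤ p.2 + 1 ∧
    ExtX c ε h₀ τ η B X (F p.1) w}

lemma cluX_finite {q : ℕ} [NeZero q] (F : DirichletCharacter ℂ q → ℂ → ℂ)
    (c ε h₀ τ η B X σ V₁ V₂ : ℝ) : (cluX F c ε h₀ τ η B X σ V₁ V₂).Finite := by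
  refine (Set.finite_univ.prod (Set.finite_Icc ⌈V₁⌉ ⌊V₂⌋)).subset ?_
  rintro ⟨χ, n⟩ ⟨h1, h2, -⟩
  exact ⟨Set.mem_univ _, Int.ceil_le.2 h1, Int.le_floor.2 h2⟩

/-- the trivial bound -/
lemma triv_fam (hΦ : ∀ κ, 0 < Φ κ) {T : ℝ} (hT : 3 ≤ T) {F : ℂ → ℂ} (hF : EZ (AΦ Φ) F)
    {Y : ℝ} (hGr : Gr F T Y) {U H : ℝ} (hH : 1 ≤ H) (hUY : |U| + H + 3 ≤ Y) {σ : ℝ} (hσ : 1 / 2 ≤ σ) :
    (cntF F {ρ : ℂ | F ρ = 0 ∧ σ ≤ ρ.re ∧ U < ρ.im ∧ ρ.im ≤ U + H} : ℝ) ≤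
      36 * (2 + Real.log (AΦ Φ)) * (H * Real.log T) := by
  have hTpos : 0 < T := by linarith
  have hlA : 0 ≤ Real.log (AΦ Φ) := Real.log_nonneg (AΦ_ge hΦ)
  have hlog1 : 1 ≤ Real.log T := by
    rw [Real.le_log_iff_exp_le hTpos]
    have := Real.exp_one_lt_d9
    linarith
  have h1 := hF.windows (AΦ_ge hΦ) (T := T) (Y := Y) (by linarith) hGr
    (A := {ρ : ℂ | F ρ = 0 ∧ σ ≤ ρ.re ∧ U < ρ.im ∧ ρ.im ≤ U + H})
    ((hF.fin_region σ U (U + H)).subset (by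
      rintro ρ ⟨h1, h2, h3, h4⟩
      exact ⟨h1, h2, h3.le, h4⟩))
    (by
      rintro ρ ⟨h1, h2, h3, h4⟩
      refine ⟨h1, by linarith, ?_⟩
      have h5 := neg_abs_le U
      have h6 := le_abs_self U
      have : |ρ.im| ≤ |U| + H := by
        rw [abs_le]
        constructor <;> linarith
      linarith)
    (Finset.Icc ⌊U⌋ (⌊U⌋ + ⌊H⌋₊ + 1))
    (by
      rintro ρ ⟨h1, h2, h3, h4⟩
      obtain ⟨n, hn⟩ : ∃ n : ℤ, n = ⌈ρ.im⌉ - 1 := ⟨_, rfl⟩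
      have h10 : (n : ℝ) < ρ.im := by
        rw [hn]; push_cast
        have := Int.ceil_lt_add_one ρ.im
        linarith
      have h11 : ρ.im ≤ n + 1 := by
        rw [hn]; push_cast
        have := Int.le_ceil ρ.im
        linarith
      refine ⟨n, ?_, h10, h11⟩
      rw [Finset.mem_Icc]
      have f1 : (⌊U⌋ : ℝ) ≤ U := Int.floor_le U
      have f2 : U < ⌊U⌋ + 1 := Int.lt_floor_add_one U
      have f3 : H < ⌊H⌋₊ + 1 := Nat.lt_floor_add_one H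
      constructor
      · have : (⌊U⌋ : ℝ) < n + 1 := by linarith
        have h6 : ⌊U⌋ < n + 1 := by exact_mod_cast this
        omega
      · have : (n : ℝ) < ⌊U⌋ + ⌊H⌋₊ + 2 := by linarith
        have h6 : n < ⌊U⌋ + ⌊H⌋₊ + 2 := by exact_mod_cast this
        omega)
  have hcard : ((Finset.Icc ⌊U⌋ (⌊U⌋ + ⌊H⌋₊ + 1)).card : ℝ) ≤ 3 * H := by
    rw [Int.card_Icc]
    have h3 : (⌊U⌋ + ⌊H⌋₊ + 1 + 1 - ⌊U⌋).toNat = ⌊H⌋₊ + 2 := by omega
    rw [h3]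
    push_cast
    have h5 : (⌊H⌋₊ : ℝ) ≤ H := Nat.floor_le (by linarith)
    linarith
  refine h1.trans ?_
  have h2 : 12 * (2 * Real.log T + Real.log (AΦ Φ)) ≤ 12 * (2 + Real.log (AΦ Φ)) * Real.log T := by
    nlinarith
  calc _ ≤ 3 * H * (12 * (2 + Real.log (AΦ Φ)) * Real.log T) := by gcongr
    _ = _ := by ring

set_option maxHeartbeats 1000000 in
theorem fin_fam (hmv : S_HMV) (hΦ : ∀ κ, 0 < Φ κ) {a b : ArithmeticFunction ℂ} (ha : SU Φ a)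
    (hb : SU Φ b) {Ag : ℝ} (hAg : 1 ≤ Ag) {ε h₀ τ η : ℝ} (hε : 0 < ε) (hε1 : ε ≤ 1)
    (hh₀ : 0 < h₀) (hτ : 0 < τ) (hη : 0 < η) :
    ∃ A C X0 : ℝ, 0 < A ∧ 0 < C ∧ ∀ (q : ℕ) [NeZero q] (F : DirichletCharacter ℂ q → ℂ → ℂ),
      (∀ χ, LU Φ (F χ) (tw (pc χ) a) (tw (pc χ) b)) →
      (∀ χ, ∀ s : ℂ, 1 / 4 ≤ s.re → ‖F χ s‖ ≤ Ag * (q * (1 + |s.im|)) ^ 2) →
      ∀ T : ℝ, 1 ≤ T → X0 ≤ q * T → ∀ B : ℝ, 1 ≤ B → B ≤ T →
      ∀ U H : ℝ, -T ≤ U → 1 ≤ H → U + H ≤ T → ∀ σ : ℝ, 1 / 2 ≤ σ → σ ≤ 1 →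
      (∑ χ, (cntF (F χ) {ρ : ℂ | F χ ρ = 0 ∧ σ ≤ ρ.re ∧ U < ρ.im ∧ ρ.im ≤ U + H} : ℝ)) ≤
        C * (B ^ 2 * (q * T) ^ ε * (q * H) ^ (2 * (1 - σ))) +
        C * (B * Real.log (q * T) *
          (cluX F (c0 / 1024) ε h₀ τ η B (q * T) (σ - τ) (U - A * B) (U + H + A * B)).ncard) := by
  obtain ⟨δs, hδs'⟩ : ∃ δs : ℝ, δs = min (ε / 200) (τ / 2) := ⟨_, rfl⟩
  have hδs : 0 < δs := by rw [hδs']; exact lt_min (by positivity) (by positivity)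
  have hδsε : δs ≤ ε / 200 := by rw [hδs']; exact min_le_left _ _
  have hδsτ : δs ≤ τ / 2 := by rw [hδs']; exact min_le_right _ _
  obtain ⟨A1, C1, T1, hA1, hC1, hT1, h1⟩ := main_fam hmv hΦ ha hb (ε := ε / 2) (h₀ := h₀) (τ := τ)
    (η := η / 2) (δs := δs) (by positivity) (by linarith) hh₀ hτ (by positivity) hδs (by linarith)
  have ev := DH31.ev_log 2 (ε / 100) 1 (by positivity)
  obtain ⟨T4, hT4⟩ := Filter.eventually_atTop.1 ev
  have hlA : 0 ≤ Real.log (AΦ Φ) := Real.log_nonneg (AΦ_ge hΦ)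
  obtain ⟨Ct, hCt⟩ : ∃ Ct : ℝ, Ct = 36 * (2 + Real.log (AΦ Φ)) := ⟨_, rfl⟩
  have hCt0 : 0 < Ct := by rw [hCt]; positivity
  refine ⟨A1, max Ct (2 * C1), max (max T1 T4) (Ag * (A1 + 7) ^ 2), hA1, lt_max_of_lt_left hCt0, ?_⟩
  intro q _ F hF hgr T hT hX B hB1 hBT U H hU hH1 hUH σ hσ1 hσ2
  have hq1 : 1 ≤ q := Nat.one_le_iff_ne_zero.2 (NeZero.ne q)
  have hqr : (1 : ℝ) ≤ q := by exact_mod_cast hq1
  obtain ⟨X, hXdef⟩ : ∃ X : ℝ, X = q * T := ⟨_, rfl⟩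
  rw [← hXdef] at hX ⊢
  have hXT1 : T1 ≤ X := (le_max_left _ _).trans ((le_max_left _ _).trans hX)
  have hXT4 : T4 ≤ X := (le_max_right _ _).trans ((le_max_left _ _).trans hX)
  have hXA : Ag * (A1 + 7) ^ 2 ≤ X := (le_max_right _ _).trans hX
  have hX3 : 3 ≤ X := hT1.trans hXT1
  have hXpos : 0 < X := by linarith
  have hH0 : 0 < H := by linarith
  have hB0 : 0 < B := by linarith
  have hTX : T ≤ X := by rw [hXdef]; nlinarith
  have hH2T : H ≤ 2 * T := by linarith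
  have hX2 : X ≤ X ^ 2 := by nlinarith
  have hqH : q * H ≤ X ^ 2 := by
    have h2 : (q : ℝ) * H ≤ q * (2 * T) := by gcongr
    have h3 : (q : ℝ) * (2 * T) = 2 * X := by rw [hXdef]; ring
    nlinarith
  have hqB : q * B ≤ X ^ 2 := by
    have h2 : (q : ℝ) * B ≤ q * T := by gcongr
    rw [← hXdef] at h2
    linarith
  have hqH1 : 1 ≤ (q : ℝ) * H := by nlinarith
  have hqH0 : 0 < (q : ℝ) * H := by linarith
  have hXT2 : T1 ≤ X ^ 2 := hXT1.trans hX2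
  -- growth
  obtain ⟨Y, hY⟩ : ∃ Y : ℝ, Y = (A1 + 6) * T := ⟨_, rfl⟩
  have hGr : ∀ χ, Gr (F χ) (X ^ 2) Y := by
    intro χ w hw1 _ hw3
    refine (hgr χ w hw1).trans ?_
    have h2 : q * (1 + |w.im|) ≤ (A1 + 7) * X := by
      have h3 : 1 + |w.im| ≤ (A1 + 7) * T := by rw [hY] at hw3; nlinarith
      calc q * (1 + |w.im|) ≤ q * ((A1 + 7) * T) := by gcongr
        _ = _ := by rw [hXdef]; ring
    have h4 : Ag * (A1 + 7) ^ 2 ≤ X ^ 2 := hXA.trans hX2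
    calc Ag * (q * (1 + |w.im|)) ^ 2 ≤ Ag * ((A1 + 7) * X) ^ 2 := by gcongr
      _ = (Ag * (A1 + 7) ^ 2) * X ^ 2 := by ring
      _ ≤ X ^ 2 * X ^ 2 := by gcongr
      _ = (X ^ 2) ^ 2 := by ring
  have hUabs : |U| ≤ T + H := by rw [abs_le]; constructor <;> linarith
  have hUabs2 : |U| ≤ T := by rw [abs_le]; constructor <;> linarith
  have hUY : |U| + H + A1 * B ≤ Y := by
    rw [hY]
    have : A1 * B ≤ A1 * T := by gcongr
    nlinarith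
  have hUY3 : |U| + H + 3 ≤ Y := by
    rw [hY]
    nlinarith
  obtain ⟨C, hC⟩ : ∃ C : ℝ, C = max Ct (2 * C1) := ⟨_, rfl⟩
  rw [← hC]
  have hCCt : Ct ≤ C := by rw [hC]; exact le_max_left _ _
  have hCC2 : 2 * C1 ≤ C := by rw [hC]; exact le_max_right _ _
  have hCC1 : C1 ≤ C := by linarith
  have hC0 : 0 < C := lt_of_lt_of_le hCt0 hCCt
  have hlog2 : Real.log (X ^ 2) = 2 * Real.log X := by rw [Real.log_pow]; norm_num
  have hlogX0 : 0 ≤ Real.log X := Real.log_nonneg (by linarith)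
  have hlogX : 2 * Real.log X ≤ X ^ (ε / 100) := by
    have := hT4 X hXT4
    rwa [pow_one] at this
  have hXmono : ∀ x y : ℝ, x ≤ y → X ^ x ≤ X ^ y := fun x y h =>
    Real.rpow_le_rpow_of_exponent_le (by linarith) h
  have hXsq : ∀ x : ℝ, (X ^ 2) ^ x = X ^ (2 * x) := by
    intro x
    rw [← Real.rpow_natCast X 2, ← Real.rpow_mul hXpos.le]
    push_cast
    rfl
  have hXone : ∀ x : ℝ, 0 ≤ x → 1 ≤ X ^ x := fun x hx => Real.one_le_rpow (by linarith) hx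
  obtain ⟨cl, hcl⟩ : ∃ cl : ℝ, cl = ((cluX F (c0 / 1024) ε h₀ τ η B X (σ - τ) (U - A1 * B)
    (U + H + A1 * B)).ncard : ℝ) := ⟨_, rfl⟩
  rw [← hcl]
  have hcl0 : 0 ≤ cl := by rw [hcl]; exact Nat.cast_nonneg _
  have hsec0 : 0 ≤ C * (B * Real.log X * cl) := by positivity
  have hBsq : 1 ≤ B ^ 2 := one_le_pow₀ hB1
  rcases lt_or_ge (σ - 3 * δs) (1 / 2) with hcase | hcase
  · -- trivial range
    have h3 : ∀ χ, (cntF (F χ) {ρ : ℂ | F χ ρ = 0 ∧ σ ≤ ρ.re ∧ U < ρ.im ∧ ρ.im ≤ U + H} : ℝ) ≤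
        Ct * (H * Real.log (X ^ 2)) := by
      intro χ
      rw [hCt]
      exact triv_fam hΦ (T := X ^ 2) (by linarith) ((hF χ).ez hΦ) (hGr χ) hH1 hUY3 hσ1
    have hcardq : (Fintype.card (DirichletCharacter ℂ q) : ℝ) ≤ q := by
      have h5 : Nat.card (DirichletCharacter ℂ q) = q.totient :=
        DirichletCharacter.card_eq_totient_of_hasEnoughRootsOfUnity ℂ q
      rw [Nat.card_eq_fintype_card] at h5
      rw [h5]
      exact_mod_cast Nat.totient_le q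
    have h4 : (∑ χ, (cntF (F χ) {ρ : ℂ | F χ ρ = 0 ∧ σ ≤ ρ.re ∧ U < ρ.im ∧ ρ.im ≤ U + H} : ℝ)) ≤
        q * (Ct * (H * Real.log (X ^ 2))) := by
      refine (Finset.sum_le_sum fun χ _ => h3 χ).trans ?_
      rw [Finset.sum_const, nsmul_eq_mul, Finset.card_univ]
      have : 0 ≤ Ct * (H * Real.log (X ^ 2)) := by rw [hlog2]; positivity
      gcongr
    have hHH : q * H ≤ (q * H) ^ (2 * (1 - σ)) * X ^ (ε / 5) := by
      have h1 : (q : ℝ) * H = (q * H) ^ (2 * (1 - σ)) * (q * H) ^ (2 * σ - 1) := by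
        rw [← Real.rpow_add hqH0]
        have : 2 * (1 - σ) + (2 * σ - 1) = 1 := by ring
        rw [this, Real.rpow_one]
      have h2 : (q * H) ^ (2 * σ - 1) ≤ X ^ (ε / 5) := by
        calc (q * H) ^ (2 * σ - 1) ≤ (X ^ 2) ^ (2 * σ - 1) := by
              apply Real.rpow_le_rpow hqH0.le hqH; linarith
          _ = X ^ (2 * (2 * σ - 1)) := hXsq _
          _ ≤ X ^ (ε / 5) := hXmono _ _ (by linarith)
      calc (q : ℝ) * H = (q * H) ^ (2 * (1 - σ)) * (q * H) ^ (2 * σ - 1) := h1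
        _ ≤ _ := by gcongr
    have h5 : q * (Ct * (H * Real.log (X ^ 2))) ≤ C * (B ^ 2 * X ^ ε * (q * H) ^ (2 * (1 - σ))) := by
      rw [hlog2]
      calc q * (Ct * (H * (2 * Real.log X))) = Ct * ((q * H) * (2 * Real.log X)) := by ring
        _ ≤ C * (((q * H) ^ (2 * (1 - σ)) * X ^ (ε / 5)) * X ^ (ε / 100)) := by gcongr
        _ = C * (1 * (X ^ (ε / 5) * X ^ (ε / 100)) * (q * H) ^ (2 * (1 - σ))) := by ring
        _ ≤ C * (B ^ 2 * X ^ ε * (q * H) ^ (2 * (1 - σ))) := by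
            rw [← Real.rpow_add hXpos]
            have : X ^ (ε / 5 + ε / 100) ≤ X ^ ε := hXmono _ _ (by linarith)
            gcongr
    linarith
  · have h3 := h1 (X ^ 2) hXT2 q F hF Y hGr B hB1 U H hH1 hqH hqB hUY σ hcase hσ2
    refine h3.trans (add_le_add ?_ ?_)
    · have h4 : (q * H) ^ (2 * (1 - (σ - 3 * δs))) ≤ (q * H) ^ (2 * (1 - σ)) * X ^ (ε / 10) := by
        have h5 : (q * H) ^ (2 * (1 - (σ - 3 * δs))) =
            (q * H) ^ (2 * (1 - σ)) * (q * H) ^ (6 * δs) := by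
          rw [← Real.rpow_add hqH0]
          congr 1
          ring
        rw [h5]
        have h6 : (q * H) ^ (6 * δs) ≤ X ^ (ε / 10) := by
          calc (q * H) ^ (6 * δs) ≤ (X ^ 2) ^ (6 * δs) := by
                apply Real.rpow_le_rpow hqH0.le hqH; positivity
            _ = X ^ (2 * (6 * δs)) := hXsq _
            _ ≤ X ^ (ε / 10) := hXmono _ _ (by linarith)
        gcongr
      have h7 : (X ^ 2) ^ (8 * (ε / 2 / 10)) = X ^ (8 * (ε / 10)) := by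
        rw [hXsq]; congr 1; ring
      rw [h7, hlog2]
      have h8 : X ^ (8 * (ε / 10)) * X ^ (ε / 10) * X ^ (ε / 100) ≤ X ^ ε := by
        rw [← Real.rpow_add hXpos, ← Real.rpow_add hXpos]
        exact hXmono _ _ (by linarith)
      calc C1 * (B ^ 2 * (X ^ (8 * (ε / 10)) * (q * H) ^ (2 * (1 - (σ - 3 * δs)))) *
            (2 * Real.log X)) ≤
            C * (B ^ 2 * (X ^ (8 * (ε / 10)) * ((q * H) ^ (2 * (1 - σ)) * X ^ (ε / 10))) *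
              X ^ (ε / 100)) := by gcongr
        _ = C * (B ^ 2 * (X ^ (8 * (ε / 10)) * X ^ (ε / 10) * X ^ (ε / 100)) *
              (q * H) ^ (2 * (1 - σ))) := by ring
        _ ≤ C * (B ^ 2 * X ^ ε * (q * H) ^ (2 * (1 - σ))) := by gcongr
    · have h9 : ((cluSet F (ε / 2) h₀ τ (η / 2) B (X ^ 2) (σ - 2 * δs) (U - A1 * B)
          (U + H + A1 * B)).ncard : ℝ) ≤ cl := by
        rw [hcl]
        have h10 : cluSet F (ε / 2) h₀ τ (η / 2) B (X ^ 2) (σ - 2 * δs) (U - A1 * B)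
            (U + H + A1 * B) ⊆ cluX F (c0 / 1024) ε h₀ τ η B X (σ - τ) (U - A1 * B)
            (U + H + A1 * B) := by
          rintro ⟨χ, n⟩ ⟨g1, g2, w, g3, g4, g5, g6⟩
          exact ⟨g1, g2, w, by linarith, g4, g5, g6.toX hε hε1 hh₀ (by linarith)⟩
        exact_mod_cast Set.ncard_le_ncard h10 (cluX_finite _ _ _ _ _ _ _ _ _ _ _)
      rw [hlog2]
      calc C1 * (B * (2 * Real.log X) * ((cluSet F (ε / 2) h₀ τ (η / 2) B (X ^ 2) (σ - 2 * δs)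
            (U - A1 * B) (U + H + A1 * B)).ncard : ℝ)) ≤
            C1 * (B * (2 * Real.log X) * cl) := by gcongr
        _ = 2 * C1 * (B * Real.log X * cl) := by ring
        _ ≤ C * (B * Real.log X * cl) := by gcongr

end Pool.Agent.K9h52.HY
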