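import Pool.Agent.K9h52.HY.Base

/-!
`F` in a disc with centre `2 + iy` that contains few zeros.
-/

open Complex Metric Set Filter Topology

namespace Pool.Agent.K9h52.HY

open H370 H370.Loc DH31 DX

variable {A₀ : ℝ}

/-- `F` in a disc with centre `2 + iy` that contains few zeros -/
theorem EZ.light (hA1 : 1 ≤ A₀) {δ ν : ℝ} (hδ : 0 < δ) (hδ1 : δ ≤ 1 / 8) (hν : 0 < ν) :
    ∃ η : ℝ, 0 < η ∧ ∃ T0 : ℝ, 1 ≤ T0 ∧ ∀ F : ℂ → ℂ, EZ A₀ F →
      ∀ T : ℝ, T0 ≤ T → ∀ Y : ℝ, Gr F T Y → ∀ y : ℝ, |y| + 2 ≤ Y → ∀ R R3 : ℝ,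
      3 / 4 ≤ R → R + δ ≤ R3 → R3 ≤ 7 / 4 →
      (∀ S : Finset ℂ, (∀ z ∈ S, z ∈ closedBall (⟨2, y⟩ : ℂ) R ∧ F z = 0) →
        ∑ z ∈ S, (mult F z : ℝ) ≤ η * Real.log T) →
      ∃ (s : Multiset ℂ) (g : ℂ → ℂ), (∀ ρ ∈ s, ρ ∈ closedBall (⟨2, y⟩ : ℂ) R) ∧
        (Multiset.card s : ℝ) ≤ ν * Real.log T ∧
        AnalyticOnNhd ℂ g (closedBall (⟨2, y⟩ : ℂ) R3) ∧ (∀ z, F z = Pf s z * g z) ∧
        (∀ z ∈ closedBall (⟨2, y⟩ : ℂ) R, g z ≠ 0) ∧
        (∀ z ∈ closedBall (⟨2, y⟩ : ℂ) R3, ‖g z‖ ≤ Real.exp (3 * Real.log T)) ∧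
        (∀ z ∈ closedBall (⟨2, y⟩ : ℂ) (R - δ),
          Real.exp (-(ν * Real.log T)) ≤ ‖g z‖ ∧ ‖g z‖ ≤ Real.exp (ν * Real.log T)) := by
  obtain ⟨A, hAeq⟩ : ∃ A : ℝ, A = A₀ := ⟨_, rfl⟩
  rw [← hAeq] at hA1 ⊢
  have hlogδ : 0 ≤ Real.log (1 / δ) := Real.log_nonneg (by rw [le_div_iff₀ hδ]; linarith)
  have hlogA : 0 ≤ Real.log A := Real.log_nonneg hA1
  set D : ℝ := 32 / δ ^ 2 * (4 + Real.log (1 / δ)) with hD
  have hD0 : 0 < D := by positivity
  obtain ⟨K, hK⟩ := exists_pow_lt_of_lt_one (show 0 < ν / 4 / D by positivity)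
    (show 1 - δ / 4 < 1 by linarith)
  have hq0 : 0 ≤ 1 - δ / 4 := by linarith
  rw [lt_div_iff₀ hD0] at hK
  set G : ℝ := K * 8 ^ K with hG
  have hG0 : 0 ≤ G := by positivity
  set E : ℝ := 1 + 4 * G with hE
  have hE0 : 0 < E := by positivity
  set C : ℝ := 2 * Real.log A + 2 * (2 * Real.log A + 1) * G +
    32 / δ ^ 2 * (Real.log A + 1) with hC
  have hC0 : 0 ≤ C := by positivity
  have hE2 : 0 < Real.log (1 / δ) + 1 := by positivity
  refine ⟨min (min 1 ν) (min (ν / 4 / E) (1 / (Real.log (1 / δ) + 1))),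
    lt_min (lt_min one_pos hν) (lt_min (by positivity) (by positivity)),
    max 30 (Real.exp (4 * C / ν)), (le_max_left _ _).trans' (by norm_num), ?_⟩
  intro F hF T hT Y hGr y hyT R R3 hR hR3 hR3' hN
  have hA := hF.bds
  set η' := min (min 1 ν) (min (ν / 4 / E) (1 / (Real.log (1 / δ) + 1))) with hη'
  have hη'0 : 0 < η' := lt_min (lt_min one_pos hν) (lt_min (by positivity) (by positivity))
  have hη'1 : η' ≤ 1 := (min_le_left _ _).trans (min_le_left _ _)
  have hη'ν : η' ≤ ν := (min_le_left _ _).trans (min_le_right _ _)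
  have hη'2 : η' * E ≤ ν / 4 := by
    have : η' ≤ ν / 4 / E := (min_le_right _ _).trans (min_le_left _ _)
    rwa [le_div_iff₀ hE0] at this
  have hη'3 : η' * (Real.log (1 / δ) + 1) ≤ 1 := by
    have : η' ≤ 1 / (Real.log (1 / δ) + 1) := (min_le_right _ _).trans (min_le_right _ _)
    rwa [le_div_iff₀ hE2] at this
  have hT10 : 30 ≤ T := (le_max_left _ _).trans hT
  have hT0 : 0 < T := by linarith
  have hL : 4 * C / ν ≤ Real.log T := by
    rw [Real.le_log_iff_exp_le hT0]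
    exact (le_max_right _ _).trans hT
  have hL0 : 0 ≤ Real.log T := Real.log_nonneg (by linarith)
  rw [div_le_iff₀ hν] at hL
  set L := Real.log T with hLdef
  have hsubim : ∀ w ∈ closedBall (⟨2, y⟩ : ℂ) R3, 1 / 4 ≤ w.re ∧ w.re ≤ 4 ∧ |w.im| ≤ Y := by
    intro w hw
    have h1 := ball_re_im hw
    have h2 := abs_le.1 h1.2
    have hwn : ‖w - ⟨2, y⟩‖ ≤ R3 := by rwa [mem_closedBall, dist_eq_norm] at hw
    have h3 := abs_le.1 ((Complex.abs_re_le_norm (w - ⟨2, y⟩)).trans hwn)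
    simp only [Complex.sub_re] at h3
    refine ⟨by linarith, by linarith, ?_⟩
    have h4 : |w.im| ≤ |w.im - y| + |y| := by
      calc |w.im| = |(w.im - y) + y| := by congr 1; ring
        _ ≤ _ := abs_add_le _ _
    have h5 := h1.2
    linarith
  have key := light_abs (f := F) (c := ⟨2, y⟩) (R := R) (R3 := R3) (δ := δ)
    (n := η' * L) (M := T ^ 2) (A := A) (a := A) hδ hδ1 hR hR3 (by linarith)
    (by nlinarith) hA1 hA1 (by positivity)
    (fun w _ => hF.an w)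
    (fun w hw => by
      obtain ⟨h1, h2, h3⟩ := hsubim w hw
      exact hGr w h1 h2 h3)
    (fun w hw => (hA w (by have := (ball_re_im hw).1; linarith)).1)
    (hA _ (by simp only; norm_num)).2
    (by
      intro w hw hw0
      by_contra hcon
      push Not at hcon
      have h2 := abs_le.1 ((Complex.abs_re_le_norm (w - ⟨2, y⟩)))
      simp only [Complex.sub_re] at h2
      exact hF.ne w (by linarith [h2.1]) hw0)
    (fun S hS => hN S hS) K
  obtain ⟨s, g, h1, h2, h3, h4, h5, h6, h7⟩ := key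
  have hp : 0 ≤ (1 - δ / 4) ^ K := by positivity
  have hp1 : (1 - δ / 4) ^ K ≤ 1 := pow_le_one₀ hq0 (by linarith)
  have hbig : Real.log A + Real.log A + η' * L +
          (2 * (Real.log A + Real.log A + 2 * (η' * L) + 1) * (K * 8 ^ K) +
          8 * (Real.log (T ^ 2) + Real.log A + η' * L * Real.log (1 / δ) + η' * L + 1) / δ *
            (1 - δ / 4) ^ K * (4 / δ)) ≤ ν * L := by
    rw [Real.log_pow, ← hG]
    push_cast
    rw [← hLdef]
    have e1 : η' * L + 4 * (η' * L) * G ≤ ν / 4 * L := by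
      have : η' * L + 4 * (η' * L) * G = η' * E * L := by rw [hE]; ring
      rw [this]
      exact mul_le_mul_of_nonneg_right hη'2 hL0
    have e2 : 32 / δ ^ 2 * (2 * L + η' * L * Real.log (1 / δ) + η' * L) *
        (1 - δ / 4) ^ K ≤ ν / 4 * L := by
      have h1 : 2 * L + η' * L * Real.log (1 / δ) + η' * L ≤ L * (4 + Real.log (1 / δ)) := by
        have a1 : η' * L * Real.log (1 / δ) ≤ 1 * L * Real.log (1 / δ) := by gcongr
        have a2 : η' * L ≤ 1 * L := by gcongr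
        linarith
      calc 32 / δ ^ 2 * (2 * L + η' * L * Real.log (1 / δ) + η' * L) *
        (1 - δ / 4) ^ K ≤ 32 / δ ^ 2 * (L * (4 + Real.log (1 / δ))) *
        (1 - δ / 4) ^ K := by gcongr
        _ = ((1 - δ / 4) ^ K * D) * L := by rw [hD]; ring
        _ ≤ ν / 4 * L := mul_le_mul_of_nonneg_right hK.le hL0
    have e3 : 32 / δ ^ 2 * (Real.log A + 1) * (1 - δ / 4) ^ K ≤ 32 / δ ^ 2 * (Real.log A + 1) :=
      mul_le_of_le_one_right (by positivity) hp1
    have e4 : 8 * (2 * L + Real.log A + η' * L * Real.log (1 / δ) + η' * L + 1) / δ *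
        (1 - δ / 4) ^ K * (4 / δ) = 32 / δ ^ 2 * (2 * L + η' * L * Real.log (1 / δ) + η' * L) *
        (1 - δ / 4) ^ K + 32 / δ ^ 2 * (Real.log A + 1) * (1 - δ / 4) ^ K := by
      field_simp
      ring
    rw [e4]
    have e5 : C ≤ ν / 4 * L := by linarith
    rw [hC] at e5
    have e6 : 2 * (Real.log A + Real.log A + 2 * (η' * L) + 1) * G =
        2 * (2 * Real.log A + 1) * G + 4 * (η' * L) * G := by ring
    rw [e6]
    have e7 : 0 ≤ ν * L := by positivity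
    linarith
  refine ⟨s, g, h1, h2.trans ?_, h3, h4, h5, ?_, ?_⟩
  · gcongr
  · intro z hz
    refine (h6 z hz).trans (Real.exp_le_exp.2 ?_)
    rw [Real.log_pow]
    push_cast
    rw [← hLdef]
    have : η' * L * Real.log (1 / δ) ≤ 1 * L := by
      have : η' * L * Real.log (1 / δ) = η' * Real.log (1 / δ) * L := by ring
      rw [this]
      have : η' * Real.log (1 / δ) ≤ 1 := by linarith
      gcongr
    linarith
  · intro z hz
    obtain ⟨h8, h9⟩ := h7 z hz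
    refine ⟨le_trans (Real.exp_le_exp.2 ?_) h8, h9.trans (Real.exp_le_exp.2 hbig)⟩
    linarith

end Pool.Agent.K9h52.HY
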