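import Pool.Agent.K9h52.HY.Base

/-!
Uniform bound for the number of zeros in unit windows.
-/

open Complex Metric Set Filter Topology

namespace Pool.Agent.K9h52.HY

open H370 H370.Loc DH31 DX

variable {F : ℂ → ℂ} {A₀ : ℝ}

/-- the number of zeros at distance at most `1/2` from a height -/
lemma EZ.unit_count (hF : EZ A₀ F) (hA1 : 1 ≤ A₀) {T Y t : ℝ} (hT : 1 ≤ T) (hGr : Gr F T Y)
    (ht : |t| + 2 ≤ Y) (S : Finset ℂ)
    (hS : ∀ ρ ∈ S, 1 / 2 ≤ ρ.re ∧ ρ.re ≤ 1 ∧ |ρ.im - t| ≤ 1 / 2) :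
    ∑ ρ ∈ S, (analyticOrderNatAt F ρ : ℝ) ≤ 12 * (2 * Real.log T + Real.log A₀) := by
  have hlT : 0 ≤ Real.log T := Real.log_nonneg hT
  set z0 : ℂ := (2 : ℂ) + (t : ℂ) * I with hz0
  have h0re : z0.re = 2 := by simp [hz0]
  have h0im : z0.im = t := by simp [hz0]
  have hball : ∀ z ∈ closedBall z0 (7 / 4), 1 / 4 ≤ z.re ∧ z.re ≤ 4 ∧ |z.im| ≤ Y := by
    intro z hz
    rw [mem_closedBall_iff_norm] at hz
    have e1 := (Complex.abs_re_le_norm (z - z0)).trans hz
    have e2 := (Complex.abs_im_le_norm (z - z0)).trans hz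
    rw [Complex.sub_re, h0re] at e1
    rw [Complex.sub_im, h0im] at e2
    obtain ⟨a1, a2⟩ := abs_le.mp e1
    refine ⟨by linarith, by linarith, ?_⟩
    have : |z.im| ≤ |z.im - t| + |t| := by
      calc |z.im| = |(z.im - t) + t| := by congr 1; ring
        _ ≤ _ := abs_add_le _ _
    linarith
  have hζan : AnalyticOnNhd ℂ F (closedBall z0 (7 / 4)) := fun z _ => hF.diff.analyticAt z
  have hc : 0 < 1 / A₀ := by positivity
  have hlow0 := (hF.bds z0 (by rw [h0re]; norm_num)).2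
  have hz0ne : F z0 ≠ 0 := by
    intro h; rw [h, norm_zero] at hlow0; linarith
  have hdist : ∀ ρ ∈ S, 0 < ‖z0 - ρ‖ ∧ ‖z0 - ρ‖ ≤ 8 / 5 := by
    intro ρ hρ
    obtain ⟨h1, h2, h3⟩ := hS ρ hρ
    obtain ⟨h4, h5⟩ := abs_le.mp h3
    have hd2 : ‖z0 - ρ‖ ^ 2 = (2 - ρ.re) ^ 2 + (t - ρ.im) ^ 2 := by
      rw [← Complex.normSq_eq_norm_sq, Complex.normSq_apply, Complex.sub_re, Complex.sub_im, h0re, h0im]
      ring
    constructor
    · rw [norm_pos_iff]
      intro h6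
      have := congrArg Complex.re h6
      rw [Complex.sub_re, h0re] at this
      simp at this
      linarith
    · have h6 : ‖z0 - ρ‖ ^ 2 ≤ (8 / 5) ^ 2 := by
        rw [hd2]
        nlinarith
      exact (pow_le_pow_iff_left₀ (norm_nonneg _) (by norm_num) (by norm_num)).mp h6
  have hJ := Pool.Agent.Y24.jensen_low (h := F) (c := z0) (R := 7 / 4) (by norm_num) hζan hz0ne S
    (analyticOrderNatAt F) (fun _ => 1 / 12)
    (fun ρ _ _ => le_rfl) (fun ρ _ => by norm_num)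
    (fun ρ hρ _ => by
      obtain ⟨h1, h2⟩ := hdist ρ hρ
      have h3 : (35:ℝ) / 32 ≤ 7 / 4 * ‖z0 - ρ‖⁻¹ := by
        rw [← div_eq_mul_inv, le_div_iff₀ h1]; linarith
      have h4 : (1:ℝ) / 12 ≤ Real.log (35 / 32) := by
        have := Real.one_sub_inv_le_log_of_pos (show (0:ℝ) < 35 / 32 by norm_num)
        norm_num at this
        linarith
      exact h4.trans (Real.log_le_log (by norm_num) h3))
    (fun ρ hρ hρB => by
      exfalso
      apply hρB
      rw [mem_closedBall, dist_eq_norm']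
      linarith [(hdist ρ hρ).2])
  have hbd : ∀ z ∈ sphere z0 |7 / 4|, Real.log ‖F z‖ ≤ 2 * Real.log T := by
    intro z hz
    rw [abs_of_pos (by norm_num : (0:ℝ) < 7 / 4)] at hz
    obtain ⟨b1, b2, b3⟩ := hball z (sphere_subset_closedBall hz)
    rcases (norm_nonneg (F z)).eq_or_lt with h0 | h0
    · rw [← h0, Real.log_zero]; positivity
    · have h1 := hGr z b1 b2 b3
      calc Real.log ‖F z‖ ≤ Real.log (T ^ 2) := Real.log_le_log h0 h1
        _ = _ := by rw [Real.log_pow]; norm_num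
  have hci : CircleIntegrable (fun z => Real.log ‖F z‖) z0 (7 / 4) := by
    apply MeromorphicOn.circleIntegrable_log_norm
    rw [abs_of_pos (by norm_num : (0:ℝ) < 7 / 4)]
    exact (hζan.mono sphere_subset_closedBall).meromorphicOn
  have havg := Real.circleAverage_mono_on_of_le_circle hci hbd
  have hlc : -Real.log A₀ ≤ Real.log ‖F z0‖ := by
    have := Real.log_le_log hc hlow0
    rwa [one_div, Real.log_inv] at this
  rw [← Finset.sum_mul] at hJ
  linarith

/-- from unit windows to zeros -/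
theorem EZ.windows (hF : EZ A₀ F) (hA1 : 1 ≤ A₀) {T Y : ℝ} (hT : 1 ≤ T) (hGr : Gr F T Y)
    {A : Set ℂ} (hAf : A.Finite) (hA : ∀ ρ ∈ A, F ρ = 0 ∧ 1 / 2 ≤ ρ.re ∧ |ρ.im| + 3 ≤ Y) (S : Finset ℤ)
    (hS : ∀ ρ ∈ A, ∃ n ∈ S, (n : ℝ) < ρ.im ∧ ρ.im ≤ n + 1) :
    (cntF F A : ℝ) ≤ (S.card : ℝ) * (12 * (2 * Real.log T + Real.log A₀)) := by
  classical
  have hlT : 0 ≤ Real.log T := Real.log_nonneg hT
  have hlA : 0 ≤ Real.log A₀ := Real.log_nonneg hA1
  set U := hAf.toFinset with hU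
  set W : ℤ → Finset ℂ := fun n => U.filter (fun s => (n : ℝ) < s.im ∧ s.im ≤ n + 1) with hW
  have h3 : ∑ s ∈ U, (analyticOrderNatAt F s : ℝ) ≤ ∑ n ∈ S, ∑ s ∈ W n, (analyticOrderNatAt F s : ℝ) := by
    have hsub : U ⊆ S.biUnion W := by
      intro s hs
      rw [hU, Set.Finite.mem_toFinset] at hs
      obtain ⟨n, hn, hn1, hn2⟩ := hS s hs
      rw [Finset.mem_biUnion]
      refine ⟨n, hn, ?_⟩
      simp only [hW]
      rw [Finset.mem_filter, hU, Set.Finite.mem_toFinset]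
      exact ⟨hs, hn1, hn2⟩
    have hdisj : (S : Set ℤ).PairwiseDisjoint W := by
      intro a _ b _ hab
      rw [Function.onFun, Finset.disjoint_left]
      intro s hsa hsb
      simp only [hW, Finset.mem_filter] at hsa hsb
      apply hab
      have e1 : (a : ℝ) < b + 1 := lt_of_lt_of_le hsa.2.1 hsb.2.2
      have e2 : (b : ℝ) < a + 1 := lt_of_lt_of_le hsb.2.1 hsa.2.2
      have e3 : a < b + 1 := by exact_mod_cast e1
      have e4 : b < a + 1 := by exact_mod_cast e2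
      omega
    rw [← Finset.sum_biUnion hdisj]
    exact Finset.sum_le_sum_of_subset_of_nonneg hsub fun _ _ _ => Nat.cast_nonneg _
  have h4 : ∀ n ∈ S, ∑ s ∈ W n, (analyticOrderNatAt F s : ℝ) ≤
      12 * (2 * Real.log T + Real.log A₀) := by
    intro n hn
    rcases (W n).eq_empty_or_nonempty with hemp | ⟨s0, hs0⟩
    · rw [hemp, Finset.sum_empty]
      positivity
    simp only [hW, Finset.mem_filter, hU, Set.Finite.mem_toFinset] at hs0
    have hs0A := hA s0 hs0.1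
    refine hF.unit_count hA1 hT hGr (t := n + 1 / 2) ?_ (W n) ?_
    · have h5 : |(n : ℝ) + 1 / 2| ≤ |s0.im| + 1 / 2 := by
        have h6 : |(n : ℝ) + 1 / 2 - s0.im| ≤ 1 / 2 := by
          rw [abs_le]; constructor <;> linarith [hs0.2.1, hs0.2.2]
        calc |(n : ℝ) + 1 / 2| = |((n : ℝ) + 1 / 2 - s0.im) + s0.im| := by congr 1; ring
          _ ≤ |(n : ℝ) + 1 / 2 - s0.im| + |s0.im| := abs_add_le _ _
          _ ≤ _ := by linarith
      linarith [hs0A.2.2]
    · intro ρ hρ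
      simp only [hW, Finset.mem_filter, hU, Set.Finite.mem_toFinset] at hρ
      have hA' := hA ρ hρ.1
      refine ⟨hA'.2.1, hF.re_le hA'.1, ?_⟩
      rw [abs_le]
      constructor <;> linarith [hρ.2.1, hρ.2.2]
  have h1 : (cntF F A : ℝ) = ∑ s ∈ U, (analyticOrderNatAt F s : ℝ) := by
    rw [cntF_eq hAf]
    push_cast
    rfl
  rw [h1]
  calc _ ≤ ∑ n ∈ S, ∑ s ∈ W n, (analyticOrderNatAt F s : ℝ) := h3
    _ ≤ ∑ n ∈ S, 12 * (2 * Real.log T + Real.log A₀) := Finset.sum_le_sum h4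
    _ = (S.card : ℝ) * (12 * (2 * Real.log T + Real.log A₀)) := by
          rw [Finset.sum_const, nsmul_eq_mul]

end Pool.Agent.K9h52.HY
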