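import Pool.Agent.K9h52.HY.Dich
import Pool.Agent.K9h52.HY.Unit
import Pool.Agent.K9h52.HY.DetC

/-!
The number of zeros of the twists in terms of the number of extremal clusters.
-/

open Complex Metric Set Filter Topology

namespace Pool.Agent.K9h52.HY

open H370 H370.Loc DH31 DX

variable {Φ : ℝ → ℝ}

/-- the pairs of a character and a unit interval between `V₁` and `V₂` with an extremal cluster with edge
at least `σ` -/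
def cluSet {q : ℕ} (F : DirichletCharacter ℂ q → ℂ → ℂ) (ε h₀ τ η B T σ V₁ V₂ : ℝ) :
    Set (DirichletCharacter ℂ q × ℤ) :=
  {p | V₁ ≤ p.2 ∧ (p.2 : ℝ) ≤ V₂ ∧ ∃ w : ℂ, σ ≤ w.re ∧ (p.2 : ℝ) ≤ w.im ∧ w.im ≤ p.2 + 1 ∧
    ExtF (F p.1) ε h₀ τ η B T w}

lemma cluSet_finite {q : ℕ} [NeZero q] (F : DirichletCharacter ℂ q → ℂ → ℂ)
    (ε h₀ τ η B T σ V₁ V₂ : ℝ) : (cluSet F ε h₀ τ η B T σ V₁ V₂).Finite := by
  refine (Set.finite_univ.prod (Set.finite_Icc ⌈V₁⌉ ⌊V₂⌋)).subset ?_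
  rintro ⟨χ, n⟩ ⟨h1, h2, -⟩
  exact ⟨Set.mem_univ _, Int.ceil_le.2 h1, Int.le_floor.2 h2⟩

lemma sum_card_pairs {ι : Type*} [Fintype ι] (Cl : ι → Finset ℤ) {A : Set (ι × ℤ)}
    (hA : A.Finite) (h : ∀ χ, ∀ n ∈ Cl χ, (χ, n) ∈ A) : ∑ χ, (Cl χ).card ≤ A.ncard := by
  classical
  rw [← Finset.card_sigma, ← Finset.card_map (Equiv.sigmaEquivProd ι ℤ).toEmbedding,
    ← Set.ncard_coe_finset]
  apply Set.ncard_le_ncard _ hA
  intro p hp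
  rw [Finset.mem_coe, Finset.mem_map] at hp
  obtain ⟨⟨χ, n⟩, h1, rfl⟩ := hp
  rw [Finset.mem_sigma] at h1
  exact h χ n h1.2

lemma card_coverZ {S G : Finset ℤ} {a : ℕ}
    (h : ∀ n ∈ S, ∃ n' ∈ G, n ≤ n' + a ∧ n' ≤ n + a) :
    S.card ≤ (2 * a + 1) * G.card := by
  classical
  have h1 : S ⊆ G.biUnion (fun n' => Finset.Icc (n' - a) (n' + a)) := by
    intro n hn
    rw [Finset.mem_biUnion]
    obtain ⟨n', h2, h3, h4⟩ := h n hn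
    refine ⟨n', h2, ?_⟩
    rw [Finset.mem_Icc]
    omega
  refine (Finset.card_le_card h1).trans (Finset.card_biUnion_le.trans ?_)
  calc ∑ n' ∈ G, (Finset.Icc (n' - (a : ℤ)) (n' + a)).card ≤ ∑ n' ∈ G, (2 * a + 1) := by
        refine Finset.sum_le_sum fun n' _ => ?_
        rw [Int.card_Icc]
        omega
    _ = (2 * a + 1) * G.card := by
        rw [Finset.sum_const, smul_eq_mul, mul_comm]

set_option maxHeartbeats 1000000 in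
theorem main_fam (hmv : S_HMV) (hΦ : ∀ κ, 0 < Φ κ) {a b : ArithmeticFunction ℂ} (ha : SU Φ a)
    (hb : SU Φ b) {ε h₀ τ η δs : ℝ} (hε : 0 < ε) (hε1 : ε ≤ 1)
    (hh₀ : 0 < h₀) (hτ : 0 < τ) (hη : 0 < η) (hδs : 0 < δs) (hδs1 : δs ≤ 1 / 20) :
    ∃ A C T0 : ℝ, 0 < A ∧ 0 < C ∧ 3 ≤ T0 ∧ ∀ T : ℝ, T0 ≤ T → ∀ (q : ℕ) [NeZero q],
      ∀ F : DirichletCharacter ℂ q → ℂ → ℂ, (∀ χ, LU Φ (F χ) (tw (pc χ) a) (tw (pc χ) b)) →
      ∀ Y : ℝ, (∀ χ, Gr (F χ) T Y) → ∀ B : ℝ, 1 ≤ B → ∀ U H : ℝ, 1 ≤ H → q * H ≤ T → q * B ≤ T →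
      |U| + H + A * B ≤ Y → ∀ σ : ℝ, 1 / 2 ≤ σ - 3 * δs → σ ≤ 1 →
      (∑ χ, (cntF (F χ) {ρ : ℂ | F χ ρ = 0 ∧ σ ≤ ρ.re ∧ U < ρ.im ∧ ρ.im ≤ U + H} : ℝ)) ≤
        C * (B ^ 2 * (T ^ (8 * (ε / 10)) * (q * H) ^ (2 * (1 - (σ - 3 * δs)))) * Real.log T) +
        C * (B * Real.log T *
          (cluSet F ε h₀ τ η B T (σ - 2 * δs) (U - A * B) (U + H + A * B)).ncard) := by
  classical
  obtain ⟨Δ, hΔ, N, T1, hT1, hdich⟩ := EZ.dichotomy (AΦ_ge hΦ) hε hε1 hh₀ hτ hη hδs hδs1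
  obtain ⟨κ, hκ'⟩ : ∃ κ : ℝ, κ = ε / 10 := ⟨_, rfl⟩
  have hκ : 0 < κ := by rw [hκ']; positivity
  rw [← hκ']
  obtain ⟨A1, hA1'⟩ : ∃ A1 : ℝ, A1 = 4 * N + 12 := ⟨_, rfl⟩
  have hN0' : (0 : ℝ) ≤ N := Nat.cast_nonneg N
  have hA1 : 1 ≤ A1 := by rw [hA1']; linarith
  obtain ⟨C0, hC0'⟩ : ∃ C0 : ℝ, C0 = 2 * A1 + 4 := ⟨_, rfl⟩
  have hC0 : 0 < C0 := by rw [hC0']; positivity
  have hdc := fun (δ : ℝ) (hδ : δ ∈ Δ) => det_fam hmv hΦ ha hb (κ := κ) (δ := δ) (C0 := C0) (ς := δs)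
    hκ (by linarith) (hΔ δ hδ).1 (hΔ δ hδ).2 hδs (by linarith) hC0
  choose! Cd hCd Td hTd hdet using hdc
  obtain ⟨T2, hT2⟩ := Finset.exists_le (Δ.image Td)
  obtain ⟨Ct, hCt⟩ : ∃ Ct : ℝ, Ct = ∑ δ ∈ Δ, Cd δ := ⟨_, rfl⟩
  have hCt0 : 0 ≤ Ct := by rw [hCt]; exact Finset.sum_nonneg fun δ hδ => (hCd δ hδ).le
  have hlA : 0 ≤ Real.log (AΦ Φ) := Real.log_nonneg (AΦ_ge hΦ)
  obtain ⟨C3, hC3'⟩ : ∃ C3 : ℝ, C3 = 12 * (2 + Real.log (AΦ Φ)) := ⟨_, rfl⟩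
  have hC3 : 0 < C3 := by rw [hC3']; positivity
  refine ⟨2 * A1 + 4, (2 * A1 + 1) * (Ct + 1) * C3,
    max (max T1 T2) 3, by positivity, by positivity, le_max_right _ _, ?_⟩
  intro T hT q _ F hF Y hGr B hB1 U H hH1 hqHT hqBT hUY σ hσ1 hσ2
  have hTT1 : T1 ≤ T := (le_max_left _ _).trans ((le_max_left _ _).trans hT)
  have hTT2 : T2 ≤ T := (le_max_right _ _).trans ((le_max_left _ _).trans hT)
  have hT3 : 3 ≤ T := (le_max_right _ _).trans hT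
  have hTpos : 0 < T := by linarith
  have hH0 : 0 < H := by linarith
  have hB0 : 0 < B := by linarith
  have hq1 : 1 ≤ q := Nat.one_le_iff_ne_zero.2 (NeZero.ne q)
  have hqr : (1 : ℝ) ≤ q := by exact_mod_cast hq1
  have hEZ : ∀ χ, EZ (AΦ Φ) (F χ) := fun χ => (hF χ).ez hΦ
  obtain ⟨A0, hA0⟩ : ∃ A0 : ℝ, A0 = N * (B + 3) + 10 := ⟨_, rfl⟩
  have hA0pos : 0 < A0 := by rw [hA0]; positivity
  obtain ⟨a', ha'⟩ : ∃ a' : ℕ, a' = ⌈A0⌉₊ + 1 := ⟨_, rfl⟩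
  have haA : A0 + 1 ≤ a' := by
    rw [ha']; push_cast
    have := Nat.le_ceil A0
    linarith
  have haA1 : (a' : ℝ) ≤ A1 * B := by
    have h1 : (a' : ℝ) ≤ A0 + 2 := by
      rw [ha']; push_cast
      have := (Nat.ceil_lt_add_one hA0pos.le).le
      linarith
    rw [hA0] at h1
    rw [hA1']
    nlinarith
  have hABY : |U| + H + N * (B + 3) + 10 ≤ Y := by
    have h1 : N * (B + 3) + 10 ≤ (2 * A1 + 4) * B := by
      rw [hA1']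
      nlinarith
    linarith
  have hNB3 : 0 ≤ (N : ℝ) * (B + 3) := by positivity
  obtain ⟨AA, hAA⟩ : ∃ AA : DirichletCharacter ℂ q → Set ℂ, AA = fun χ =>
    {ρ : ℂ | F χ ρ = 0 ∧ σ ≤ ρ.re ∧ U < ρ.im ∧ ρ.im ≤ U + H} := ⟨_, rfl⟩
  have hAAm : ∀ χ ρ, ρ ∈ AA χ → F χ ρ = 0 ∧ σ ≤ ρ.re ∧ U < ρ.im ∧ ρ.im ≤ U + H := by
    intro χ ρ h
    rw [hAA] at h
    exact h
  have hAAf : ∀ χ, (AA χ).Finite := by
    intro χ
    refine ((hEZ χ).fin_region σ U (U + H)).subset ?_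
    intro ρ h
    obtain ⟨h1, h2, h3, h4⟩ := hAAm χ ρ h
    exact ⟨h1, h2, h3.le, h4⟩
  have himY : ∀ χ ρ, ρ ∈ AA χ → |ρ.im| ≤ |U| + H := by
    intro χ ρ h
    obtain ⟨h1, h2, h3, h4⟩ := hAAm χ ρ h
    have h5 := neg_abs_le U
    have h6 := le_abs_self U
    rw [abs_le]
    constructor <;> linarith
  obtain ⟨P, hP⟩ : ∃ P : DirichletCharacter ℂ q → ℤ → Prop, P = fun χ (n : ℤ) =>
    ∃ ρ ∈ AA χ, (n : ℝ) < ρ.im ∧ ρ.im ≤ (n : ℝ) + 1 := ⟨_, rfl⟩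
  obtain ⟨S, hS⟩ : ∃ S : DirichletCharacter ℂ q → Finset ℤ, S = fun χ =>
    (Finset.Icc ⌊U⌋ (⌊U⌋ + ⌊H⌋₊ + 1)).filter (P χ) := ⟨_, rfl⟩
  have hSP : ∀ χ, ∀ n ∈ S χ, (⌊U⌋ ≤ n ∧ n ≤ ⌊U⌋ + ⌊H⌋₊ + 1) ∧
      ∃ ρ ∈ AA χ, (n : ℝ) < ρ.im ∧ ρ.im ≤ n + 1 := by
    intro χ n hn
    rw [hS] at hn
    have h1 := Finset.mem_filter.1 hn
    refine ⟨Finset.mem_Icc.1 h1.1, ?_⟩
    have h2 := h1.2
    rw [hP] at h2
    exact h2
  have hlog1 : 1 ≤ Real.log T := by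
    rw [Real.le_log_iff_exp_le hTpos]
    have := Real.exp_one_lt_d9
    linarith
  have hcnt : ∀ χ, (cntF (F χ) (AA χ) : ℝ) ≤ ((S χ).card : ℝ) * (C3 * Real.log T) := by
    intro χ
    have h1 := (hEZ χ).windows (AΦ_ge hΦ) (T := T) (Y := Y) (by linarith) (hGr χ) (hAAf χ)
      (by
        intro ρ hρ
        obtain ⟨h1, h2, h3, h4⟩ := hAAm χ ρ hρ
        have h5 := himY χ ρ hρ
        exact ⟨h1, by linarith, by linarith⟩) (S χ)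
      (by
        intro ρ hρ
        obtain ⟨h1, h2, h3, h4⟩ := hAAm χ ρ hρ
        obtain ⟨n, hn⟩ : ∃ n : ℤ, n = ⌈ρ.im⌉ - 1 := ⟨_, rfl⟩
        have h10 : (n : ℝ) < ρ.im := by
          rw [hn]; push_cast
          have := Int.ceil_lt_add_one ρ.im
          linarith
        have h11 : ρ.im ≤ n + 1 := by
          rw [hn]; push_cast
          have := Int.le_ceil ρ.im
          linarith
        refine ⟨n, ?_, h10, h11⟩
        rw [hS, hP]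
        refine Finset.mem_filter.2 ⟨?_, ρ, hρ, h10, h11⟩
        rw [Finset.mem_Icc]
        have f1 : (⌊U⌋ : ℝ) ≤ U := Int.floor_le U
        have f2 : U < ⌊U⌋ + 1 := Int.lt_floor_add_one U
        have f3 : H < ⌊H⌋₊ + 1 := Nat.lt_floor_add_one H
        constructor
        · have : (⌊U⌋ : ℝ) < n + 1 := by linarith
          have h6 : ⌊U⌋ < n + 1 := by exact_mod_cast this
          omega
        · have : (n : ℝ) < ⌊U⌋ + ⌊H⌋₊ + 2 := by linarith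
          have h6 : n < ⌊U⌋ + ⌊H⌋₊ + 2 := by exact_mod_cast this
          omega)
    refine h1.trans ?_
    have h2 : 12 * (2 * Real.log T + Real.log (AΦ Φ)) ≤ C3 * Real.log T := by
      rw [hC3']
      nlinarith
    gcongr
  obtain ⟨σ', hσ'⟩ : ∃ σ' : ℝ, σ' = σ - 2 * δs := ⟨_, rfl⟩
  have hσ'3 : σ - 3 * δs = σ' - δs := by rw [hσ']; ring
  rw [hσ'3] at hσ1 ⊢
  rw [← hσ']
  obtain ⟨cl, hcl⟩ : ∃ cl : ℝ, cl = ((cluSet F ε h₀ τ η B T σ' (U - (2 * A1 + 4) * B)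
    (U + H + (2 * A1 + 4) * B)).ncard : ℝ) := ⟨_, rfl⟩
  rw [← hcl]
  have hcl0 : 0 ≤ cl := by rw [hcl]; positivity
  obtain ⟨M0, hM0⟩ : ∃ M0 : ℤ, M0 = ⌊U⌋ - a' := ⟨_, rfl⟩
  obtain ⟨N0, hN0⟩ : ∃ N0 : ℕ, N0 = ⌊H⌋₊ + 2 * a' + 3 := ⟨_, rfl⟩
  obtain ⟨H2, hH2⟩ : ∃ H2 : ℝ, H2 = max H B := ⟨_, rfl⟩
  have hH2H : H ≤ H2 := by rw [hH2]; exact le_max_left _ _
  have hH2B : B ≤ H2 := by rw [hH2]; exact le_max_right _ _
  have hqH2T : q * H2 ≤ T := by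
    rw [hH2]
    rcases le_total H B with h | h
    · rw [max_eq_right h]; exact hqBT
    · rw [max_eq_left h]; exact hqHT
  have hH2HB : H2 ≤ H * B := by
    rw [hH2]
    apply max_le
    · nlinarith
    · nlinarith
  have hN0H : (N0 : ℝ) ≤ C0 * H2 := by
    rw [hN0, hC0']
    push_cast
    have h5 : (⌊H⌋₊ : ℝ) ≤ H := Nat.floor_le hH0.le
    have h6 : A1 * B ≤ A1 * H2 := by gcongr
    have h7 : 1 ≤ H2 := hH1.trans hH2H
    nlinarith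
  obtain ⟨W, hW⟩ : ∃ W : Finset ℤ, W = Finset.Ico M0 (M0 + N0) := ⟨_, rfl⟩
  let D : ℝ → DirichletCharacter ℂ q → Finset ℤ := fun δ χ => W.filter fun n =>
    ∃ y : ℝ, (n : ℝ) ≤ y ∧ y ≤ n + 1 ∧
    ∃ r : ℝ, 0 < r ∧ r ≤ 2 - σ' ∧ ∃ ρ : ℂ, F χ ρ = 0 ∧ ‖ρ - ⟨2, y⟩‖ ≤ r ∧
      ∀ z ∈ closedBall (⟨2, y⟩ : ℂ) (r + δ), ‖F χ z‖ ≤ T ^ (κ / 200 * δ)
  let Cl : DirichletCharacter ℂ q → Finset ℤ := fun χ => W.filter fun n =>
    ∃ w : ℂ, σ' ≤ w.re ∧ (n : ℝ) ≤ w.im ∧ w.im ≤ n + 1 ∧ ExtF (F χ) ε h₀ τ η B T w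
  have hcov : ∀ χ, ∀ n ∈ S χ, ∃ n' ∈ (Δ.biUnion fun δ => D δ χ) ∪ Cl χ,
      n ≤ n' + a' ∧ n' ≤ n + a' := by
    intro χ n hn
    obtain ⟨⟨hn1, hn2⟩, ρ, hρ, h4, h5⟩ := hSP χ n hn
    obtain ⟨a1, a2, a3, a4⟩ := hAAm χ ρ hρ
    have him := himY χ ρ hρ
    obtain ⟨y, hy, hor⟩ := hdich (F χ) (hEZ χ) T hTT1 Y (hGr χ) B hB1 ρ a1 (by linarith) (by linarith)
    rw [abs_le] at hy
    obtain ⟨n', hn'⟩ : ∃ n' : ℤ, n' = ⌊y⌋ := ⟨_, rfl⟩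
    have g1 : (n' : ℝ) ≤ y := by rw [hn']; exact Int.floor_le y
    have g2 : y < n' + 1 := by rw [hn']; exact Int.lt_floor_add_one y
    have g3 : n ≤ n' + a' := by
      have : (n : ℝ) < n' + a' := by linarith [hy.1]
      exact_mod_cast this.le
    have g4 : n' ≤ n + a' := by
      have : (n' : ℝ) < n + a' := by linarith [hy.2]
      exact_mod_cast this.le
    have g5 : n' ∈ W := by
      rw [hW, Finset.mem_Ico, hM0, hN0]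
      push_cast
      omega
    refine ⟨n', ?_, g3, g4⟩
    rw [Finset.mem_union]
    rcases hor with ⟨δ, hδ, r, hr0, hr, ρ', b1, b2, b3⟩ | ⟨w, b1, b2, b3⟩
    · left
      rw [Finset.mem_biUnion]
      refine ⟨δ, hδ, Finset.mem_filter.2 ⟨g5, y, g1, g2.le, r, hr0,
        by linarith, ρ', b1, b2, ?_⟩⟩
      intro z hz
      have e0 : κ / 200 * δ = ε / 2000 * δ := by rw [hκ']; ring
      rw [e0]
      exact b3 z hz
    · right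
      refine Finset.mem_filter.2 ⟨g5, w, by linarith, ?_, ?_, b3⟩
      · rw [b1]; exact g1
      · rw [b1]; exact g2.le
  obtain ⟨Z, hZ⟩ : ∃ Z : ℝ, Z = T ^ (8 * κ) * (q * H) ^ (2 * (1 - (σ' - δs))) := ⟨_, rfl⟩
  have hqH1 : 1 ≤ (q : ℝ) * H := by nlinarith
  have hZ0 : 0 ≤ Z := by rw [hZ]; positivity
  have he0 : 0 ≤ 2 * (1 - (σ' - δs)) := by linarith
  have he1 : 2 * (1 - (σ' - δs)) ≤ 1 := by linarith
  have hDcard : ∀ δ ∈ Δ, (∑ χ, ((D δ χ).card : ℝ)) ≤ Cd δ * (Z * B) := by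
    intro δ hδ
    have hTd' : Td δ ≤ T := (hT2 _ (Finset.mem_image_of_mem _ hδ)).trans hTT2
    refine (hdet δ hδ T hTd' q H2 (hH1.trans hH2H) hqH2T σ' hσ1 (by linarith) F hF M0 N0 hN0H (D δ)
      (fun χ => by rw [← hW]; exact Finset.filter_subset _ _)
      (fun χ n hn => (Finset.mem_filter.1 hn).2)).trans ?_
    have h1 : (q * H2) ^ (2 * (1 - (σ' - δs))) ≤ (q * H) ^ (2 * (1 - (σ' - δs))) * B := by
      calc (q * H2) ^ (2 * (1 - (σ' - δs))) ≤ ((q * H) * B) ^ (2 * (1 - (σ' - δs))) := by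
            apply Real.rpow_le_rpow (mul_nonneg (by linarith) (by linarith)) _ he0
            calc (q : ℝ) * H2 ≤ q * (H * B) := by gcongr
              _ = _ := by ring
        _ = (q * H) ^ (2 * (1 - (σ' - δs))) * B ^ (2 * (1 - (σ' - δs))) :=
            Real.mul_rpow (by positivity) hB0.le
        _ ≤ (q * H) ^ (2 * (1 - (σ' - δs))) * B ^ (1 : ℝ) := by
            have := Real.rpow_le_rpow_of_exponent_le hB1 he1
            gcongr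
        _ = _ := by rw [Real.rpow_one]
    have h2 : T ^ (8 * κ) * (q * H2) ^ (2 * (1 - (σ' - δs))) ≤ Z * B := by
      rw [hZ, mul_assoc]
      gcongr
    exact mul_le_mul_of_nonneg_left h2 (hCd δ hδ).le
  have hClcard : (∑ χ, ((Cl χ).card : ℝ)) ≤ cl := by
    have h2 := sum_card_pairs Cl (cluSet_finite F ε h₀ τ η B T σ' (U - (2 * A1 + 4) * B)
      (U + H + (2 * A1 + 4) * B)) (by
      intro χ n hn
      obtain ⟨hnW, hw⟩ := Finset.mem_filter.1 hn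
      rw [hW, Finset.mem_Ico, hM0, hN0] at hnW
      push_cast at hnW
      have f1 : (⌊U⌋ : ℝ) ≤ U := Int.floor_le U
      have f2 : U < ⌊U⌋ + 1 := Int.lt_floor_add_one U
      have f3 : (⌊H⌋₊ : ℝ) ≤ H := Nat.floor_le hH0.le
      have f4 : (2 * A1 + 4) * B = 2 * (A1 * B) + 4 * B := by ring
      have f5 : 0 ≤ A1 * B := by positivity
      refine ⟨?_, ?_, hw⟩
      · simp only
        have h5 : ⌊U⌋ ≤ n + a' := by omega
        have h6 : (⌊U⌋ : ℝ) ≤ n + a' := by exact_mod_cast h5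
        linarith
      · simp only
        have h5 : n ≤ ⌊U⌋ + ⌊H⌋₊ + a' + 3 := by omega
        have h6 : (n : ℝ) ≤ ⌊U⌋ + ⌊H⌋₊ + a' + 3 := by exact_mod_cast h5
        linarith)
    rw [hcl]
    exact_mod_cast h2
  have hScard : ∀ χ, ((S χ).card : ℝ) ≤ (2 * a' + 1) * (∑ δ ∈ Δ, ((D δ χ).card : ℝ) +
      ((Cl χ).card : ℝ)) := by
    intro χ
    have h1 := card_coverZ (hcov χ)
    have h2 : ((Δ.biUnion fun δ => D δ χ) ∪ Cl χ).card ≤ ∑ δ ∈ Δ, (D δ χ).card + (Cl χ).card :=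
      (Finset.card_union_le _ _).trans (Nat.add_le_add_right Finset.card_biUnion_le _)
    have h3 : (S χ).card ≤ (2 * a' + 1) * (∑ δ ∈ Δ, (D δ χ).card + (Cl χ).card) :=
      h1.trans (Nat.mul_le_mul_left _ h2)
    exact_mod_cast h3
  have hSsum : (∑ χ, ((S χ).card : ℝ)) ≤ (2 * a' + 1) * (Ct * (Z * B) + cl) := by
    calc (∑ χ, ((S χ).card : ℝ)) ≤ ∑ χ, (2 * (a' : ℝ) + 1) * (∑ δ ∈ Δ, ((D δ χ).card : ℝ) +
          ((Cl χ).card : ℝ)) := Finset.sum_le_sum fun χ _ => hScard χ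
      _ = (2 * a' + 1) * (∑ δ ∈ Δ, ∑ χ, ((D δ χ).card : ℝ) + ∑ χ, ((Cl χ).card : ℝ)) := by
          rw [← Finset.mul_sum, Finset.sum_add_distrib, Finset.sum_comm]
      _ ≤ (2 * a' + 1) * (∑ δ ∈ Δ, Cd δ * (Z * B) + cl) := by
          have := Finset.sum_le_sum hDcard
          gcongr
      _ = _ := by rw [hCt, Finset.sum_mul]
  have hAAeq : ∀ χ, AA χ = {ρ : ℂ | F χ ρ = 0 ∧ σ ≤ ρ.re ∧ U < ρ.im ∧ ρ.im ≤ U + H} := by
    intro χ; rw [hAA]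
  rw [← hZ]
  have hL0 : 0 ≤ Real.log T := by linarith
  calc (∑ χ, (cntF (F χ) {ρ : ℂ | F χ ρ = 0 ∧ σ ≤ ρ.re ∧ U < ρ.im ∧ ρ.im ≤ U + H} : ℝ))
      = ∑ χ, (cntF (F χ) (AA χ) : ℝ) := Finset.sum_congr rfl fun χ _ => by rw [hAAeq]
    _ ≤ ∑ χ, ((S χ).card : ℝ) * (C3 * Real.log T) := Finset.sum_le_sum fun χ _ => hcnt χ
    _ = (∑ χ, ((S χ).card : ℝ)) * (C3 * Real.log T) := by rw [Finset.sum_mul]
    _ ≤ ((2 * a' + 1) * (Ct * (Z * B) + cl)) * (C3 * Real.log T) := by gcongr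
    _ ≤ (((2 * A1 + 1) * B) * (Ct * (Z * B) + cl)) * (C3 * Real.log T) := by
        have h1 : 2 * (a' : ℝ) + 1 ≤ (2 * A1 + 1) * B := by nlinarith
        have h2 : 0 ≤ Ct * (Z * B) + cl := by positivity
        gcongr
    _ = (2 * A1 + 1) * Ct * C3 * (B ^ 2 * Z * Real.log T) +
        (2 * A1 + 1) * C3 * (B * Real.log T * cl) := by ring
    _ ≤ (2 * A1 + 1) * (Ct + 1) * C3 * (B ^ 2 * Z * Real.log T) +
        (2 * A1 + 1) * (Ct + 1) * C3 * (B * Real.log T * cl) := by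
        have h1 : 0 ≤ B ^ 2 * Z * Real.log T := by positivity
        have h2 : 0 ≤ B * Real.log T * cl := by positivity
        have h3 : (2 * A1 + 1) * Ct * C3 ≤ (2 * A1 + 1) * (Ct + 1) * C3 := by gcongr; linarith
        have h4 : (2 * A1 + 1) * C3 ≤ (2 * A1 + 1) * (Ct + 1) * C3 := by
          have : (2 * A1 + 1) * C3 * 1 ≤ (2 * A1 + 1) * C3 * (Ct + 1) :=
            mul_le_mul_of_nonneg_left (by linarith) (by positivity)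
          linarith
        exact add_le_add (mul_le_mul_of_nonneg_right h3 h1) (mul_le_mul_of_nonneg_right h4 h2)

end Pool.Agent.K9h52.HY
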