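import Pool.Agent.K9h52.HY.ECF
import Pool.Agent.H82R3.EK.Count

/-!
Shift of the variable and products.
-/

open Complex Metric Set Filter Topology

namespace Pool.Agent.K9h52.HY

open H370 H370.Loc DH31 DX

lemma order_sh (L : ℂ → ℂ) (s : ℂ) :
    analyticOrderNatAt (fun z => L (z - 1 / 2)) (s + 1 / 2) = analyticOrderNatAt L s := by
  have hg : AnalyticAt ℂ (fun z : ℂ => z - 1 / 2) (s + 1 / 2) := by fun_prop
  have hd : deriv (fun z : ℂ => z - 1 / 2) (s + 1 / 2) ≠ 0 := by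
    simp
  have h := analyticOrderAt_comp_of_deriv_ne_zero (f := L) hg hd
  unfold analyticOrderNatAt
  have h2 : (fun z : ℂ => L (z - 1 / 2)) = L ∘ (fun z : ℂ => z - 1 / 2) := rfl
  rw [h2, h]
  norm_num

lemma cntF_sh (L : ℂ → ℂ) {S S' : Set ℂ} (h : ∀ s, s ∈ S' ↔ s - 1 / 2 ∈ S) :
    cntF (fun z => L (z - 1 / 2)) S' = cntF L S := by
  have h1 : S' = (fun s : ℂ => s + 1 / 2) '' S := by
    ext s
    rw [h s]
    constructor
    · intro h2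
      exact ⟨s - 1 / 2, h2, by ring⟩
    · rintro ⟨t, ht, rfl⟩
      simpa using ht
  have hinj : Function.Injective (fun s : ℂ => s + 1 / 2) := fun a b h => by
    simpa using h
  unfold cntF
  rw [h1, finsum_mem_image hinj.injOn]
  refine finsum_congr fun s => finsum_congr fun _ => ?_
  exact order_sh L s

lemma ExtX.sh {c ε h₀ τ η B X : ℝ} {L : ℂ → ℂ} {w : ℂ} (h : ExtX c ε h₀ τ η B X L w) :
    ExtX c ε h₀ τ η B X (fun z => L (z - 1 / 2)) (w + 1 / 2) := by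
  obtain ⟨h1, h2, h3⟩ := h
  have hwr : (w + 1 / 2 : ℂ).re = w.re + 1 / 2 := by simp
  have hwi : (w + 1 / 2 : ℂ).im = w.im := by simp
  refine ⟨?_, ?_, ?_⟩
  · intro b hb
    rw [hwi] at hb
    refine le_of_eq_of_le ?_ (h1 b hb)
    rw [hwr]
    congr 1
    apply cntF_sh
    intro s
    have e1 : (s - 1 / 2 : ℂ).re = s.re - 1 / 2 := by simp
    have e2 : (s - 1 / 2 : ℂ).im = s.im := by simp
    simp only [Set.mem_setOf_eq, e1, e2]
    constructor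
    · rintro ⟨a1, a2, a3⟩
      exact ⟨a1, by linarith, a3⟩
    · rintro ⟨a1, a2, a3⟩
      exact ⟨a1, by linarith, a3⟩
  · intro h hh hh1
    obtain ⟨b, hb1, hb2⟩ := h2 h hh hh1
    refine ⟨b, by rw [hwi]; exact hb1, hb2.trans (le_of_eq ?_)⟩
    congr 1
    symm
    apply cntF_sh
    intro s
    unfold ZdF
    simp only [Set.mem_setOf_eq]
    have e1 : s - (⟨(w + 1 / 2 : ℂ).re, b⟩ : ℂ) = s - 1 / 2 - (⟨w.re, b⟩ : ℂ) := by
      rw [hwr]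
      apply Complex.ext
      · simp; ring
      · simp
    rw [e1]
  · intro δ hδ hδ1
    obtain ⟨z, hz1, hz2, hz3⟩ := h3 δ hδ hδ1
    have e1 : (z + 1 / 2 : ℂ).re = z.re + 1 / 2 := by simp
    have e2 : (z + 1 / 2 : ℂ).im = z.im := by simp
    refine ⟨z + 1 / 2, ?_, ?_, ?_⟩
    · rw [e1, hwr, add_sub_add_right_eq_sub]; exact hz1
    · rw [e2, hwi]; exact hz2
    · simpa using hz3

lemma cntF_prod {ι : Type*} [Fintype ι] {A₀ : ℝ} (G : ι → ℂ → ℂ) (hG : ∀ i, EZ A₀ (G i)) (σ U V : ℝ) :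
    cntF (fun s => ∏ i, G i s) {s : ℂ | ∏ i, G i s = 0 ∧ σ ≤ s.re ∧ U < s.im ∧ s.im ≤ V} =
      ∑ i, cntF (G i) {s : ℂ | G i s = 0 ∧ σ ≤ s.re ∧ U < s.im ∧ s.im ≤ V} := by
  have key := Pool.Agent.H82R3.EK.cnt_prod (Finset.univ : Finset ι) G
    (W := {s : ℂ | σ ≤ s.re ∧ U < s.im ∧ s.im ≤ V})
    (fun i _ s _ => (hG i).an s)
    (fun i _ s _ => by
      exact order_ne_top (K := Set.univ) isPreconnected_univ (fun v _ => (hG i).an v)
        (Set.mem_univ (⟨2, 0⟩ : ℂ)) ((hG i).ne2 0) (Set.mem_univ s))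
    (fun i _ => ((hG i).fin_region σ U V).subset (by
      rintro s ⟨⟨h1, h2, h3⟩, h4⟩
      exact ⟨h4, h1, h2.le, h3⟩))
  have e1 : ∀ F : ℂ → ℂ, cntF F {s : ℂ | F s = 0 ∧ σ ≤ s.re ∧ U < s.im ∧ s.im ≤ V} =
      Pool.Agent.H82R3.EK.cnt F {s : ℂ | σ ≤ s.re ∧ U < s.im ∧ s.im ≤ V} := by
    intro F
    unfold cntF Pool.Agent.H82R3.EK.cnt
    have : {s : ℂ | F s = 0 ∧ σ ≤ s.re ∧ U < s.im ∧ s.im ≤ V} =
        {s : ℂ | s ∈ {s : ℂ | σ ≤ s.re ∧ U < s.im ∧ s.im ≤ V} ∧ F s = 0} := by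
      ext s
      exact ⟨fun h => ⟨h.2, h.1⟩, fun h => ⟨h.2, h.1⟩⟩
    rw [this]
    rfl
  rw [e1 (fun s => ∏ i, G i s), key]
  refine Finset.sum_congr rfl fun i _ => ?_
  rw [← e1 (G i)]

end Pool.Agent.K9h52.HY
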