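import Pool.Agent.K9h52.HY.Base
import Pool.Agent.K9h52.GX.DetCount

/-!
Twists of Dirichlet series, with uniform constants.
-/

open Complex Metric Set Filter Topology

namespace Pool.Agent.K9h52.HY

open DH31 DX GX

/-- uniformly small coefficients -/
def SU (Φ : ℝ → ℝ) (a : ArithmeticFunction ℂ) : Prop :=
  ∀ κ : ℝ, 0 < κ → ∀ n : ℕ, 1 ≤ n → ‖a n‖ ≤ Φ κ * (n : ℝ) ^ κ

/-- the class of L-functions, with uniform constants -/
structure LU (Φ : ℝ → ℝ) (F : ℂ → ℂ) (a b : ArithmeticFunction ℂ) : Prop where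
  lx : LX F a b
  sa : SU Φ a
  sb : SU Φ b

variable {Φ : ℝ → ℝ} {F : ℂ → ℂ} {a b : ArithmeticFunction ℂ}

lemma SU.sm (hΦ : ∀ κ, 0 < Φ κ) (h : SU Φ a) : Sm a := fun κ hκ => ⟨Φ κ, hΦ κ, h κ hκ⟩

lemma wsum : Summable (fun m : ℕ => 1 / (m : ℝ) ^ (5 / 4 : ℝ)) :=
  Real.summable_one_div_nat_rpow.mpr (by norm_num)

/-- the sum of `n ^ (-5/4)` -/
noncomputable def W0 : ℝ := ∑' m : ℕ, 1 / (m : ℝ) ^ (5 / 4 : ℝ)

lemma W0_nonneg : 0 ≤ W0 := tsum_nonneg fun m => by positivity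

lemma SU.bdd (h : SU Φ a) {s : ℂ} (hs : 3 / 2 ≤ s.re) :
    ‖LSeries (fun n => a n) s‖ ≤ Φ (1 / 4) * W0 := by
  have h3 : ∀ n, ‖LSeries.term (fun n => a n) s n‖ ≤ Φ (1 / 4) * (1 / (n : ℝ) ^ (5 / 4 : ℝ)) := by
    intro n
    rcases Nat.eq_zero_or_pos n with rfl | hn
    · rw [LSeries.term_zero, norm_zero, Nat.cast_zero, Real.zero_rpow (by norm_num)]
      simp
    · rw [LSeries.term_of_ne_zero hn.ne', norm_div, Complex.norm_natCast_cpow_of_pos hn]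
      have hn1 : (1 : ℝ) ≤ n := by exact_mod_cast hn
      have hn0 : (0 : ℝ) < n := by linarith
      have h5 := h (1 / 4) (by norm_num) n hn
      have h6 : (n : ℝ) ^ (3 / 2 : ℝ) ≤ (n : ℝ) ^ s.re := Real.rpow_le_rpow_of_exponent_le hn1 hs
      have h7 : 0 < (n : ℝ) ^ (3 / 2 : ℝ) := by positivity
      have h8 : (n : ℝ) ^ (3 / 2 : ℝ) = (n : ℝ) ^ (1 / 4 : ℝ) * (n : ℝ) ^ (5 / 4 : ℝ) := by
        rw [← Real.rpow_add hn0]; norm_num
      have h9 : 0 ≤ Φ (1 / 4) * (n : ℝ) ^ (1 / 4 : ℝ) := (norm_nonneg _).trans h5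
      calc ‖a n‖ / (n : ℝ) ^ s.re ≤ (Φ (1 / 4) * (n : ℝ) ^ (1 / 4 : ℝ)) / (n : ℝ) ^ (3 / 2 : ℝ) := by
            gcongr
        _ = _ := by
            rw [h8]
            have : (n : ℝ) ^ (1 / 4 : ℝ) ≠ 0 := by positivity
            have h2 : (n : ℝ) ^ (5 / 4 : ℝ) ≠ 0 := by positivity
            field_simp
  unfold LSeries
  have h4 := (wsum.mul_left (Φ (1 / 4))).hasSum
  rw [tsum_mul_left] at h4
  exact tsum_of_norm_bounded h4 h3

/-- the bound for `Re s ≥ 3 / 2` -/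
noncomputable def AΦ (Φ : ℝ → ℝ) : ℝ := 1 + Φ (1 / 4) * W0

lemma AΦ_ge (hΦ : ∀ κ, 0 < Φ κ) : 1 ≤ AΦ Φ := by
  unfold AΦ
  have := W0_nonneg
  have := hΦ (1 / 4)
  nlinarith [mul_nonneg (hΦ (1 / 4)).le W0_nonneg]

lemma LU.ez (hΦ : ∀ κ, 0 < Φ κ) (h : LU Φ F a b) : EZ (AΦ Φ) F where
  diff := h.lx.diff
  ne := h.lx.ez.ne
  bds := fun s hs => by
    have hA := AΦ_ge hΦ
    have h1 := h.sa.bdd hs
    have h2 := h.sb.bdd hs
    have h3 := h.lx.one (s := s) (by linarith)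
    constructor
    · rw [h.lx.ser s (by linarith)]
      refine h1.trans ?_
      unfold AΦ
      linarith
    · have h4 : ‖F s‖ * ‖LSeries (fun n => b n) s‖ = 1 := by rw [← norm_mul, h3, norm_one]
      have h5 : ‖LSeries (fun n => b n) s‖ ≤ AΦ Φ := by unfold AΦ; linarith
      rw [div_le_iff₀ (by linarith)]
      calc (1 : ℝ) = ‖F s‖ * ‖LSeries (fun n => b n) s‖ := h4.symm
        _ ≤ _ := mul_le_mul_of_nonneg_left h5 (norm_nonneg _)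

lemma cX_boundU {κ : ℝ} (hκ : 0 < κ) (hΦ : ∀ κ, 0 < Φ κ) : ∃ C : ℝ, 1 ≤ C ∧
    ∀ a b : ArithmeticFunction ℂ, SU Φ a → SU Φ b → ∀ X n : ℕ, 1 ≤ n →
    ‖cX a b X n‖ ≤ C * (n : ℝ) ^ κ := by
  obtain ⟨D, hD, h3⟩ := div_bound (ε := κ / 2) (by positivity)
  have hA := hΦ (κ / 2)
  refine ⟨Φ (κ / 2) * Φ (κ / 2) * D + 1, by
    have : 0 ≤ Φ (κ / 2) * Φ (κ / 2) * D := by positivity
    linarith, fun a b ha hb X n hn => ?_⟩
  have h1 := ha (κ / 2) (by positivity)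
  have h2 := hb (κ / 2) (by positivity)
  have h4 : ∀ n : ℕ, 1 ≤ n → ‖tb b X n‖ ≤ Φ (κ / 2) * (n : ℝ) ^ (κ / 2) := by
    intro n hn
    rw [tb_apply]
    split_ifs
    · exact h2 n hn
    · rw [norm_zero]; positivity
  have hn0 : (0 : ℝ) < n := by exact_mod_cast hn
  refine (norm_mul_le_of hA.le hA.le h1 h4 hn).trans ?_
  calc Φ (κ / 2) * Φ (κ / 2) * ((n.divisors.card : ℝ) * (n : ℝ) ^ (κ / 2)) ≤
        Φ (κ / 2) * Φ (κ / 2) * ((D * (n : ℝ) ^ (κ / 2)) * (n : ℝ) ^ (κ / 2)) := by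
        have := h3 n hn
        gcongr
    _ = Φ (κ / 2) * Φ (κ / 2) * D * ((n : ℝ) ^ (κ / 2) * (n : ℝ) ^ (κ / 2)) := by ring
    _ = Φ (κ / 2) * Φ (κ / 2) * D * (n : ℝ) ^ κ := by
        rw [← Real.rpow_add hn0]
        congr 2
        ring
    _ ≤ _ := by
        have : 0 ≤ (n : ℝ) ^ κ := by positivity
        nlinarith

lemma SU.BX_le (hb : SU Φ b) (X : ℕ) (s : ℂ) (hs : 1 / 4 ≤ s.re) : ‖BX b X s‖ ≤ Φ (1 / 4) * X := by
  unfold BX
  have key : ∀ m ∈ Finset.Icc 1 X, ‖b m * (m : ℂ) ^ (-s)‖ ≤ Φ (1 / 4) := by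
    intro m hm
    rw [Finset.mem_Icc] at hm
    have hm1 : (1 : ℝ) ≤ m := by exact_mod_cast hm.1
    have hm0 : (0 : ℝ) < m := by linarith
    rw [norm_mul, Complex.norm_natCast_cpow_of_pos (by omega), Complex.neg_re]
    have h2 : (m : ℝ) ^ (-s.re) ≤ (m : ℝ) ^ (-(1 / 4) : ℝ) :=
      Real.rpow_le_rpow_of_exponent_le hm1 (by linarith)
    have h3 := hb (1 / 4) (by norm_num) m hm.1
    calc ‖b m‖ * (m : ℝ) ^ (-s.re) ≤ (Φ (1 / 4) * (m : ℝ) ^ (1 / 4 : ℝ)) * (m : ℝ) ^ (-(1 / 4) : ℝ) :=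
          mul_le_mul h3 h2 (by positivity) ((norm_nonneg _).trans h3)
      _ = Φ (1 / 4) * ((m : ℝ) ^ (1 / 4 : ℝ) * (m : ℝ) ^ (-(1 / 4) : ℝ)) := by ring
      _ = Φ (1 / 4) := by
          rw [← Real.rpow_add hm0]
          norm_num
  refine (norm_sum_le_of_le _ key).trans ?_
  simp only [Finset.sum_const, Nat.card_Icc, add_tsub_cancel_right, nsmul_eq_mul]
  rw [mul_comm]

/-! ### twists -/

/-- the twist by a function `u` -/
noncomputable def tw (u : ℕ → ℂ) (f : ArithmeticFunction ℂ) : ArithmeticFunction ℂ :=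
  ⟨fun n => f n * u n, by simp⟩

lemma tw_apply (u : ℕ → ℂ) (f : ArithmeticFunction ℂ) (n : ℕ) : tw u f n = f n * u n := rfl

lemma tw_mul {u : ℕ → ℂ} (hu : ∀ m n, u (m * n) = u m * u n) (f g : ArithmeticFunction ℂ) :
    tw u (f * g) = tw u f * tw u g := by
  ext n
  rw [tw_apply, ArithmeticFunction.mul_apply, ArithmeticFunction.mul_apply, Finset.sum_mul]
  refine Finset.sum_congr rfl fun x hx => ?_
  rw [Nat.mem_divisorsAntidiagonal] at hx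
  rw [tw_apply, tw_apply, ← hx.1, hu]
  ring

lemma tw_one {u : ℕ → ℂ} (h1 : u 1 = 1) : tw u 1 = 1 := by
  ext n
  rw [tw_apply]
  by_cases hn : n = 1
  · rw [hn, h1, mul_one]
  · rw [ArithmeticFunction.one_apply_ne hn, zero_mul]

lemma tw_pow {u : ℕ → ℂ} (h1 : u 1 = 1) (hu : ∀ m n, u (m * n) = u m * u n)
    (f : ArithmeticFunction ℂ) (m : ℕ) : tw u (f ^ m) = (tw u f) ^ m := by
  induction m with
  | zero => rw [pow_zero, pow_zero, tw_one h1]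
  | succ m ih => rw [pow_succ, pow_succ, tw_mul hu, ih]

lemma tw_tb (u : ℕ → ℂ) (b : ArithmeticFunction ℂ) (X : ℕ) : tb (tw u b) X = tw u (tb b X) := by
  ext n
  rw [tb_apply, tw_apply, tw_apply, tb_apply]
  split_ifs
  · rfl
  · rw [zero_mul]

lemma cX_tw {u : ℕ → ℂ} (hu : ∀ m n, u (m * n) = u m * u n) (a b : ArithmeticFunction ℂ) (X n : ℕ) :
    cX (tw u a) (tw u b) X n = cX a b X n * u n := by
  unfold cX
  rw [tw_tb, ← tw_mul hu, tw_apply]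

lemma bdF_tw {u : ℕ → ℂ} (hu : ∀ m n, u (m * n) = u m * u n) (a b : ArithmeticFunction ℂ) (r : ℝ)
    (k X n : ℕ) : bdF (tw u a) (tw u b) r k X n = bdF a b r k X n * u n := by
  unfold bdF
  rw [cX_tw hu]
  ring

lemma SU.tw {u : ℕ → ℂ} (h : SU Φ a) (hu : ∀ n, ‖u n‖ ≤ 1) : SU Φ (tw u a) := by
  intro κ hκ n hn
  rw [tw_apply, norm_mul]
  have h1 := h κ hκ n hn
  calc ‖a n‖ * ‖u n‖ ≤ ‖a n‖ * 1 := by gcongr; exact hu n
    _ ≤ _ := by rwa [mul_one]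

/-- the values of the primitive character -/
noncomputable def pc {q : ℕ} (χ : DirichletCharacter ℂ q) (n : ℕ) : ℂ :=
  χ.primitiveCharacter (n : ZMod χ.conductor)

lemma pc_one {q : ℕ} (χ : DirichletCharacter ℂ q) : pc χ 1 = 1 := by
  unfold pc
  rw [Nat.cast_one, map_one]

lemma pc_mul {q : ℕ} (χ : DirichletCharacter ℂ q) (m n : ℕ) : pc χ (m * n) = pc χ m * pc χ n := by
  unfold pc
  rw [Nat.cast_mul, map_mul]

lemma pc_le {q : ℕ} (χ : DirichletCharacter ℂ q) (n : ℕ) : ‖pc χ n‖ ≤ 1 :=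
  DirichletCharacter.norm_le_one _ _

end Pool.Agent.K9h52.HY
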